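import Pool.Agent.Work.MP_c3bd4f_he.Interface

namespace HDE

open HDC

theorem p_ALP : Stmt_ALP := by
  intro R I _ s e
  classical
  induction s using Finset.induction_on with
  | empty => intro _ _; simp
  | insert a s ha ih =>
    intro hc h0
    have hS := ih (fun i hi k hk => hc i (Finset.mem_insert_of_mem hi) k (Finset.mem_insert_of_mem hk))
      (fun i hi => h0 i (Finset.mem_insert_of_mem hi))
    have hcomm : Commute (e a) (∑ i ∈ s, e i) := by
      refine Commute.sum_right _ _ _ fun i hi => ?_
      exact hc a (Finset.mem_insert_self _ _) i (Finset.mem_insert_of_mem hi)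
    have haa : e a * e a = 0 := h0 a (Finset.mem_insert_self _ _)
    rw [Finset.sum_insert ha, Finset.card_insert_of_notMem ha, hcomm.add_pow]
    refine Finset.sum_eq_zero fun k _ => ?_
    by_cases hk : 2 ≤ k
    · obtain ⟨j, rfl⟩ := Nat.exists_eq_add_of_le hk
      rw [pow_add, pow_two, haa]
      simp
    · have h2 : (∑ i ∈ s, e i) ^ (s.card + 1 + 1 - k) = 0 := by
        obtain ⟨j, hj⟩ := Nat.exists_eq_add_of_le (show s.card + 1 ≤ s.card + 1 + 1 - k by omega)
        rw [hj, pow_add, hS, zero_mul]
      rw [h2]
      simp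

end HDE
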