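import Pool.Agent.Work.MP_c3bd4f_he.Interface

set_option autoImplicit false

/-!
# Block ALS: the algebra of the elementary step
-/

open scoped ContDiff Manifold Topology
open Set MeasureTheory

noncomputable section

namespace HDE

open HDC

theorem ALS_pow {K : Type} [CommRing K] [Algebra ℝ K] (e S : K) (hS : S * S = 0) (m : ℕ) :
    (e + S) ^ m = e ^ m + (m : ℝ) • (S * e ^ (m - 1)) := by
  induction m with
  | zero => simp
  | succ m ih =>
    have h1 : (m : ℝ) • (S * e ^ (m - 1)) * e = (m : ℝ) • (S * e ^ m) := by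
      cases m with
      | zero => simp
      | succ m =>
        rw [smul_mul_assoc, Nat.add_sub_cancel, pow_succ e m]
        ring_nf
    have h2 : (m : ℝ) • (S * e ^ (m - 1)) * S = 0 := by
      have h3 : S * e ^ (m - 1) * S = 0 := by
        calc S * e ^ (m - 1) * S = S * S * e ^ (m - 1) := by ring
          _ = 0 := by rw [hS, zero_mul]
      rw [smul_mul_assoc, h3, smul_zero]
    rw [pow_succ, ih, add_mul, mul_add, mul_add, h1, h2, Nat.add_sub_cancel, Nat.cast_succ,
      add_smul, one_smul, pow_succ e m]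
    ring

theorem ALS_pow' {K : Type} [CommRing K] [Algebra ℝ K] (e S : K) (hS : S * S = 0) (m : ℕ) :
    (e - S) ^ m = e ^ m - (m : ℝ) • (S * e ^ (m - 1)) := by
  have h := ALS_pow e (-S) (by rw [neg_mul_neg]; exact hS) m
  rw [sub_eq_add_neg, h, neg_mul, smul_neg, sub_eq_add_neg]

/-- the first identity -/
theorem ALS_one {K : Type} [CommRing K] [Algebra ℝ K] (m r j : ℕ) (w e S : K) (hr : r ≤ m + 1)
    (hw : w ^ r = 0) (hS : S * S = 0) :
    HP (m + 1) (r + 1) (bc (m + j + 1)) (w + S) (e - S) =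
      HP (m + 1) (r + 1) (bc (m + j + 1)) w e +
        S * ((j : ℝ) • HP m r (bc (m + j + 1)) w e) := by
  have h0 : ∀ i ∈ Finset.range (r + 1),
      bc (m + j + 1) i • ((w + S) ^ i * (e - S) ^ (m + 1 - i)) =
        bc (m + j + 1) i • (w ^ i * e ^ (m + 1 - i)) +
        (S * ((bc (m + j + 1) i * (i : ℝ)) • (w ^ (i - 1) * e ^ (m + 1 - i))) -
        S * ((bc (m + j + 1) i * ((m : ℝ) + 1 - i)) • (w ^ i * e ^ (m - i)))) := by
    intro i hi
    rw [Finset.mem_range] at hi
    have him : i ≤ m + 1 := by omega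
    have hc : ((m + 1 - i : ℕ) : ℝ) = (m : ℝ) + 1 - i := by
      rw [Nat.cast_sub him]
      push_cast
      ring
    have hs : m + 1 - i - 1 = m - i := by omega
    rw [ALS_pow w S hS, ALS_pow' e S hS, hc, hs]
    have h1 : (w ^ i + (i : ℝ) • (S * w ^ (i - 1))) *
        (e ^ (m + 1 - i) - ((m : ℝ) + 1 - i) • (S * e ^ (m - i))) =
        w ^ i * e ^ (m + 1 - i) + ((i : ℝ) • (S * (w ^ (i - 1) * e ^ (m + 1 - i))) -
          ((m : ℝ) + 1 - i) • (S * (w ^ i * e ^ (m - i)))) := by
      have h2 : (i : ℝ) • (S * w ^ (i - 1)) * (((m : ℝ) + 1 - i) • (S * e ^ (m - i))) = 0 := by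
        have h3 : S * w ^ (i - 1) * (S * e ^ (m - i)) = 0 := by
          calc S * w ^ (i - 1) * (S * e ^ (m - i)) = S * S * (w ^ (i - 1) * e ^ (m - i)) := by ring
            _ = 0 := by rw [hS, zero_mul]
        rw [smul_mul_smul_comm, h3, smul_zero]
      rw [add_mul, mul_sub, mul_sub, h2, sub_zero, mul_smul_comm, smul_mul_assoc]
      have h4 : w ^ i * (S * e ^ (m - i)) = S * (w ^ i * e ^ (m - i)) := by ring
      rw [h4, mul_assoc S]
      abel
    rw [h1, smul_add, smul_sub, smul_smul, smul_smul, mul_smul_comm, mul_smul_comm]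
  unfold HP
  rw [Finset.sum_congr rfl h0, Finset.sum_add_distrib, Finset.sum_sub_distrib, ← Finset.mul_sum,
    ← Finset.mul_sum, ← mul_sub]
  congr 2
  rw [Finset.sum_range_succ' (fun i => (bc (m + j + 1) i * (i : ℝ)) •
      (w ^ (i - 1) * e ^ (m + 1 - i))), Finset.sum_range_succ (fun i =>
      (bc (m + j + 1) i * ((m : ℝ) + 1 - i)) • (w ^ i * e ^ (m - i)))]
  rw [hw, zero_mul, smul_zero, add_zero]
  simp only [Nat.cast_zero, mul_zero, zero_smul, add_zero]
  rw [← Finset.sum_sub_distrib, Finset.smul_sum]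
  refine Finset.sum_congr rfl fun i hi => ?_
  rw [Finset.mem_range] at hi
  have hs : m + 1 - (i + 1) = m - i := by omega
  rw [Nat.add_sub_cancel, hs, ← sub_smul, smul_smul]
  congr 1
  have h5 : bc (m + j + 1) (i + 1) * ((i + 1 : ℕ) : ℝ) = bc (m + j + 1) i * ((m : ℝ) + j + 1 - i) := by
    unfold bc
    have h6 := Nat.choose_succ_right_eq (m + j + 1) i
    have h7 : ((m + j + 1 - i : ℕ) : ℝ) = (m : ℝ) + j + 1 - i := by
      rw [Nat.cast_sub (by omega)]
      push_cast
      ring
    rw [← h7]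
    exact_mod_cast h6
  rw [h5]
  ring

/-- the second identity -/
theorem ALS_two {K : Type} [CommRing K] [Algebra ℝ K] (m r j : ℕ) (w e : K) (hj : 1 ≤ j)
    (hr : r ≤ m + 1) (hw : w ^ r = 0) :
    e ^ j * ((j : ℝ) • HP m r (bc (m + j + 1)) w e) =
      (j : ℝ) • (e ^ (j - 1) * HP (m + 1) (r + 1) (bc (m + j + 1)) w e) := by
  rw [mul_smul_comm]
  congr 1
  unfold HP
  rw [Finset.sum_range_succ, hw, zero_mul, smul_zero, add_zero, Finset.mul_sum, Finset.mul_sum]
  refine Finset.sum_congr rfl fun i hi => ?_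
  rw [Finset.mem_range] at hi
  rw [mul_smul_comm, mul_smul_comm]
  congr 1
  obtain ⟨j, rfl⟩ : ∃ k, j = k + 1 := ⟨j - 1, by omega⟩
  obtain ⟨l, rfl⟩ : ∃ l, m = i + l := ⟨m - i, by omega⟩
  have h1 : i + l - i = l := by omega
  have h2 : i + l + 1 - i = l + 1 := by omega
  rw [h1, h2, Nat.add_sub_cancel]
  ring

theorem ALS_map {K R : Type} [CommRing K] [Algebra ℝ K] [Ring R] [Algebra ℝ R] (f : K →ₐ[ℝ] R)
    (m s : ℕ) (q : ℕ → ℝ) (x y : K) : f (HP m s q x y) = HP m s q (f x) (f y) := by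
  unfold HP
  rw [map_sum]
  refine Finset.sum_congr rfl fun i _ => ?_
  rw [map_smul, map_mul, map_pow, map_pow]

/-- the identities in the image of a commutative algebra -/
theorem ALS_img {K R : Type} [CommRing K] [Algebra ℝ K] [Ring R] [Algebra ℝ R] (f : K →ₐ[ℝ] R)
    (m r j : ℕ) (w e P Q : K) (hj : 1 ≤ j) (hr : r ≤ m + 1) (hw : w ^ r = 0) (hP : P * P = 0)
    (hS : (P + Q) * (P + Q) = 0) :
    (f e - f P) ^ j = f e ^ j - (j : ℝ) • (f P * f e ^ (j - 1)) ∧
    (f e - (f P + f Q)) ^ j = f e ^ j - (j : ℝ) • ((f P + f Q) * f e ^ (j - 1)) ∧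
    ∃ U X : K, (j : ℝ) • HP m r (bc (m + j + 1)) (f w) (f e) = f X ∧
      HP (m + 1) (r + 1) (bc (m + j + 1)) (f w + f P) (f e - f P) = f U + f P * f X ∧
      HP (m + 1) (r + 1) (bc (m + j + 1)) (f w + (f P + f Q)) (f e - (f P + f Q)) =
        f U + (f P + f Q) * f X ∧
      f e ^ j * f X = (j : ℝ) • (f e ^ (j - 1) * f U) := by
  refine ⟨?_, ?_, HP (m + 1) (r + 1) (bc (m + j + 1)) w e,
    (j : ℝ) • HP m r (bc (m + j + 1)) w e, ?_, ?_, ?_, ?_⟩
  · have h := congrArg f (ALS_pow' e P hP j)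
    simp only [map_pow, map_sub, map_smul, map_mul] at h
    exact h
  · have h := congrArg f (ALS_pow' e (P + Q) hS j)
    simp only [map_pow, map_sub, map_smul, map_mul, map_add] at h
    exact h
  · rw [map_smul, ALS_map]
  · have h := congrArg f (ALS_one m r j w e P hr hw hP)
    rw [ALS_map, map_add f (HP (m + 1) (r + 1) (bc (m + j + 1)) w e), map_mul, map_add, map_sub] at h
    exact h
  · have h := congrArg f (ALS_one m r j w e (P + Q) hr hw hS)
    rw [ALS_map, map_add f (HP (m + 1) (r + 1) (bc (m + j + 1)) w e), map_mul, map_add, map_sub,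
      map_add] at h
    exact h
  · have h := congrArg f (ALS_two m r j w e hj hr hw)
    rw [map_mul, map_pow, map_smul f (j : ℝ) (e ^ (j - 1) * _), map_mul, map_pow] at h
    exact h

theorem p_ALS : Stmt_ALS := by
  intro R _ _ n r j A B C c wf et nu hr hj hrj hc hwf het hAB hCB hBB hA hC hw
  obtain ⟨m, rfl⟩ : ∃ m, n = m + j := ⟨n - j, by omega⟩
  have hrm : r ≤ m + 1 := by omega
  have hn1 : m + j + 1 - j = m + 1 := by omega
  have hn2 : m + j - j = m := by omega
  -- products
  have hPB : A * B * B = 0 := by rw [mul_assoc, hBB, mul_zero]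
  have hQB : C * B * B = 0 := by rw [mul_assoc, hBB, mul_zero]
  have hBP : B * (A * B) = 0 := by rw [← hAB B, hPB]
  have hBQ : B * (C * B) = 0 := by rw [← hCB B, hQB]
  have hPP : A * B * (A * B) = 0 := by rw [mul_assoc A B, hBP, mul_zero]
  have hPQ : A * B * (C * B) = 0 := by rw [mul_assoc A B, hBQ, mul_zero]
  have hQP : C * B * (A * B) = 0 := by rw [mul_assoc C B, hBP, mul_zero]
  have hQQ : C * B * (C * B) = 0 := by rw [mul_assoc C B, hBQ, mul_zero]
  -- the elements of the center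
  have hmem : ∀ x : R, (∀ y, x * y = y * x) → x ∈ Subalgebra.center ℝ R := by
    intro x hx
    rw [Subalgebra.mem_center_iff]
    exact fun b => (hx b).symm
  have key := ALS_img (K := Subalgebra.center ℝ R) (Subalgebra.center ℝ R).val m r j
    ⟨wf, hmem _ hwf⟩ ⟨et, hmem _ het⟩ ⟨A * B, hmem _ hAB⟩ ⟨C * B, hmem _ hCB⟩ hj hrm
    (Subtype.ext hw) (Subtype.ext hPP) (Subtype.ext (by
      show (A * B + C * B) * (A * B + C * B) = 0
      rw [add_mul, mul_add, mul_add, hPP, hPQ, hQP, hQQ]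
      simp))
  obtain ⟨e1, e2, ⟨U, _⟩, ⟨X, _⟩, hX', f1, f2, f3⟩ := key
  replace e1 : (et - A * B) ^ j = et ^ j - (j : ℝ) • (A * B * et ^ (j - 1)) := e1
  replace e2 : (et - (A * B + C * B)) ^ j =
      et ^ j - (j : ℝ) • ((A * B + C * B) * et ^ (j - 1)) := e2
  replace hX' : (j : ℝ) • HP m r (bc (m + j + 1)) wf et = X := hX'
  replace f1 : HP (m + 1) (r + 1) (bc (m + j + 1)) (wf + A * B) (et - A * B) =
      U + A * B * X := f1
  replace f2 : HP (m + 1) (r + 1) (bc (m + j + 1)) (wf + (A * B + C * B)) (et - (A * B + C * B)) =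
      U + (A * B + C * B) * X := f2
  replace f3 : et ^ j * X = (j : ℝ) • (et ^ (j - 1) * U) := f3
  refine ⟨?_, ?_⟩
  · rw [add_mul A C B, e1, e2, add_mul, smul_add]
    abel
  · unfold UU
    rw [hn1, hn2, add_mul A C B, f1, f2, hX', e1]
    have hetp : ∀ (k : ℕ) (y : R), et ^ k * y = y * et ^ k := fun k y => by
      have h : Commute et y := het y
      exact h.pow_left k
    -- the terms which vanish
    have g1 : c * B * et ^ (j - 1) * ((A * B + C * B) * X) = 0 := by
      calc c * B * et ^ (j - 1) * ((A * B + C * B) * X) =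
          c * B * (et ^ (j - 1) * (A * B + C * B)) * X := by simp only [mul_assoc]
        _ = c * (B * (A * B) + B * (C * B)) * et ^ (j - 1) * X := by
          rw [hetp]
          simp only [mul_assoc, mul_add, add_mul]
        _ = 0 := by rw [hBP, hBQ, add_zero, mul_zero, zero_mul, zero_mul]
    have g2 : A * B * et ^ (j - 1) * (c * B * X) = 0 := by
      calc A * B * et ^ (j - 1) * (c * B * X) =
          A * B * (et ^ (j - 1) * (c * (B * X))) := by simp only [mul_assoc]
        _ = A * B * ((c * (B * X)) * et ^ (j - 1)) := by rw [hetp]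
        _ = A * B * (B * X) * c * et ^ (j - 1) := by
          rw [hc (B * X)]
          simp only [mul_assoc]
        _ = A * B * B * X * c * et ^ (j - 1) := by simp only [mul_assoc]
        _ = 0 := by rw [hPB, zero_mul, zero_mul, zero_mul]
    have g3 : et ^ j * (c * B * X) = (j : ℝ) • (c * B * et ^ (j - 1) * U) := by
      calc et ^ j * (c * B * X) = c * B * (et ^ j * X) := by
            rw [hetp, mul_assoc, ← hetp]
        _ = (j : ℝ) • (c * B * et ^ (j - 1) * U) := by
          rw [f3, mul_smul_comm]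
          simp only [mul_assoc]
    rw [sub_mul, sub_mul, mul_add, mul_add, smul_mul_assoc, smul_mul_assoc, smul_mul_assoc, g1, g2,
      g3]
    rw [smul_zero, mul_add, add_mul, mul_add]
    abel

end HDE
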