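import Pool.Agent.Work.MP_c3bd4f_he.Interface

set_option autoImplicit false

/-!
# Block CHN: replace all the `1`-forms
-/

open scoped ContDiff Manifold Topology
open Set MeasureTheory

noncomputable section

namespace HDE

open HDC

theorem CHN_UU {N : ℕ} {M : Type} [TopologicalSpace M] (n r j : ℕ) (X Y : PFam N M) (t : ℝ)
    (c : OpenPartialHomeomorph M (EE N)) (x : EE N) :
    (UU n r j X Y) t c x = UU n r j (X t c x) (Y t c x) := by
  unfold UU
  exact HP_apply _ _ _ _ _ _ _ _

theorem CHN_pow {N : ℕ} {M : Type} [TopologicalSpace M] (j : ℕ) (X : PFam N M) (t : ℝ)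
    (c : OpenPartialHomeomorph M (EE N)) (x : EE N) : (X ^ j) t c x = (X t c x) ^ j := by
  simp only [Pi.pow_apply]

theorem CHN_sum {N : ℕ} {M I : Type} [TopologicalSpace M] (s : Finset I) (P : I → PFam N M) (t : ℝ)
    (c : OpenPartialHomeomorph M (EE N)) (x : EE N) :
    (∑ i ∈ s, P i) t c x = ∑ i ∈ s, P i t c x := by
  simp only [Finset.sum_apply]

theorem CHN_Vn_add {N : ℕ} {M : Type} [TopologicalSpace M] [ChartedSpace (EE N) M] {K : Set M}
    {F G : PFam N M} (hF : Vn K F) (hG : Vn K G) : Vn K (F + G) := by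
  refine ⟨?_, ?_, ?_⟩
  · intro t ht c hc x hx hxK
    show F t c x + G t c x = 0
    rw [hF.cs t ht c hc x hx hxK, hG.cs t ht c hc x hx hxK, add_zero]
  · intro c hc x hx
    show (F 0 c x).1 + (G 0 c x).1 = 0
    rw [hF.v0 c hc x hx, hG.v0 c hc x hx, add_zero]
  · intro c hc x hx
    show (F 1 c x).1 + (G 1 c x).1 = 0
    rw [hF.v1 c hc x hx, hG.v1 c hc x hx, add_zero]

theorem CHN_Vn_zero {N : ℕ} {M : Type} [TopologicalSpace M] [ChartedSpace (EE N) M] (K : Set M) :
    Vn K (0 : PFam N M) :=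
  ⟨fun _ _ _ _ _ _ _ => rfl, fun _ _ _ _ => rfl, fun _ _ _ _ => rfl⟩

/-- Products of two elements of degree `1` are central with square `0`. -/
theorem CHN_sq (hPLA : Stmt_PLA) {N : ℕ} (x y : PL N) (hx : Hg 1 x) (hy : Hg 1 y) :
    (x * y) * (x * y) = 0 ∧ ∀ z, (x * y) * z = z * (x * y) := by
  obtain ⟨c2, -, s1, a1, m, -, -, -, -⟩ := hPLA N
  have h2 : Hg 2 (x * y) := m 1 1 x y hx hy
  refine ⟨?_, fun z => c2 _ z h2⟩
  have h3 : (x * y) * (x * y) = x * (y * x) * y := by
    simp only [mul_assoc]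
  have h4 : y * x = -(x * y) := a1 y x hy hx
  rw [h3, h4]
  have h5 : x * -(x * y) * y = -((x * x) * (y * y)) := by
    rw [mul_neg, neg_mul]
    simp only [mul_assoc]
  rw [h5, s1 x hx, zero_mul, neg_zero]

/-- Block CHN. -/
theorem p_CHN (hPLA : Stmt_PLA) (hALP : Stmt_ALP) (hDFA : Stmt_DFA) (hDDA : Stmt_DDA)
    (hLBP : Stmt_LBP) (hNLA : Stmt_NLA) (hESL : Stmt_ESL) : Stmt_CHN := by
  intro n M _ _ _ _ _ _ _ Ω vol K hn hSg r j hj hrj A A' B B' ca cb wt nu hdeg hcl hwt hdwt hnu
    hdnu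
  obtain ⟨A1, A2, A3, A4, A5, A6, A7, A8⟩ := hDFA (2 * n) M
  obtain ⟨B1, B2, B3, B4, B5⟩ := hDDA (2 * n) M
  obtain ⟨-, -, -, N4, N5, N6⟩ := hNLA n M Ω vol K hSg
  classical
  -- products of closed forms of degree `1`
  have hprod : ∀ F F' : PFam (2 * n) M, DFm 1 F → DFm 1 F' → DD F 0 → DD F' 0 →
      DFm 2 (F * F') ∧ DD (F * F') 0 := by
    intro F F' hF hF' hd hd'
    refine ⟨A3 1 1 F F' hF hF', ?_⟩
    have h := hLBP (2 * n) M 1 1 F F' 0 0 hF hF' hd hd'
    rw [zero_mul, mul_zero, smul_zero, add_zero] at h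
    exact h
  set P : Finset (Fin r) → Fin r → PFam (2 * n) M := fun s i =>
    if i ∈ s then A' i * B' i else A i * B i with hP
  set w : Finset (Fin r) → PFam (2 * n) M := fun s => ∑ i, P s i with hw
  have hPdeg : ∀ s i, DFm 2 (P s i) ∧ DD (P s i) 0 := by
    intro s i
    obtain ⟨d1, d2, d3, d4, -, -⟩ := hdeg i
    obtain ⟨e1, e2, e3, e4, -, -, -, -⟩ := hcl i
    simp only [hP]
    split_ifs
    · exact hprod _ _ d2 d4 e2 e4
    · exact hprod _ _ d1 d3 e1 e3
  have hPsq : ∀ s i, ∀ t ∈ Icc (0 : ℝ) 1, ∀ c ∈ atlas (EE (2 * n)) M, ∀ x ∈ c.target,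
      (P s i t c x) * (P s i t c x) = 0 ∧ ∀ z, (P s i t c x) * z = z * (P s i t c x) := by
    intro s i t ht c hc x hx
    obtain ⟨d1, d2, d3, d4, -, -⟩ := hdeg i
    by_cases h : i ∈ s
    · have e : P s i = A' i * B' i := by simp only [hP]; rw [if_pos h]
      rw [e]
      exact CHN_sq hPLA _ _ (A6 1 _ d2 t ht c hc x hx) (A6 1 _ d4 t ht c hc x hx)
    · have e : P s i = A i * B i := by simp only [hP]; rw [if_neg h]
      rw [e]
      exact CHN_sq hPLA _ _ (A6 1 _ d1 t ht c hc x hx) (A6 1 _ d3 t ht c hc x hx)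
  have hsumdeg : ∀ (s : Finset (Fin r)) (u : Finset (Fin r)),
      DFm 2 (∑ i ∈ u, P s i) ∧ DD (∑ i ∈ u, P s i) 0 := by
    intro s u
    induction u using Finset.induction_on with
    | empty => rw [Finset.sum_empty]; exact ⟨A8 2, B5⟩
    | insert a u ha ih =>
      rw [Finset.sum_insert ha]
      refine ⟨(A1 2 _ _ (hPdeg s a).1 ih.1).1, ?_⟩
      have h := (B1 2 _ _ _ _ (hPdeg s a).1 ih.1 (hPdeg s a).2 ih.2).1
      rw [add_zero] at h
      exact h
  -- the claim
  have claim : ∀ s : Finset (Fin r), ∃ nu' : PFam (2 * n) M, DFm (2 * j - 1) nu' ∧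
      DD nu' ((wt - w s) ^ j) ∧ Vn K (nu' - nu) ∧
      Nl n Ω vol K (nu' * UU n r j (w s) (wt - w s) - nu * UU n r j (w ∅) (wt - w ∅)) := by
    intro s
    induction s using Finset.induction_on with
    | empty =>
      refine ⟨nu, hnu, ?_, ?_, ?_⟩
      · have e : w ∅ = ∑ i, A i * B i := by
          simp only [hw, hP, Finset.notMem_empty, if_false]
        rw [e]
        exact hdnu
      · rw [sub_self]
        exact CHN_Vn_zero K
      · rw [sub_self]
        exact N6
    | insert a s ha ih =>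
      obtain ⟨nu1, hnu1, hd1, hv1, hl1⟩ := ih
      obtain ⟨d1, d2, d3, d4, d5, d6⟩ := hdeg a
      obtain ⟨e1, e2, e3, e4, e5, e6, e7, e8⟩ := hcl a
      have hr : 1 ≤ r := by
        have := a.2
        omega
      set wf : PFam (2 * n) M := ∑ i ∈ Finset.univ.erase a, P s i with hwf
      have hws : w s = wf + A a * B a := by
        have h1 : w s = ∑ i, P s i := rfl
        rw [h1, ← Finset.sum_erase_add _ _ (Finset.mem_univ a)]
        congr 1
        simp only [hP]
        rw [if_neg ha]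
      have hwi : w (insert a s) = wf + A' a * B' a := by
        have h1 : w (insert a s) = ∑ i, P (insert a s) i := rfl
        rw [h1, ← Finset.sum_erase_add _ _ (Finset.mem_univ a)]
        congr 1
        · refine Finset.sum_congr rfl fun i hi => ?_
          have hia : i ≠ a := (Finset.mem_erase.1 hi).1
          simp only [hP, Finset.mem_insert, hia, false_or]
        · simp only [hP]
          rw [if_pos (Finset.mem_insert_self a s)]
      have hwfd : DFm 2 wf ∧ DD wf 0 := hsumdeg s _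
      have hwfr : EqP (wf ^ r) 0 := by
        intro t ht c hc x hx
        rw [CHN_pow]
        rw [hwf, CHN_sum]
        have h := hALP (PL (2 * n)) (Fin r) (Finset.univ.erase a) (fun i => P s i t c x)
          (fun i _ k _ => (hPsq s i t ht c hc x hx).2 _) (fun i _ => (hPsq s i t ht c hc x hx).1)
        have hcard : (Finset.univ.erase a : Finset (Fin r)).card + 1 = r := by
          rw [Finset.card_erase_of_mem (Finset.mem_univ a), Finset.card_univ, Fintype.card_fin]
          omega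
        rw [hcard] at h
        exact h
      -- first step
      have hC1 : DFm 1 (A' a - A a) := (A1 1 _ _ d2 d1).2
      have hdC1 : DD (A' a - A a) 0 := by
        have h := (B1 1 _ _ _ _ d2 d1 e2 e1).2
        rw [sub_zero] at h
        exact h
      have hd1' : DD nu1 ((wt - wf - A a * B a) ^ j) := by
        rw [hws, ← sub_sub] at hd1
        exact hd1
      obtain ⟨nu2, hnu2, hd2, hv2, hl2⟩ := hESL n M Ω vol K hn hSg r j hr hj hrj (A a) (B a)
        (A' a - A a) (ca a) wf wt nu1 d1 d3 hC1 d5 hwfd.1 hwt hnu1 e1 e3 hdC1 e5 hwfd.2 hdwt hd1'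
        e7 hwfr
      rw [add_sub_cancel] at hd2 hl2
      -- second step
      have hneg : -(A' a) = (-1 : ℝ) • A' a := (neg_one_smul ℝ (A' a)).symm
      have hAn : DFm 1 (-(A' a)) := by
        rw [hneg]
        exact A2 1 _ _ d2
      have hdAn : DD (-(A' a)) 0 := by
        have h := B2 1 _ _ (-1 : ℝ) d2 e2
        rw [smul_zero, ← hneg] at h
        exact h
      have hC2 : DFm 1 (B' a - B a) := (A1 1 _ _ d4 d3).2
      have hdC2 : DD (B' a - B a) 0 := by
        have h := (B1 1 _ _ _ _ d4 d3 e4 e3).2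
        rw [sub_zero] at h
        exact h
      obtain ⟨-, -, -, a1, -, -, -, -, -⟩ := hPLA (2 * n)
      have sw : ∀ Bx : PFam (2 * n) M, DFm 1 Bx → EqP (A' a * Bx) (Bx * -(A' a)) := by
        intro Bx hBx t ht c hc x hx
        show A' a t c x * Bx t c x = Bx t c x * -(A' a t c x)
        rw [a1 _ _ (A6 1 _ d2 t ht c hc x hx) (A6 1 _ hBx t ht c hc x hx), mul_neg]
      have swp : ∀ Bx : PFam (2 * n) M, DFm 1 Bx →
          EqP ((wt - wf - A' a * Bx) ^ j) ((wt - wf - Bx * -(A' a)) ^ j) := by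
        intro Bx hBx t ht c hc x hx
        rw [CHN_pow, CHN_pow]
        show (wt t c x - wf t c x - (A' a * Bx) t c x) ^ j =
          (wt t c x - wf t c x - (Bx * -(A' a)) t c x) ^ j
        rw [sw Bx hBx t ht c hc x hx]
      have swu : ∀ (Bx : PFam (2 * n) M), DFm 1 Bx → ∀ t ∈ Icc (0 : ℝ) 1,
          ∀ c ∈ atlas (EE (2 * n)) M, ∀ x ∈ c.target,
          (UU n r j (wf + Bx * -(A' a)) (wt - wf - Bx * -(A' a))) t c x =
            (UU n r j (wf + A' a * Bx) (wt - wf - A' a * Bx)) t c x := by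
        intro Bx hBx t ht c hc x hx
        rw [CHN_UU, CHN_UU]
        show UU n r j (wf t c x + (Bx * -(A' a)) t c x)
            (wt t c x - wf t c x - (Bx * -(A' a)) t c x) =
          UU n r j (wf t c x + (A' a * Bx) t c x) (wt t c x - wf t c x - (A' a * Bx) t c x)
        rw [sw Bx hBx t ht c hc x hx]
      have hrefl : EqP nu2 nu2 := fun _ _ _ _ _ _ => rfl
      have hd2' : DD nu2 ((wt - wf - B a * -(A' a)) ^ j) :=
        B3 _ _ _ _ hrefl (swp (B a) d3) hd2
      obtain ⟨nu3, hnu3, hd3, hv3, hl3⟩ := hESL n M Ω vol K hn hSg r j hr hj hrj (B a) (-(A' a))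
        (B' a - B a) (cb a) wf wt nu2 d3 hAn hC2 d6 hwfd.1 hwt hnu2 e3 hdAn hdC2 e6 hwfd.2 hdwt
        hd2' e8 hwfr
      rw [add_sub_cancel] at hd3 hl3
      refine ⟨nu3, hnu3, ?_, ?_, ?_⟩
      · rw [hwi, ← sub_sub]
        refine B3 _ _ _ _ (fun _ _ _ _ _ _ => rfl) ?_ hd3
        intro t ht c hc x hx
        exact (swp (B' a) d4 t ht c hc x hx).symm
      · have h := CHN_Vn_add (CHN_Vn_add hv3 hv2) hv1
        have e : nu3 - nu2 + (nu2 - nu1) + (nu1 - nu) = nu3 - nu := by abel
        rw [e] at h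
        exact h
      · have hl3' : Nl n Ω vol K (nu3 * UU n r j (wf + A' a * B' a) (wt - wf - A' a * B' a) -
            nu2 * UU n r j (wf + A' a * B a) (wt - wf - A' a * B a)) := by
          refine N5 _ _ ?_ hl3
          intro t ht c hc x hx
          show nu3 t c x * (UU n r j (wf + B' a * -(A' a)) (wt - wf - B' a * -(A' a))) t c x -
              nu2 t c x * (UU n r j (wf + B a * -(A' a)) (wt - wf - B a * -(A' a))) t c x =
            nu3 t c x * (UU n r j (wf + A' a * B' a) (wt - wf - A' a * B' a)) t c x -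
              nu2 t c x * (UU n r j (wf + A' a * B a) (wt - wf - A' a * B a)) t c x
          rw [swu (B' a) d4 t ht c hc x hx, swu (B a) d3 t ht c hc x hx]
        have h := (N4 _ _ 1 (N4 _ _ 1 hl3' hl2).1 hl1).1
        rw [hwi, ← sub_sub]
        have e : nu3 * UU n r j (wf + A' a * B' a) (wt - wf - A' a * B' a) -
            nu2 * UU n r j (wf + A' a * B a) (wt - wf - A' a * B a) +
            (nu2 * UU n r j (wf + A' a * B a) (wt - wf - A' a * B a) -
              nu1 * UU n r j (wf + A a * B a) (wt - wf - A a * B a)) +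
            (nu1 * UU n r j (w s) (wt - w s) - nu * UU n r j (w ∅) (wt - w ∅)) =
            nu3 * UU n r j (wf + A' a * B' a) (wt - wf - A' a * B' a) -
              nu * UU n r j (w ∅) (wt - w ∅) := by
          rw [hws, ← sub_sub]
          abel
        rw [e] at h
        exact h
  obtain ⟨nu', h1, h2, h3, h4⟩ := claim Finset.univ
  have e0 : w ∅ = ∑ i, A i * B i := by
    simp only [hw, hP, Finset.notMem_empty, if_false]
  have e1 : w Finset.univ = ∑ i, A' i * B' i := by
    simp only [hw, hP, Finset.mem_univ, if_true]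
  rw [e1] at h2 h4
  rw [e0] at h4
  exact ⟨nu', h1, h2, h3, h4⟩

end HDE
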