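import Pool.Agent.Work.MP_c3bd4f_he.Interface

set_option autoImplicit false

/-! # Block CLP (helper71) -/

open scoped ContDiff Manifold Topology
open Set MeasureTheory

noncomputable section

namespace HDE

open HDC

theorem CLP_D0 (N : ℕ) (x : EE N) : D (fun _ : EE N => (0 : Lam N)) x = 0 := by
  simp [D]

theorem CLP_slice {N : ℕ} {g : ℝ × EE N → Lam N} {U : Set (EE N)}
    (hg : ContDiffOn ℝ ∞ g (Icc 0 1 ×ˢ U)) {x : EE N} (hx : x ∈ U) :
    ContinuousOn (fun s : ℝ => g (s, x)) (Icc 0 1) := by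
  have h1 : ContinuousOn (fun s : ℝ => ((s, x) : ℝ × EE N)) (Icc 0 1) := by fun_prop
  exact hg.continuousOn.comp h1 fun s hs => ⟨hs, hx⟩

theorem p_CLP (hPRM : Stmt_PRM) : Stmt_CLP := by
  intro N M _ _ _ F K hF hd h0 hK
  have : CompleteSpace (Lam N) := FiniteDimensional.complete ℝ _
  set G : ℝ → Fam N M := fun t c x => (F t c x).2 with hG
  have hG0 : TForm 0 G := hF.f1 0 rfl
  obtain ⟨p1, p2, p3⟩ := hPRM N M 0 G hG0
  have hD : TForm 1 (fun t => dF (G t)) := HDC.q_FO1 N M 0 G hG0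
  refine ⟨fun t c x => ((∫ s in (0 : ℝ)..t, G s c x, (0 : Lam N)) : Lam N × Lam N),
    ⟨p1, fun l hl => absurd hl (by omega), fun _ t _ c _ x _ => rfl⟩, ⟨?_, ?_⟩, ?_, ?_⟩
  · intro t ht c hc x hx
    have h2 := p2 t ht c hc x hx
    show (F t c x).1 = D (fun y => ∫ s in (0 : ℝ)..t, G s c y) x
    rw [h2]
    have hcont : ContinuousOn (fun s => (F s c x).1) (Icc 0 t) :=
      (CLP_slice (g := fun q : ℝ × EE N => (F q.1 c q.2).1) (hF.f0.smooth c hc) hx).mono
        (Icc_subset_Icc_right ht.2)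
    have hcont2 : ContinuousOn (fun s => D (G s c) x) (Icc 0 t) :=
      (CLP_slice (g := fun q : ℝ × EE N => dF (G q.1) c q.2) (hD.smooth c hc) hx).mono
        (Icc_subset_Icc_right ht.2)
    have hder : ∀ s ∈ Ioo (0 : ℝ) t, HasDerivAt (fun s => (F s c x).1) (D (G s c) x) s := by
      intro s hs
      have h3 := hd.d1 s ⟨hs.1, lt_of_lt_of_le hs.2 ht.2⟩ c hc x hx
      have h4 : ((0 : PFam N M) s c x).2 + D (fun y => (F s c y).2) x = D (G s c) x := by
        show (0 : Lam N) + D (fun y => (F s c y).2) x = D (G s c) x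
        rw [zero_add]
      rw [h4] at h3
      exact h3
    have h5 := intervalIntegral.integral_eq_sub_of_hasDerivAt_of_le ht.1 hcont hder
      (by
        apply ContinuousOn.intervalIntegrable
        rw [uIcc_of_le ht.1]
        exact hcont2)
    rw [h5, h0 c hc x hx, sub_zero]
  · intro t ht c hc x hx
    have h3 := p3 t ht c hc x hx
    have h4 : (F t c x).2 + D (fun _ => (0 : Lam N)) x = G t c x := by
      rw [CLP_D0, add_zero]
    show HasDerivAt (fun s => ∫ u in (0 : ℝ)..s, G u c x)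
      ((F t c x).2 + D (fun _ => (0 : Lam N)) x) t
    rw [h4]
    exact h3
  · intro t ht c hc x hx hxK
    refine PL.ext ?_ rfl
    show ∫ s in (0 : ℝ)..t, G s c x = 0
    have h1 : ∫ s in (0 : ℝ)..t, G s c x = ∫ s in (0 : ℝ)..t, (0 : Lam N) := by
      apply intervalIntegral.integral_congr
      intro s hs
      rw [uIcc_of_le ht.1] at hs
      have h2 := hK s ⟨hs.1, hs.2.trans ht.2⟩ c hc x hx hxK
      show (F s c x).2 = 0
      rw [h2]
      rfl
    rw [h1, intervalIntegral.integral_zero]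
  · intro c _ x _
    show ∫ s in (0 : ℝ)..0, G s c x = 0
    exact intervalIntegral.integral_same

end HDE
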