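import Pool.Agent.Work.MP_c3bd4f_he.Interface

set_option autoImplicit false

/-! Block CLV: closed forms of degree one which vanish at both ends have a primitive. -/

open scoped ContDiff Manifold Topology
open Set MeasureTheory

noncomputable section

namespace HDE

open HDC

theorem p_CLV (_ : Stmt_DFA) (hCLP : Stmt_CLP) (hNCC : Stmt_NCC) : Stmt_CLV := by
  intro N M _ _ _ hM K F hK hF hD hV
  obtain ⟨e, he0, hDe, hcs, h0⟩ := hCLP N M F K hF hD hV.v0 hV.cs
  have h1 : (1 : ℝ) ∈ Icc (0 : ℝ) 1 := ⟨zero_le_one, le_rfl⟩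
  have hf : IsForm 0 (fun c x => (e 1 c x).1 : Fam N M) := he0.f0.form 1 h1
  have hd : EqF (dF (fun c x => (e 1 c x).1 : Fam N M)) 0 := fun c hc x hx =>
    (hDe.d0 1 h1 c hc x hx).symm.trans (hV.v1 c hc x hx)
  have hs : CS K (fun c x => (e 1 c x).1 : Fam N M) := fun c hc x hx hxK => by
    change (e 1 c x).1 = 0
    rw [hcs 1 h1 c hc x hx hxK]
    rfl
  have hz := hNCC N M hM K _ hK hf hd hs
  exact ⟨e, he0, ⟨hcs, h0, fun c hc x hx => hz c hc x hx⟩, hDe⟩

end HDE
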