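import Pool.Agent.Work.MP_c3bd4f_he.Interface

set_option autoImplicit false

/-! Block CSD: constant families. -/

open scoped ContDiff Manifold Topology
open Set MeasureTheory

noncomputable section

namespace HDE

open HDC

theorem CSD_zero (N : ℕ) (M : Type) [TopologicalSpace M] [ChartedSpace (EE N) M] (l : ℕ) :
    IsForm l (0 : Fam N M) where
  smooth := fun c _ => contDiffOn_const
  compat := fun c _ c' _ x _ _ => by
    simp only [Pi.zero_apply, map_zero]
  deg := fun c _ x _ => Submodule.zero_mem _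

theorem CSD_D (N : ℕ) (x : EE N) : D (fun _ : EE N => (0 : Lam N)) x = 0 := by
  unfold D
  refine Finset.sum_eq_zero fun i _ => ?_
  have h : fderiv ℝ (fun _ : EE N => (0 : Lam N)) x = 0 := fderiv_const_apply _
  rw [h]
  simp

theorem p_CSD : Stmt_CSD := by
  intro N M _ _ _
  refine ⟨fun k f hf => ⟨⟨(HDC.q_FO2 N M).2.2.2.1 k f hf, fun l _ =>
    (HDC.q_FO2 N M).2.2.2.1 l 0 (CSD_zero N M l), fun _ t _ c _ x _ => rfl⟩,
    ⟨fun t _ c _ x _ => rfl, fun t _ c _ x _ => ?_⟩⟩, fun f g => ?_⟩
  · have h : (cst (dF f) t c x).2 + D (fun y => (cst f t c y).2) x = 0 := by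
      have h1 : D (fun y => (cst f t c y).2) x = 0 := CSD_D N x
      rw [h1]
      exact add_zero _
    rw [h]
    exact hasDerivAt_const t (f c x)
  · funext t c x
    refine PL.ext rfl ?_
    change (0 : Lam N) = 0 * g c x + inv (f c x) * 0
    rw [zero_mul, mul_zero, add_zero]

end HDE
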