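import Pool.Agent.Work.MP_c3bd4f_he.Interface

set_option autoImplicit false

open scoped ContDiff Manifold Topology
open Set MeasureTheory

noncomputable section

namespace HDE

open HDC

theorem DDA_add {N : ℕ} {f g : EE N → Lam N} {x : EE N} (hf : DifferentiableAt ℝ f x)
    (hg : DifferentiableAt ℝ g x) : D (fun y => f y + g y) x = D f x + D g x := by
  simp only [D]
  rw [← Finset.sum_add_distrib]
  refine Finset.sum_congr rfl fun i _ => ?_
  rw [fderiv_fun_add hf hg, add_apply, mul_add]

theorem DDA_sub {N : ℕ} {f g : EE N → Lam N} {x : EE N} (hf : DifferentiableAt ℝ f x)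
    (hg : DifferentiableAt ℝ g x) : D (fun y => f y - g y) x = D f x - D g x := by
  simp only [D]
  rw [← Finset.sum_sub_distrib]
  refine Finset.sum_congr rfl fun i _ => ?_
  rw [fderiv_fun_sub hf hg, sub_apply, mul_sub]

theorem DDA_smul {N : ℕ} {f : EE N → Lam N} {x : EE N} (r : ℝ) (hf : DifferentiableAt ℝ f x) :
    D (fun y => r • f y) x = r • D f x := by
  simp only [D]
  rw [Finset.smul_sum]
  refine Finset.sum_congr rfl fun i _ => ?_
  rw [fderiv_fun_const_smul hf, smul_apply, mul_smul_comm]

theorem DDA_congr {N : ℕ} {f g : EE N → Lam N} {x : EE N} (h : f =ᶠ[𝓝 x] g) :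
    D f x = D g x := by
  simp only [D]
  refine Finset.sum_congr rfl fun i _ => ?_
  rw [h.fderiv_eq]

theorem DDA_const {N : ℕ} (a : Lam N) (x : EE N) : D (fun _ : EE N => a) x = 0 := by
  simp only [D]
  refine Finset.sum_eq_zero fun i _ => ?_
  rw [fderiv_fun_const]
  simp

theorem p_DDA (hDFA : Stmt_DFA) : Stmt_DDA := by
  intro N M _ _ _
  obtain ⟨-, -, -, -, -, -, hsm, -⟩ := hDFA N M
  have hdf : ∀ (k : ℕ) (F : PFam N M), DFm k F → ∀ t ∈ Icc (0 : ℝ) 1, ∀ c ∈ atlas (EE N) M,
      ∀ x ∈ c.target, DifferentiableAt ℝ (fun y => (F t c y).1) x ∧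
        DifferentiableAt ℝ (fun y => (F t c y).2) x := by
    intro k F hF t ht c hc x hx
    obtain ⟨h1, h2⟩ := hsm k F hF t ht c hc x hx
    exact ⟨h1.differentiableAt (by simp), h2.differentiableAt (by simp)⟩
  refine ⟨?_, ?_, ?_, ?_, ?_⟩
  · intro k F F' G G' hF hF' hG hG'
    constructor
    · constructor
      · intro t ht c hc x hx
        have h1 := DDA_add (hdf k F hF t ht c hc x hx).1 (hdf k F' hF' t ht c hc x hx).1
        have h2 : D (fun y => ((F + F') t c y).1) x = D (fun y => (F t c y).1 + (F' t c y).1) x := rfl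
        rw [h2, h1, ← hG.d0 t ht c hc x hx, ← hG'.d0 t ht c hc x hx]
        rfl
      · intro t ht c hc x hx
        have ht' := Ioo_subset_Icc_self ht
        have h1 := DDA_add (hdf k F hF t ht' c hc x hx).2 (hdf k F' hF' t ht' c hc x hx).2
        have h2 : D (fun y => ((F + F') t c y).2) x = D (fun y => (F t c y).2 + (F' t c y).2) x := rfl
        have h3 := (hG.d1 t ht c hc x hx).fun_add (hG'.d1 t ht c hc x hx)
        have h4 : ((G + G') t c x).2 + D (fun y => ((F + F') t c y).2) x =
            ((G t c x).2 + D (fun y => (F t c y).2) x) +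
              ((G' t c x).2 + D (fun y => (F' t c y).2) x) := by
          rw [h2, h1]
          have h5 : ((G + G') t c x).2 = (G t c x).2 + (G' t c x).2 := rfl
          rw [h5]
          abel
        rw [h4]
        exact h3
    · constructor
      · intro t ht c hc x hx
        have h1 := DDA_sub (hdf k F hF t ht c hc x hx).1 (hdf k F' hF' t ht c hc x hx).1
        have h2 : D (fun y => ((F - F') t c y).1) x = D (fun y => (F t c y).1 - (F' t c y).1) x := rfl
        rw [h2, h1, ← hG.d0 t ht c hc x hx, ← hG'.d0 t ht c hc x hx]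
        rfl
      · intro t ht c hc x hx
        have ht' := Ioo_subset_Icc_self ht
        have h1 := DDA_sub (hdf k F hF t ht' c hc x hx).2 (hdf k F' hF' t ht' c hc x hx).2
        have h2 : D (fun y => ((F - F') t c y).2) x = D (fun y => (F t c y).2 - (F' t c y).2) x := rfl
        have h3 := (hG.d1 t ht c hc x hx).fun_sub (hG'.d1 t ht c hc x hx)
        have h4 : ((G - G') t c x).2 + D (fun y => ((F - F') t c y).2) x =
            ((G t c x).2 + D (fun y => (F t c y).2) x) -
              ((G' t c x).2 + D (fun y => (F' t c y).2) x) := by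
          rw [h2, h1]
          have h5 : ((G - G') t c x).2 = (G t c x).2 - (G' t c x).2 := rfl
          rw [h5]
          abel
        rw [h4]
        exact h3
  · intro k F G r hF hG
    constructor
    · intro t ht c hc x hx
      have h1 := DDA_smul r (hdf k F hF t ht c hc x hx).1
      have h2 : D (fun y => ((r • F) t c y).1) x = D (fun y => r • (F t c y).1) x := rfl
      rw [h2, h1, ← hG.d0 t ht c hc x hx]
      rfl
    · intro t ht c hc x hx
      have ht' := Ioo_subset_Icc_self ht
      have h1 := DDA_smul r (hdf k F hF t ht' c hc x hx).2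
      have h2 : D (fun y => ((r • F) t c y).2) x = D (fun y => r • (F t c y).2) x := rfl
      have h3 := (hG.d1 t ht c hc x hx).const_smul r
      have h4 : ((r • G) t c x).2 + D (fun y => ((r • F) t c y).2) x =
          r • ((G t c x).2 + D (fun y => (F t c y).2) x) := by
        rw [h2, h1, smul_add]
        rfl
      rw [h4]
      exact h3
  · intro F F' G G' hFF hGG hG
    constructor
    · intro t ht c hc x hx
      rw [← hGG t ht c hc x hx, hG.d0 t ht c hc x hx]
      refine DDA_congr ?_
      filter_upwards [c.open_target.mem_nhds hx] with y hy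
      rw [hFF t ht c hc y hy]
    · intro t ht c hc x hx
      have ht' := Ioo_subset_Icc_self ht
      have h1 := hG.d1 t ht c hc x hx
      have h2 : D (fun y => (F t c y).2) x = D (fun y => (F' t c y).2) x := by
        refine DDA_congr ?_
        filter_upwards [c.open_target.mem_nhds hx] with y hy
        rw [hFF t ht' c hc y hy]
      rw [hGG t ht' c hc x hx, h2] at h1
      refine h1.congr_of_eventuallyEq ?_
      filter_upwards [isOpen_Ioo.mem_nhds ht] with s hs
      rw [hFF s (Ioo_subset_Icc_self hs) c hc x hx]
  · constructor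
    · intro t ht c hc x hx
      exact (DDA_const (1 : Lam N) x).symm
    · intro t ht c hc x hx
      have h1 : D (fun y => ((1 : PFam N M) t c y).2) x = 0 := DDA_const (0 : Lam N) x
      have h2 : ((0 : PFam N M) t c x).2 + D (fun y => ((1 : PFam N M) t c y).2) x = 0 := by
        rw [h1, add_zero]
        rfl
      rw [h2]
      exact hasDerivAt_const t (1 : Lam N)
  · constructor
    · intro t ht c hc x hx
      exact (DDA_const (0 : Lam N) x).symm
    · intro t ht c hc x hx
      have h1 : D (fun y => ((0 : PFam N M) t c y).2) x = 0 := DDA_const (0 : Lam N) x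
      have h2 : ((0 : PFam N M) t c x).2 + D (fun y => ((0 : PFam N M) t c y).2) x = 0 := by
        rw [h1, add_zero]
        rfl
      rw [h2]
      exact hasDerivAt_const t (0 : Lam N)

end HDE
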