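import Pool.Agent.Work.MP_c3bd4f_he.Interface

set_option autoImplicit false

/-!
# Block DFA: operations on forms on `[0, 1] × M`
-/

open scoped ContDiff Manifold Topology
open Set MeasureTheory

noncomputable section

namespace HDE

open HDC

theorem DFA_z (N : ℕ) (M : Type) [TopologicalSpace M] [ChartedSpace (EE N) M]
    [IsManifold 𝓘(ℝ, EE N) ∞ M] (k : ℕ) : TForm k (fun _ => (0 : Fam N M)) := by
  obtain ⟨-, -, -, F4, -, -, -, -⟩ := q_FO2 N M
  refine F4 k 0 ⟨fun c _ => contDiffOn_const, ?_, ?_⟩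
  · intro c _ c' _ x _ _
    exact (map_zero (pb _)).symm
  · intro c _ x _
    exact Submodule.zero_mem _

theorem DFA_one (N : ℕ) (M : Type) [TopologicalSpace M] [ChartedSpace (EE N) M]
    [IsManifold 𝓘(ℝ, EE N) ∞ M] : TForm 0 (fun _ => (1 : Fam N M)) := by
  obtain ⟨-, -, -, F4, -, -, -, -⟩ := q_FO2 N M
  refine F4 0 1 ⟨fun c _ => contDiffOn_const, ?_, ?_⟩
  · intro c _ c' _ x _ _
    exact (map_one (pb _)).symm
  · intro c _ x _
    have h := (q_DEG N).2.2.2.2.2.2.2 1
    rw [map_one] at h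
    exact h

/-- Block DFA. -/
theorem p_DFA (hPLA : Stmt_PLA) : Stmt_DFA := by
  intro N M _ _ _
  obtain ⟨F1, F2, F3, F4, F5, -, -, F8⟩ := q_FO2 N M
  obtain ⟨-, -, -, -, -, hinv, -, -, -⟩ := hPLA N
  have h6 : ∀ (k : ℕ) (F : PFam N M), DFm k F → ∀ t ∈ Icc (0 : ℝ) 1, ∀ c ∈ atlas (EE N) M,
      ∀ x ∈ c.target, Hg k (F t c x) := by
    intro k F hF t ht c hc x hx
    exact ⟨(hF.f0.form t ht).deg c hc x hx, fun l hl => ((hF.f1 l hl).form t ht).deg c hc x hx,
      fun hk => hF.fz hk t ht c hc x hx⟩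
  have h8 : ∀ k : ℕ, DFm k (0 : PFam N M) := by
    intro k
    exact ⟨DFA_z N M k, fun l _ => DFA_z N M l, fun _ t _ c _ x _ => rfl⟩
  refine ⟨?_, ?_, ?_, ?_, ?_, h6, ?_, h8⟩
  · intro k F G hF hG
    refine ⟨⟨(F2 k _ _ hF.f0 hG.f0).1, fun l hl => (F2 l _ _ (hF.f1 l hl) (hG.f1 l hl)).1, ?_⟩,
      ⟨(F2 k _ _ hF.f0 hG.f0).2, fun l hl => (F2 l _ _ (hF.f1 l hl) (hG.f1 l hl)).2, ?_⟩⟩
    · intro hk t ht c hc x hx
      show (F t c x).2 + (G t c x).2 = 0
      rw [hF.fz hk t ht c hc x hx, hG.fz hk t ht c hc x hx, add_zero]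
    · intro hk t ht c hc x hx
      show (F t c x).2 - (G t c x).2 = 0
      rw [hF.fz hk t ht c hc x hx, hG.fz hk t ht c hc x hx, sub_zero]
  · intro k F r hF
    refine ⟨F3 k _ r hF.f0, fun l hl => F3 l _ r (hF.f1 l hl), ?_⟩
    intro hk t ht c hc x hx
    show r • (F t c x).2 = 0
    rw [hF.fz hk t ht c hc x hx, smul_zero]
  · intro k l F G hF hG
    refine ⟨F1 k l _ _ hF.f0 hG.f0, ?_, ?_⟩
    · intro m hm
      have hA : TForm m (fun t c x => (F t c x).2 * (G t c x).1) := by
        rcases Nat.eq_zero_or_pos k with hk | hk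
        · refine F8 m (fun _ => (0 : Fam N M)) _ ?_ (DFA_z N M m)
          intro t ht c hc x hx
          show (0 : Lam N) = (F t c x).2 * (G t c x).1
          rw [hF.fz hk t ht c hc x hx, zero_mul]
        · obtain ⟨k', rfl⟩ : ∃ k', k = k' + 1 := ⟨k - 1, by omega⟩
          have h1 := F1 k' l _ _ (hF.f1 k' rfl) hG.f0
          have h2 : k' + l = m := by omega
          rw [h2] at h1
          exact h1
      have hB : TForm m (fun t c x => inv (F t c x).1 * (G t c x).2) := by
        rcases Nat.eq_zero_or_pos l with hl | hl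
        · refine F8 m (fun _ => (0 : Fam N M)) _ ?_ (DFA_z N M m)
          intro t ht c hc x hx
          show (0 : Lam N) = inv (F t c x).1 * (G t c x).2
          rw [hG.fz hl t ht c hc x hx, mul_zero]
        · obtain ⟨l', rfl⟩ : ∃ l', l = l' + 1 := ⟨l - 1, by omega⟩
          have h1 := F1 k l' _ _ hF.f0 (hG.f1 l' rfl)
          have h2 : k + l' = m := by omega
          rw [h2] at h1
          refine F8 m _ _ ?_ (F3 m _ ((-1 : ℝ) ^ k) h1)
          intro t ht c hc x hx
          show (-1 : ℝ) ^ k • ((F t c x).1 * (G t c x).2) = inv (F t c x).1 * (G t c x).2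
          rw [(hinv k (F t c x) (h6 k F hF t ht c hc x hx)).1, smul_mul_assoc]
      exact (F2 m _ _ hA hB).1
    · intro hkl t ht c hc x hx
      show (F t c x).2 * (G t c x).1 + inv (F t c x).1 * (G t c x).2 = 0
      rw [hF.fz (by omega) t ht c hc x hx, hG.fz (by omega) t ht c hc x hx, zero_mul, mul_zero,
        add_zero]
  · refine ⟨DFA_one N M, fun l hl => absurd hl (by omega), fun _ t _ c _ x _ => rfl⟩
  · intro k F G h hF
    refine ⟨F8 k _ _ ?_ hF.f0, fun l hl => F8 l _ _ ?_ (hF.f1 l hl), ?_⟩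
    · intro t ht c hc x hx
      show (F t c x).1 = (G t c x).1
      rw [h t ht c hc x hx]
    · intro t ht c hc x hx
      show (F t c x).2 = (G t c x).2
      rw [h t ht c hc x hx]
    · intro hk t ht c hc x hx
      rw [← h t ht c hc x hx]
      exact hF.fz hk t ht c hc x hx
  · intro k F hF t ht c hc x hx
    refine ⟨((hF.f0.form t ht).smooth c hc).contDiffAt (c.open_target.mem_nhds hx), ?_⟩
    rcases Nat.eq_zero_or_pos k with hk | hk
    · refine ContDiffAt.congr_of_eventuallyEq (f := fun _ => (0 : Lam N)) contDiffAt_const ?_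
      filter_upwards [c.open_target.mem_nhds hx] with y hy
      exact hF.fz hk t ht c hc y hy
    · exact (((hF.f1 (k - 1) (by omega)).form t ht).smooth c hc).contDiffAt
        (c.open_target.mem_nhds hx)

end HDE
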