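import Pool.Agent.Work.MP_c3bd4f_he.Interface

set_option autoImplicit false

/-! Block ENA (helper86). -/

open scoped ContDiff Manifold Topology
open Set MeasureTheory

noncomputable section

namespace HDE

open HDC

theorem ENA_alg {R : Type} [Ring R] [Algebra ℝ R] (n r j : ℕ) (hrj : r + 2 * j ≤ n + 1) (x y : R)
    (h : x * y = y * x) :
    UU n r j x y = y ^ j * HP (n + 1 - 2 * j) (r + 1) (bc (n + 1)) x y := by
  unfold UU HP
  rw [Finset.mul_sum]
  refine Finset.sum_congr rfl fun i hi => ?_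
  have hi' : i < r + 1 := Finset.mem_range.1 hi
  have e : n + 1 - j - i = j + (n + 1 - 2 * j - i) := by omega
  have hc : Commute (x ^ i) (y ^ j) := Commute.pow_pow h i j
  rw [e, pow_add, mul_smul_comm, ← mul_assoc, hc.eq, mul_assoc]

theorem p_ENA (hPLA : Stmt_PLA) (hDFA : Stmt_DFA) (hDDA : Stmt_DDA) (hLBP : Stmt_LBP)
    (hHPC : Stmt_HPC) (hSTD : Stmt_STD) (_hNLA : Stmt_NLA) : Stmt_ENA := by
  intro n M _ _ _ _ _ _ _ Ω vol K hn hSg r j hj hrj X Y ka m hX hY dX dY hka hm dka dm hV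
  obtain ⟨-, A2, A3, -, A5, A6, -, -⟩ := hDFA (2 * n) M
  obtain ⟨-, D2, D3, -, -⟩ := hDDA (2 * n) M
  obtain ⟨H1, H2⟩ := hHPC (2 * n) M X Y hX hY dX dY
  obtain ⟨fT, dT⟩ := H2 (n + 1 - 2 * j) (r + 1) (bc (n + 1)) fun i hi _ => by omega
  set T : PFam (2 * n) M := HP (n + 1 - 2 * j) (r + 1) (bc (n + 1)) X Y with hT
  obtain ⟨fY, -⟩ := (hHPC (2 * n) M Y Y hY hY dY dY).1 j
  -- the form `E`
  have fmT := A3 _ _ m T hm fT
  have fE := A3 _ _ ka (m * T) hka fmT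
  have e1 : 2 * j - 1 + (2 * j - 1 + 2 * (n + 1 - 2 * j)) = 2 * n := by omega
  rw [e1] at fE
  have fE' := A2 _ _ (-1) fE
  have dmT := hLBP (2 * n) M _ _ m T (Y ^ j) 0 hm fT dm dT
  have dE := hLBP (2 * n) M _ _ ka (m * T) 0 _ hka fmT dka dmT
  have dE' := D2 (2 * n) _ _ (-1) fE dE
  have hodd : (-1 : ℝ) ^ (2 * j - 1) = -1 := by
    have : Odd (2 * j - 1) := ⟨j - 1, by omega⟩
    exact this.neg_one_pow
  have hUU : EqP (ka * (Y ^ j * T)) (ka * UU n r j X Y) := by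
    intro t ht c hc x hx
    have hx2 := A6 2 X hX t ht c hc x hx
    have hcom := (hPLA (2 * n)).1 (X t c x) (Y t c x) hx2
    have e := ENA_alg n r j hrj (X t c x) (Y t c x) hcom
    have e2 : (UU n r j X Y) t c x = UU n r j (X t c x) (Y t c x) := by
      unfold UU
      exact HP_apply _ _ _ _ _ _ _ _
    have e3 : T t c x = HP (n + 1 - 2 * j) (r + 1) (bc (n + 1)) (X t c x) (Y t c x) := by
      rw [hT]
      exact HP_apply _ _ _ _ _ _ _ _
    show ka t c x * ((Y ^ j * T) t c x) = ka t c x * ((UU n r j X Y) t c x)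
    rw [e2, e, ← e3]
    rfl
  have hG : EqP ((-1 : ℝ) • (0 * (m * T) + (-1 : ℝ) ^ (2 * j - 1) •
      (ka * (Y ^ j * T + (-1 : ℝ) ^ (2 * j - 1) • (m * 0))))) (ka * UU n r j X Y) := by
    intro t ht c hc x hx
    rw [hodd, ← hUU t ht c hc x hx]
    simp
  have dG := D3 _ _ _ _ (fun t _ c _ x _ => rfl) hG dE'
  have fG : DFm (2 * n + 1) (ka * UU n r j X Y) := by
    have h := A3 _ _ ka (Y ^ j * T) hka (A3 _ _ (Y ^ j) T fY fT)
    have e2 : 2 * j - 1 + (2 * j + 2 * (n + 1 - 2 * j)) = 2 * n + 1 := by omega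
    rw [e2] at h
    exact A5 _ _ _ hUU h
  have hVn : Vn K ((-1 : ℝ) • (ka * (m * T))) := by
    constructor
    · intro t ht c hc x hx hK
      show (-1 : ℝ) • (ka t c x * ((m * T) t c x)) = 0
      rw [hV.cs t ht c hc x hx hK, zero_mul, smul_zero]
    · intro c hc x hx
      show ((-1 : ℝ) • (ka 0 c x * ((m * T) 0 c x))).1 = 0
      rw [PL.smul_fst, PL.mul_fst, hV.v0 c hc x hx, zero_mul, smul_zero]
    · intro c hc x hx
      show ((-1 : ℝ) • (ka 1 c x * ((m * T) 1 c x))).1 = 0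
      rw [PL.smul_fst, PL.mul_fst, hV.v1 c hc x hx, zero_mul, smul_zero]
  exact hSTD n M Ω vol K hn hSg _ _ fE' fG hVn dG

end HDE
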