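import Pool.Agent.Work.MP_c3bd4f_he.Interface

set_option autoImplicit false

/-!
# Block ESL: the elementary step
-/

open scoped ContDiff Manifold Topology
open Set MeasureTheory

noncomputable section

namespace HDE

open HDC

/-- Values of `UU` in `PFam`. -/
theorem ESL_UU_apply {N : ℕ} {M : Type} [TopologicalSpace M] (n r j : ℕ) (X Y : PFam N M)
    (t : ℝ) (c : OpenPartialHomeomorph M (EE N)) (x : EE N) :
    (UU n r j X Y) t c x = UU n r j (X t c x) (Y t c x) := HP_apply _ _ _ X Y t c x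

/-- The algebra at a point. -/
theorem ESL_pt (hPLA : Stmt_PLA) (hALS : Stmt_ALS) {N : ℕ} (n r j : ℕ) (A B C c wf et nu : PL N)
    (hr : 1 ≤ r) (hj : 1 ≤ j) (hrj : r + j ≤ n + 1) (hA : Hg 1 A) (hB : Hg 1 B) (hC : Hg 1 C)
    (hc : Hg 0 c) (hwf : Hg 2 wf) (het : Hg 2 et) (hw : wf ^ r = 0) :
    (et - A * B) ^ j - (j : ℝ) • (C * B * et ^ (j - 1)) = (et - (A + C) * B) ^ j ∧
    (nu - (j : ℝ) • (c * B * et ^ (j - 1))) * UU n r j (wf + (A + C) * B) (et - (A + C) * B) -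
      nu * UU n r j (wf + A * B) (et - A * B) =
    nu * (C * B * ((j : ℝ) • HP (n - j) r (bc (n + 1)) wf et)) -
      (et - A * B) ^ j * (c * B * ((j : ℝ) • HP (n - j) r (bc (n + 1)) wf et)) := by
  obtain ⟨h1, h2, h3, h4, h5, -⟩ := hPLA N
  refine hALS (PL N) n r j A B C c wf et nu hr hj hrj (fun y => h2 c y hc) (fun y => h1 wf y hwf)
    (fun y => h1 et y het) (fun y => ?_) (fun y => ?_) (h3 B hB) (h4 A B hA hB) (h4 C B hC hB) hw
  · exact h1 (A * B) y (h5 1 1 A B hA hB)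
  · exact h1 (C * B) y (h5 1 1 C B hC hB)

theorem ESL_vmul {N : ℕ} {M : Type} [TopologicalSpace M] [ChartedSpace (EE N) M] (K : Set M)
    (F G : PFam N M) (h : Vn K F) : Vn K (F * G) := by
  refine ⟨fun t ht c hc x hx hxK => ?_, fun c hc x hx => ?_, fun c hc x hx => ?_⟩
  · show F t c x * G t c x = 0
    rw [h.cs t ht c hc x hx hxK, zero_mul]
  · show (F 0 c x * G 0 c x).1 = 0
    rw [PL.mul_fst, h.v0 c hc x hx, zero_mul]
  · show (F 1 c x * G 1 c x).1 = 0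
    rw [PL.mul_fst, h.v1 c hc x hx, zero_mul]

theorem ESL_vmul' {N : ℕ} {M : Type} [TopologicalSpace M] [ChartedSpace (EE N) M] (K : Set M)
    (F G : PFam N M) (h : Vn K F) : Vn K (G * F) := by
  refine ⟨fun t ht c hc x hx hxK => ?_, fun c hc x hx => ?_, fun c hc x hx => ?_⟩
  · show G t c x * F t c x = 0
    rw [h.cs t ht c hc x hx hxK, mul_zero]
  · show (G 0 c x * F 0 c x).1 = 0
    rw [PL.mul_fst, h.v0 c hc x hx, mul_zero]
  · show (G 1 c x * F 1 c x).1 = 0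
    rw [PL.mul_fst, h.v1 c hc x hx, mul_zero]

theorem ESL_vsmul {N : ℕ} {M : Type} [TopologicalSpace M] [ChartedSpace (EE N) M] (K : Set M)
    (F : PFam N M) (r : ℝ) (h : Vn K F) : Vn K (r • F) := by
  refine ⟨fun t ht c hc x hx hxK => ?_, fun c hc x hx => ?_, fun c hc x hx => ?_⟩
  · show r • F t c x = 0
    rw [h.cs t ht c hc x hx hxK, smul_zero]
  · show (r • F 0 c x).1 = 0
    rw [PL.smul_fst, h.v0 c hc x hx, smul_zero]
  · show (r • F 1 c x).1 = 0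
    rw [PL.smul_fst, h.v1 c hc x hx, smul_zero]

theorem ESL_main (hPLA : Stmt_PLA) (hALS : Stmt_ALS) (hDFA : Stmt_DFA) (hDDA : Stmt_DDA)
    (hLBP : Stmt_LBP) (hHPC : Stmt_HPC) (hSTD : Stmt_STD) (hNLA : Stmt_NLA)
    (n : ℕ) (M : Type) [TopologicalSpace M] [T2Space M]
    [SecondCountableTopology M] [ChartedSpace (EE (2 * n)) M] [IsManifold 𝓘(ℝ, EE (2 * n)) ∞ M]
    [MeasurableSpace M] [BorelSpace M] (Ω : Fam (2 * n) M) (vol : Measure M) (K : Set M)
    (hn : 1 ≤ n) (hS : Sg n Ω vol K) (r j : ℕ) (hr : 1 ≤ r) (hj : 1 ≤ j) (hrj : r + j ≤ n + 1)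
    (A B C c wf et nu : PFam (2 * n) M) (hA : DFm 1 A) (hB : DFm 1 B) (hC : DFm 1 C)
    (hc : DFm 0 c) (hwf : DFm 2 wf) (het : DFm 2 et) (hnu : DFm (2 * j - 1) nu) (dA : DD A 0)
    (dB : DD B 0) (dC : DD C 0) (dc : DD c C) (dwf : DD wf 0) (det : DD et 0)
    (dnu : DD nu ((et - A * B) ^ j)) (vc : Vn K c) (hw : EqP (wf ^ r) 0) :
    ∃ nu' : PFam (2 * n) M, DFm (2 * j - 1) nu' ∧ DD nu' ((et - (A + C) * B) ^ j) ∧
      Vn K (nu' - nu) ∧
      Nl n Ω vol K (nu' * UU n r j (wf + (A + C) * B) (et - (A + C) * B) -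
        nu * UU n r j (wf + A * B) (et - A * B)) := by
  obtain ⟨a1, a2, a3, a4, a5, a6, a7, a8⟩ := hDFA (2 * n) M
  obtain ⟨b1, b2, b3, b4, b5⟩ := hDDA (2 * n) M
  obtain ⟨-, -, -, -, l5, -⟩ := hNLA n M Ω vol K hS
  -- closedness of auxiliary forms
  have hcB : DFm (0 + 1) (c * B) := a3 0 1 c B hc hB
  have dcB : DD (c * B) (C * B) := by
    have h := hLBP (2 * n) M 0 1 c B C 0 hc hB dc dB
    rw [mul_zero, smul_zero, add_zero] at h
    exact h
  have hCB : DFm (1 + 1) (C * B) := a3 1 1 C B hC hB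
  -- a product with a closed form
  have prod : ∀ (l : ℕ) (G : PFam (2 * n) M), DFm l G → DD G 0 →
      DFm (0 + 1 + l) (c * B * G) ∧ DD (c * B * G) (C * B * G) ∧ DFm (1 + 1 + l) (C * B * G) := by
    intro l G hG dG
    refine ⟨a3 _ _ _ _ hcB hG, ?_, a3 _ _ _ _ hCB hG⟩
    have h := hLBP (2 * n) M (0 + 1) l (c * B) G (C * B) 0 hcB hG dcB dG
    rw [mul_zero, smul_zero, add_zero] at h
    exact h
  obtain ⟨p1, p2⟩ := hHPC (2 * n) M wf et hwf het dwf det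
  obtain ⟨q1, -⟩ := hHPC (2 * n) M et wf het hwf det dwf
  obtain ⟨e1, e2⟩ := q1 (j - 1)
  obtain ⟨f1, f2, -⟩ := prod _ _ e1 e2
  have hdeg1 : 0 + 1 + 2 * (j - 1) = 2 * j - 1 := by omega
  rw [hdeg1] at f1
  obtain ⟨x1, x2⟩ := p2 (n - j) r (bc (n + 1)) (fun i hi _ => by omega)
  set Xi : PFam (2 * n) M := (j : ℝ) • HP (n - j) r (bc (n + 1)) wf et with hXi
  have hXi1 : DFm (2 * (n - j)) Xi := a2 _ _ _ x1
  have hXi2 : DD Xi 0 := by
    have h := b2 _ _ _ (j : ℝ) x1 x2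
    rw [smul_zero] at h
    exact h
  obtain ⟨g1, g2, g3⟩ := prod _ _ hXi1 hXi2
  -- the power of `et - A B`
  have hAB : DFm 2 (A * B) := a3 1 1 A B hA hB
  have dAB : DD (A * B) 0 := by
    have h := hLBP (2 * n) M 1 1 A B 0 0 hA hB dA dB
    rw [mul_zero, smul_zero, add_zero, zero_mul] at h
    exact h
  have hX : DFm 2 (et - A * B) := (a1 2 et (A * B) het hAB).2
  have dX : DD (et - A * B) 0 := by
    have h := (b1 2 et (A * B) 0 0 het hAB det dAB).2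
    rw [sub_zero] at h
    exact h
  obtain ⟨r1, -⟩ := hHPC (2 * n) M (et - A * B) wf hX hwf dX dwf
  obtain ⟨s1, -⟩ := r1 j
  -- values
  have pt : ∀ t ∈ Icc (0 : ℝ) 1, ∀ ch ∈ atlas (EE (2 * n)) M, ∀ x ∈ ch.target, _ :=
    fun t ht ch hch x hx => ESL_pt hPLA hALS n r j (A t ch x) (B t ch x) (C t ch x) (c t ch x)
      (wf t ch x) (et t ch x) (nu t ch x) hr hj hrj (a6 1 A hA t ht ch hch x hx)
      (a6 1 B hB t ht ch hch x hx) (a6 1 C hC t ht ch hch x hx) (a6 0 c hc t ht ch hch x hx)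
      (a6 2 wf hwf t ht ch hch x hx) (a6 2 et het t ht ch hch x hx) (hw t ht ch hch x hx)
  have hsg : ((-1 : ℝ)) ^ (2 * j - 1) = -1 := by
    apply Odd.neg_one_pow
    exact ⟨j - 1, by omega⟩
  refine ⟨nu - (j : ℝ) • (c * B * et ^ (j - 1)), (a1 _ _ _ hnu (a2 _ _ _ f1)).2, ?_, ?_, ?_⟩
  · have h := (b1 _ _ _ _ _ hnu (a2 _ _ (j : ℝ) f1) dnu (b2 _ _ _ (j : ℝ) f1 f2)).2
    refine b3 _ _ _ _ (fun t ht ch hch x hx => rfl) (fun t ht ch hch x hx => ?_) h
    exact (pt t ht ch hch x hx).1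
  · have h : nu - (j : ℝ) • (c * B * et ^ (j - 1)) - nu =
        (-(j : ℝ)) • (c * (B * et ^ (j - 1))) := by
      rw [neg_smul, mul_assoc]
      abel
    rw [h]
    exact ESL_vsmul K _ _ (ESL_vmul K _ _ vc)
  · have hdeg2 : (2 * j - 1) + (0 + 1 + 2 * (n - j)) = 2 * n := by omega
    have hE : DFm (2 * n) (nu * (c * B * Xi)) := by
      have h := a3 _ _ _ _ hnu g1
      rw [hdeg2] at h
      exact h
    have dE := hLBP (2 * n) M _ _ nu (c * B * Xi) ((et - A * B) ^ j) (C * B * Xi) hnu g1 dnu g2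
    rw [hsg] at dE
    have vE : Vn K (nu * (c * B * Xi)) := by
      rw [mul_assoc c]
      exact ESL_vmul' K _ _ (ESL_vmul K _ _ vc)
    have hG1 : DFm (2 * n + 1) ((et - A * B) ^ j * (c * B * Xi)) := by
      have h := a3 _ _ _ _ s1 g1
      have hd : 2 * j + (0 + 1 + 2 * (n - j)) = 2 * n + 1 := by omega
      rw [hd] at h
      exact h
    have hG2 : DFm (2 * n + 1) (nu * (C * B * Xi)) := by
      have h := a3 _ _ _ _ hnu g3
      have hd : (2 * j - 1) + (1 + 1 + 2 * (n - j)) = 2 * n + 1 := by omega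
      rw [hd] at h
      exact h
    have hG : DFm (2 * n + 1) ((-1 : ℝ) • ((et - A * B) ^ j * (c * B * Xi) +
        (-1 : ℝ) • (nu * (C * B * Xi)))) := a2 _ _ _ (a1 _ _ _ hG1 (a2 _ _ _ hG2)).1
    have hN := hSTD n M Ω vol K hn hS ((-1 : ℝ) • (nu * (c * B * Xi))) _ (a2 _ _ _ hE) hG
      (ESL_vsmul K _ _ vE) (b2 _ _ _ (-1 : ℝ) hE dE)
    refine l5 _ _ (fun t ht ch hch x hx => ?_) hN
    have h := (pt t ht ch hch x hx).2
    have hXiv : Xi t ch x = (j : ℝ) • HP (n - j) r (bc (n + 1)) (wf t ch x) (et t ch x) := by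
      rw [hXi, ← HP_apply]
      rfl
    rw [← hXiv] at h
    have hU1 := ESL_UU_apply n r j (wf + (A + C) * B) (et - (A + C) * B) t ch x
    have hU2 := ESL_UU_apply n r j (wf + A * B) (et - A * B) t ch x
    have hR : ((nu - (j : ℝ) • (c * B * et ^ (j - 1))) *
        UU n r j (wf + (A + C) * B) (et - (A + C) * B) -
        nu * UU n r j (wf + A * B) (et - A * B)) t ch x =
        (nu t ch x - (j : ℝ) • (c t ch x * B t ch x * et t ch x ^ (j - 1))) *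
        (UU n r j (wf + (A + C) * B) (et - (A + C) * B)) t ch x -
        nu t ch x * (UU n r j (wf + A * B) (et - A * B)) t ch x := rfl
    rw [hR, hU1, hU2]
    have hL : ((-1 : ℝ) • ((et - A * B) ^ j * (c * B * Xi) +
        (-1 : ℝ) • (nu * (C * B * Xi)))) t ch x =
        (-1 : ℝ) • ((et t ch x - A t ch x * B t ch x) ^ j * (c t ch x * B t ch x * Xi t ch x) +
        (-1 : ℝ) • (nu t ch x * (C t ch x * B t ch x * Xi t ch x))) := rfl
    rw [hL]
    refine Eq.trans ?_ h.symm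
    rw [neg_one_smul, neg_one_smul, neg_add, neg_neg]
    abel

theorem p_ESL (hPLA : Stmt_PLA) (hALS : Stmt_ALS) (hDFA : Stmt_DFA) (hDDA : Stmt_DDA)
    (hLBP : Stmt_LBP) (hHPC : Stmt_HPC) (hSTD : Stmt_STD) (hNLA : Stmt_NLA) : Stmt_ESL := by
  intro n M _ _ _ _ _ _ _ Ω vol K hn hS r j hr hj hrj A B C c wf wt nu hA hB hC hc hwf hwt hnu
    dA dB dC dc dwf dwt dnu vc hw
  have het : DFm 2 (wt - wf) := ((hDFA (2 * n) M).1 2 wt wf hwt hwf).2
  have det : DD (wt - wf) 0 := by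
    have h := ((hDDA (2 * n) M).1 2 wt wf 0 0 hwt hwf dwt dwf).2
    rw [sub_zero] at h
    exact h
  exact ESL_main hPLA hALS hDFA hDDA hLBP hHPC hSTD hNLA n M Ω vol K hn hS r j hr hj hrj A B C c
    wf (wt - wf) nu hA hB hC hc hwf het hnu dA dB dC dc dwf det dnu vc hw

end HDE
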