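import Pool.Agent.Work.MP_c3bd4f_he.Interface

set_option autoImplicit false

/-! Block EVL (helper94). -/

open scoped ContDiff Manifold Topology
open Set MeasureTheory

noncomputable section

namespace HDE

open HDC

theorem EVL_mul {N k l m : ℕ} {x y : Lam N} (hx : x ∈ ⋀[ℝ]^k (VV N)) (hy : y ∈ ⋀[ℝ]^l (VV N))
    (h : k + l = m) : x * y ∈ ⋀[ℝ]^m (VV N) := by
  subst h
  exact SetLike.mul_mem_graded (A := fun i : ℕ => ⋀[ℝ]^i (VV N)) hx hy

theorem EVL_pow {N : ℕ} {x : Lam N} (hx : x ∈ ⋀[ℝ]^2 (VV N)) (i : ℕ) :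
    x ^ i ∈ ⋀[ℝ]^(2 * i) (VV N) := by
  induction i with
  | zero =>
    rw [pow_zero]
    exact SetLike.one_mem_graded (A := fun i : ℕ => ⋀[ℝ]^i (VV N))
  | succ i ih =>
    rw [pow_succ]
    exact EVL_mul ih hx (by ring)

theorem EVL_UU {N : ℕ} {x y : Lam N} (hx : x ∈ ⋀[ℝ]^2 (VV N)) (hy : y ∈ ⋀[ℝ]^2 (VV N))
    (n r j : ℕ) (h : r + j ≤ n + 1) : UU n r j x y ∈ ⋀[ℝ]^(2 * (n + 1 - j)) (VV N) := by
  unfold UU HP
  refine Submodule.sum_mem _ fun i hi => Submodule.smul_mem _ _ ?_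
  have hi' := Finset.mem_range.mp hi
  exact EVL_mul (EVL_pow hx i) (EVL_pow hy _) (by omega)

theorem EVL_map {R S : Type} [Ring R] [Algebra ℝ R] [Ring S] [Algebra ℝ S] (h : R →ₐ[ℝ] S)
    (n r j : ℕ) (x y : R) : h (UU n r j x y) = UU n r j (h x) (h y) := by
  unfold UU HP
  rw [map_sum]
  refine Finset.sum_congr rfl fun i _ => ?_
  rw [map_smul, map_mul, map_pow, map_pow]

theorem p_EVL (hG : Stmt_GSM) : Stmt_EVL := by
  intro n M _ _ _ Ω μ H Φ r j α β hj hr hΩ hμ hαβ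
  obtain ⟨⟨h, hh⟩, hE⟩ := hG (2 * n) M Ω H Φ
  set X : Fam (2 * n) M := ∑ i, α i * β i with hX
  set f : Fam (2 * n) M := μ * UU n r j X (Ω - X) with hf
  have e1 : GS Ω H Φ μ * UU n r j (∑ i, GS Ω H Φ (α i) * GS Ω H Φ (β i))
      (GS Ω H Φ Ω - ∑ i, GS Ω H Φ (α i) * GS Ω H Φ (β i)) = GS Ω H Φ f := by
    have e2 : ∑ i, GS Ω H Φ (α i) * GS Ω H Φ (β i) = h X := by
      rw [hX, map_sum]
      refine Finset.sum_congr rfl fun i _ => ?_
      rw [map_mul, hh, hh]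
    rw [e2, ← hh, ← hh, ← hh, ← map_sub, ← EVL_map, ← map_mul]
  have e3 : EqF f 0 := by
    intro c hc x hx
    have hXc : X c x ∈ ⋀[ℝ]^2 (VV (2 * n)) := by
      rw [hX]
      have : (∑ i, α i * β i) c x = ∑ i, α i c x * β i c x := by
        simp only [Finset.sum_apply, Pi.mul_apply]
      rw [this]
      refine Submodule.sum_mem _ fun i _ => ?_
      exact EVL_mul ((hαβ i).1.deg c hc x hx) ((hαβ i).2.deg c hc x hx) rfl
    have hYc : Ω c x - X c x ∈ ⋀[ℝ]^2 (VV (2 * n)) :=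
      Submodule.sub_mem _ (hΩ.deg c hc x hx) hXc
    have e4 : f c x = μ c x * UU n r j (X c x) (Ω c x - X c x) := by
      show μ c x * (UU n r j X (Ω - X)) c x = _
      congr 1
      unfold UU HP
      simp only [Finset.sum_apply, Pi.smul_apply, Pi.mul_apply, Pi.pow_apply, Pi.sub_apply]
    rw [e4]
    have h5 := EVL_mul (m := 2 * n + 1) (hμ.deg c hc x hx) (EVL_UU hXc hYc n r j hr) (by omega)
    exact (HDC.q_DEG (2 * n)).2.2.2.2.1 (2 * n + 1) _ (by omega) h5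
  have e5 := hE f 0 e3
  have e6 : GS Ω H Φ (0 : Fam (2 * n) M) = 0 := by
    rw [← hh, map_zero]
  rw [e1]
  rw [e6] at e5
  exact e5

end HDE
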