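import Pool.Agent.Work.MP_c3bd4f_he.Interface

/-! # Block FNE: the theorem (helper3) -/

set_option autoImplicit false

open scoped ContDiff Manifold Topology
open Set MeasureTheory

noncomputable section

namespace HDE

open HDC

theorem p_FNE (hMAI : Stmt_MAI) (hNCA : Stmt_NCA) : Stmt_FNE := by
  intro n r j M _ _ _ _ _ _ _ _ Ω μ α β vol hn hj hrj hΩ hvol hfin hαβ hμ hdμ
  have hfm : IsFiniteMeasure vol := ⟨hfin⟩
  have hNoC : NoC M := by
    rcases hrj with h | ⟨-, -, h⟩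
    · exact hNCA n M Ω μ vol hΩ hvol hfin r j α β hj h hαβ hμ hdμ
    · exact h
  have hrj' : r + 2 * j ≤ n + 1 ∨ (j = 1 ∧ r ≤ n) := hrj.imp id fun h => ⟨h.1, h.2.1⟩
  have h1 : ∀ (H H' : ℝ → M → ℝ) (φ : M → M), IsHam (2 * n) H → IsHam (2 * n) H' →
      Generates Ω H φ → Generates Ω H' φ → Cal vol H = Cal vol H' := by
    intro H H' φ hH hH' hG hG'
    obtain ⟨Φ, hΦ, hΦ1⟩ := hG
    obtain ⟨Φ', hΦ', hΦ1'⟩ := hG'
    obtain ⟨K, hK, hK0⟩ := hH.supp
    obtain ⟨K', hK', hK0'⟩ := hH'.supp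
    have hKK : IsCompact (K ∪ K') := hK.union hK'
    refine hMAI n M Ω μ vol (K ∪ K') hn ⟨hΩ, hvol, hfm, hKK⟩ hNoC r j α β hj hrj' hαβ hμ hdμ
      H H' Φ Φ' ⟨⟨hΩ, hH, hΦ⟩, ⟨hΩ, hH', hΦ'⟩, hKK, ?_, ?_, hΦ1.trans hΦ1'.symm⟩
    · exact fun t ht p hp => hK0 t ht p fun h => hp (Or.inl h)
    · exact fun t ht p hp => hK0' t ht p fun h => hp (Or.inr h)
  have hbd : ∀ H : ℝ → M → ℝ, IsHam (2 * n) H →
      |Cal vol H| ≤ (vol univ).toReal * len H := by
    intro H hH
    obtain ⟨K, hK, hK0⟩ := hH.supp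
    obtain ⟨p, hp⟩ : ∃ p, p ∉ K := by
      by_contra hcon
      push Not at hcon
      have hKu : K = univ := eq_univ_of_forall hcon
      rw [hKu] at hK
      exact hNoC (Classical.arbitrary M)
        (hK.of_isClosed_subset isClosed_connectedComponent (subset_univ _))
    exact q_HOF _ M vol H hH ⟨p, fun t ht => hK0 t ht p hp⟩
  have h2 : ∀ (H : ℝ → M → ℝ) (φ : M → M), IsHam (2 * n) H → Generates Ω H φ →
      |Cal vol H| ≤ (vol univ).toReal * hofer Ω φ := by
    intro H φ hH hG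
    rcases (ENNReal.toReal_nonneg (a := vol univ)).lt_or_eq with hV | hV
    · have h3 : |Cal vol H| / (vol univ).toReal ≤ hofer Ω φ := by
        unfold HDC.hofer
        refine le_csInf ⟨len H, H, hH, hG, rfl⟩ ?_
        rintro l ⟨H', hH', hG', rfl⟩
        rw [div_le_iff₀ hV, h1 H H' φ hH hH' hG hG', mul_comm]
        exact hbd H' hH'
      rw [div_le_iff₀ hV, mul_comm] at h3
      exact h3
    · have h3 := hbd H hH
      rw [← hV, zero_mul] at h3
      rw [← hV, zero_mul]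
      exact h3
  refine ⟨h1, h2, ?_⟩
  intro C
  obtain ⟨H0, hpos, hgen⟩ := q_EXH n M Ω vol hΩ hvol
  have hV : 0 < (vol univ).toReal := by
    rcases (ENNReal.toReal_nonneg (a := vol univ)).lt_or_eq with h | h
    · exact h
    · exfalso
      have h3 : vol univ = 0 := by
        rcases (ENNReal.toReal_eq_zero_iff _).1 h.symm with h' | h'
        · exact h'
        · exact absurd h' (measure_ne_top vol univ)
      have h4 : vol = 0 := Measure.measure_univ_eq_zero.1 h3
      rw [h4] at hpos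
      simp at hpos
  obtain ⟨hH, φ, hφ⟩ := hgen (C * (vol univ).toReal / ∫ p, H0 p ∂vol)
  refine ⟨φ, ⟨_, hH, hφ⟩, ?_⟩
  have h3 := h2 _ φ hH hφ
  have h4 : Cal vol (fun (_ : ℝ) p => (C * (vol univ).toReal / ∫ p, H0 p ∂vol) * H0 p) =
      C * (vol univ).toReal := by
    unfold Cal
    rw [intervalIntegral.integral_const, integral_const_mul, sub_zero, one_smul]
    field_simp
  rw [h4] at h3
  have h5 : C * (vol univ).toReal ≤ (vol univ).toReal * hofer Ω φ := (le_abs_self _).trans h3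
  rw [mul_comm] at h5
  exact le_of_mul_le_mul_left h5 hV

end HDE
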