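import Pool.Agent.Work.MP_c3bd4f_he.Interface

set_option autoImplicit false

/-! # Block GDF (helper71) -/

open scoped ContDiff Manifold Topology
open Set MeasureTheory

noncomputable section

namespace HDE

open HDC

theorem p_GDF (hDFA : Stmt_DFA) (hDDA : Stmt_DDA) (hGGD : Stmt_GGD) : Stmt_GDF := by
  intro n M _ _ _ _ Ω H H' Φ Φ' K hT
  obtain ⟨g1, g2, g3⟩ := hGGD n M Ω H Φ hT.h
  obtain ⟨g1', g2', g3'⟩ := hGGD n M Ω H' Φ' hT.h'
  have hy : ∀ t ∈ Icc (0 : ℝ) 1, ∀ c ∈ atlas (EE (2 * n)) M, ∀ x ∈ c.target,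
      ((GS Ω H Φ Ω - GS Ω H' Φ' Ω) t c x).1 = 0 := by
    intro t ht c hc x hx
    show PBK (Φ t) Ω c x - PBK (Φ' t) Ω c x = 0
    rw [HDC.q_OMI n M Ω H Φ hT.h t ht c hc x hx, HDC.q_OMI n M Ω H' Φ' hT.h' t ht c hc x hx,
      sub_self]
  have hg : ∀ t c x, ((gg (2 * n) H' Φ' - gg (2 * n) H Φ) t c x).1 = 0 := by
    intro t c x
    show (0 : Lam (2 * n)) - 0 = 0
    rw [sub_self]
  refine ⟨((hDFA (2 * n) M).1 1 _ _ g1' g1).2, ⟨?_, ?_, ?_⟩, ?_, ?_, ?_⟩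
  · intro t ht c hc x hx hxK
    have h1 := g3 K hT.cpt hT.s t ht c hc x hx hxK
    have h2 := g3' K hT.cpt hT.s' t ht c hc x hx hxK
    show gg (2 * n) H' Φ' t c x - gg (2 * n) H Φ t c x = 0
    rw [h1, h2, sub_self]
  · intro c _ x _
    exact hg 0 c x
  · intro c _ x _
    exact hg 1 c x
  · have h1 := ((hDDA (2 * n) M).1 1 _ _ _ _ g1' g1 g2' g2).2
    have h2 : (cst Ω - GS Ω H' Φ' Ω) - (cst Ω - GS Ω H Φ Ω) = GS Ω H Φ Ω - GS Ω H' Φ' Ω := by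
      abel
    rw [h2] at h1
    exact h1
  · intro t ht c hc x hx
    have e1 := hy t ht c hc x hx
    have e2 := hg t c x
    show (gg (2 * n) H' Φ' - gg (2 * n) H Φ) t c x * (GS Ω H Φ Ω - GS Ω H' Φ' Ω) t c x = 0
    refine PL.ext ?_ ?_
    · rw [PL.mul_fst, e2, zero_mul]
      rfl
    · rw [PL.mul_snd, e1, e2, mul_zero, map_zero, zero_mul, add_zero]
      rfl
  · intro t ht c hc x hx
    have e1 := hy t ht c hc x hx
    show (GS Ω H Φ Ω - GS Ω H' Φ' Ω) t c x * (GS Ω H Φ Ω - GS Ω H' Φ' Ω) t c x = 0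
    refine PL.ext ?_ ?_
    · rw [PL.mul_fst, e1, zero_mul]
      rfl
    · rw [PL.mul_snd, e1, mul_zero, map_zero, zero_mul, add_zero]
      rfl

end HDE
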