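import Pool.Agent.Work.MP_c3bd4f_he.Interface

set_option autoImplicit false

/-! # Block GGD (helper71) -/

open scoped ContDiff Manifold Topology
open Set MeasureTheory

noncomputable section

namespace HDE

open HDC

theorem GGD_zero (N : ℕ) (M : Type) [TopologicalSpace M] [ChartedSpace (EE N) M] (k : ℕ) :
    TForm k (fun (_ : ℝ) => ((fun _ _ => 0 : Fam N M))) := by
  refine ⟨fun c _ => contDiffOn_const, fun t _ => ⟨fun c _ => contDiffOn_const, ?_, ?_⟩⟩
  · intro c _ c' _ x _ _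
    rw [map_zero]
  · intro c _ x _
    exact zero_mem _

theorem GGD_D0 (N : ℕ) (x : EE N) : D (fun _ : EE N => (0 : Lam N)) x = 0 := by
  simp [D]

theorem p_GGD : Stmt_GGD := by
  intro n M _ _ _ _ Ω H Φ hHS
  obtain ⟨hm1, _, hm3⟩ := HDC.q_HMS (2 * n) M H hHS.ham
  obtain ⟨_, hx2, _⟩ := HDC.q_XHS (2 * n) M Ω H hHS.symp.form hHS.symp.nondeg hHS.ham
  have hsmI : SmI (2 * n) Φ := hHS.iso.smooth
  refine ⟨⟨?_, ?_, ?_⟩, ⟨?_, ?_⟩, ?_⟩
  · exact GGD_zero (2 * n) M 1
  · intro l hl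
    have hl0 : l = 0 := by omega
    subst hl0
    exact HDC.q_PBT (2 * n) M Φ 0 (fun t => hF (2 * n) (H t)) hsmI hm3
  · intro h
    exact absurd h (by norm_num)
  · intro t ht c hc x hx
    have h1 := HDC.q_OMI n M Ω H Φ hHS t ht c hc x hx
    show Ω c x - PBK (Φ t) Ω c x = D (fun _ => (0 : Lam (2 * n))) x
    rw [h1, sub_self, GGD_D0]
  · intro t ht c hc x hx
    have ht' : t ∈ Icc (0 : ℝ) 1 := Ioo_subset_Icc_self ht
    have hform : IsForm 0 (hF (2 * n) (H t)) := hm3.form t ht'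
    have hpbo := (HDC.q_PBO (2 * n) M Φ 0 (hF (2 * n) (H t)) hsmI hHS.iso.zero hform).1 t ht'
    have heq : EqF (cF (XX Ω H t) Ω) (dF (hF (2 * n) (H t))) := by
      intro c hc x hx
      have h1 := hx2 t ht' c hc x hx
      have hdiff : DifferentiableAt ℝ (fun y => H t (c.symm y)) x := by
        have h2 := hm1 c hc
        have h3 : ContDiffOn ℝ ∞ (fun y : EE (2 * n) => H t (c.symm y)) c.target := by
          have h4 : ContDiffOn ℝ ∞ (fun y : EE (2 * n) => ((t, y) : ℝ × EE (2 * n))) c.target :=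
            (contDiff_const.prodMk contDiff_id).contDiffOn
          exact h2.comp h4 (fun y hy => ⟨ht', hy⟩)
        exact ((h3 x hx).contDiffAt (c.open_target.mem_nhds hx)).differentiableAt (by simp)
      have h5 := (HDC.q_DDZ (2 * n)).2 (fun y => H t (c.symm y)) x hdiff
      show ctr (XX Ω H t c x) (Ω c x) = D (fun y => algebraMap ℝ (Lam (2 * n)) (H t (c.symm y))) x
      rw [h1, h5]
    have hcng := (HDC.q_CNG.1 (2 * n) M _ _ heq).2.1 (Φ t) c hc x hx
    have h6 : (0 : Lam (2 * n)) - PBK (Φ t) (cF (XX Ω H t) Ω) c x +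
        D (fun y => PBK (Φ t) (hF (2 * n) (H t)) c y) x = 0 := by
      rw [hcng]
      have h7 : D (fun y => PBK (Φ t) (hF (2 * n) (H t)) c y) x =
          PBK (Φ t) (dF (hF (2 * n) (H t))) c x := hpbo c hc x hx
      rw [h7]
      abel
    show HasDerivAt (fun _ : ℝ => (0 : Lam (2 * n)))
      ((0 : Lam (2 * n)) - PBK (Φ t) (cF (XX Ω H t) Ω) c x +
        D (fun y => PBK (Φ t) (hF (2 * n) (H t)) c y) x) t
    rw [h6]
    exact hasDerivAt_const t _
  · intro K hK hsup t ht c hc x hx hxK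
    have hform : IsForm 0 (hF (2 * n) (H t)) := hm3.form t ht
    have h1 := (HDC.q_OFK n M Ω H Φ K hHS hK hsup).2.1 t ht 0 (hF (2 * n) (H t)) hform c hc x hx hxK
    refine PL.ext rfl ?_
    show PBK (Φ t) (hF (2 * n) (H t)) c x = 0
    rw [h1]
    show algebraMap ℝ (Lam (2 * n)) (H t (c.symm x)) = 0
    rw [hsup t ht _ hxK, map_zero]

end HDE
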