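import Pool.Agent.Work.MP_c3bd4f_he.Interface

set_option autoImplicit false

/-! # Block GSD: the pullback to `[0, 1] × M` commutes with `d` (helper56) -/

open scoped ContDiff Manifold Topology
open Set MeasureTheory

noncomputable section

namespace HDE

open HDC

theorem GSD_zero {N : ℕ} {M : Type} [TopologicalSpace M] [ChartedSpace (EE N) M]
    (X : OpenPartialHomeomorph M (EE N) → EE N → EE N) {f : Fam N M} (hf : IsForm 0 f) :
    EqF ((0 : ℝ) • f) (cF X f) := by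
  intro c hc x hx
  change (0 : ℝ) • f c x = ctr (X c x) (f c x)
  rw [(q_DEG N).2.2.1 _ _ (hf.deg c hc x hx), zero_smul]

theorem GSD_form {N : ℕ} {M : Type} [TopologicalSpace M] [ChartedSpace (EE N) M]
    [IsManifold 𝓘(ℝ, EE N) ∞ M] {X : ℝ → OpenPartialHomeomorph M (EE N) → EE N → EE N}
    (hX : TVF X) {k : ℕ} {f : Fam N M} (hf : IsForm k f) :
    ∃ l, TForm l (fun t => cF (X t) f) := by
  rcases k with _ | l
  · refine ⟨0, (q_FO2 N M).2.2.2.2.2.2.2 0 (fun _ => (0 : ℝ) • f) _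
      (fun t _ => GSD_zero (X t) hf) ?_⟩
    exact (q_FO2 N M).2.2.1 0 (fun _ => f) 0 ((q_FO2 N M).2.2.2.1 0 f hf)
  · exact ⟨l, q_FO3 N M l X (fun _ => f) hX ((q_FO2 N M).2.2.2.1 (l + 1) f hf)⟩

theorem p_GSD (_hGSM : Stmt_GSM) : Stmt_GSD := by
  intro n M _ _ _ Ω H Φ hS k f hf
  have hsm : SmI (2 * n) Φ := hS.iso.smooth
  obtain ⟨hTVF, -, hFl⟩ := q_XHS (2 * n) M Ω H hS.symp.form hS.symp.nondeg hS.ham
  have hFlw := hFl Φ hS.iso
  have hcst : TForm k (fun _ : ℝ => f) := (q_FO2 (2 * n) M).2.2.2.1 k f hf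
  refine ⟨⟨?_, ?_, ?_⟩, ⟨?_, ?_⟩⟩
  · exact q_PBT (2 * n) M Φ k (fun _ => f) hsm hcst
  · intro l hl
    subst hl
    exact q_PBT (2 * n) M Φ l (fun t => cF (XX Ω H t) f) hsm
      (q_FO3 (2 * n) M l (XX Ω H) (fun _ => f) hTVF hcst)
  · intro hk t ht c hc x hx
    subst hk
    change pb _ (cF (XX Ω H t) f (chartAt (EE (2 * n)) (Φ t (c.symm x)))
      (chartAt (EE (2 * n)) (Φ t (c.symm x)) (Φ t (c.symm x)))) = 0
    rw [← GSD_zero (XX Ω H t) hf _ (chart_mem_atlas _ _) _ (mem_chart_target (EE (2 * n)) _)]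
    change pb _ ((0 : ℝ) • f _ _) = 0
    rw [zero_smul, map_zero]
  · intro t ht c hc x hx
    exact ((q_PBO (2 * n) M Φ k f hsm hS.iso.zero hf).1 t ht c hc x hx).symm
  · intro t ht c hc x hx
    have h1 := q_TDF (2 * n) M (XX Ω H) Φ k f hTVF hFlw hf c hc x hx t ht
    obtain ⟨l, hl⟩ := GSD_form hTVF hf
    have ht' : t ∈ Icc (0 : ℝ) 1 := ⟨ht.1.le, ht.2.le⟩
    have h2 := (q_PBO (2 * n) M Φ l (cF (XX Ω H t) f) hsm hS.iso.zero (hl.form t ht')).1 t ht' c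
      hc x hx
    have h3 : PBK (Φ t) (Lie (XX Ω H t) f) c x =
        PBK (Φ t) (dF (cF (XX Ω H t) f)) c x + PBK (Φ t) (cF (XX Ω H t) (dF f)) c x :=
      map_add (pb (fderiv ℝ (fun y => chartAt (EE (2 * n)) (Φ t (c.symm x)) (Φ t (c.symm y))) x))
        _ _
    rw [h3, ← h2, add_comm] at h1
    exact h1

end HDE

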