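import Pool.Agent.Work.MP_c3bd4f_he.Interface

set_option autoImplicit false

open scoped ContDiff Manifold Topology
open Set MeasureTheory

noncomputable section

namespace HDE

open HDC

/-- The value of the pullback at a point. -/
def GSM_q {N : ℕ} (A : EE N →L[ℝ] EE N) (v : EE N) (y : Lam N) : PL N :=
  ((pb A y, pb A (ctr v y)) : Lam N × Lam N)

theorem GSM_add {N : ℕ} (A : EE N →L[ℝ] EE N) (v : EE N) (y z : Lam N) :
    GSM_q A v (y + z) = GSM_q A v y + GSM_q A v z := by
  refine PL.ext ?_ ?_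
  · show pb A (y + z) = pb A y + pb A z
    rw [map_add]
  · show pb A (ctr v (y + z)) = pb A (ctr v y) + pb A (ctr v z)
    rw [map_add, map_add]

theorem GSM_smul {N : ℕ} (A : EE N →L[ℝ] EE N) (v : EE N) (r : ℝ) (y : Lam N) :
    GSM_q A v (r • y) = r • GSM_q A v y := by
  refine PL.ext ?_ ?_
  · show pb A (r • y) = r • pb A y
    rw [map_smul]
  · show pb A (ctr v (r • y)) = r • pb A (ctr v y)
    rw [map_smul, map_smul]

theorem GSM_one {N : ℕ} (A : EE N →L[ℝ] EE N) (v : EE N) :
    GSM_q A v (1 : Lam N) = (1 : PL N) := by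
  refine PL.ext ?_ ?_
  · show pb A (1 : Lam N) = (1 : Lam N)
    rw [map_one]
  · show pb A (ctr v (1 : Lam N)) = (0 : Lam N)
    have h := (q_ALG N).2.2.2.1 v 1
    rw [map_one] at h
    rw [h, map_zero]

theorem GSM_mul {N : ℕ} (A : EE N →L[ℝ] EE N) (v : EE N) (y z : Lam N) :
    GSM_q A v (y * z) = GSM_q A v y * GSM_q A v z := by
  refine PL.ext ?_ ?_
  · show pb A (y * z) = pb A y * pb A z
    rw [map_mul]
  · show pb A (ctr v (y * z)) = pb A (ctr v y) * pb A z + inv (pb A y) * pb A (ctr v z)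
    rw [(q_ALG N).2.1 v y z, map_add, map_mul, map_mul, (q_PBA N).2.2.2.2 A y]

theorem p_GSM : Stmt_GSM := by
  intro N M _ _ Ω H Φ
  refine ⟨?_, ?_⟩
  · refine ⟨AlgHom.ofLinearMap
      { toFun := fun f => GS Ω H Φ f
        map_add' := ?_
        map_smul' := ?_ } ?_ ?_, fun f => rfl⟩
    · intro f g
      funext t c x
      exact GSM_add _ _ _ _
    · intro r f
      funext t c x
      exact GSM_smul _ _ _ _
    · funext t c x
      exact GSM_one _ _
    · intro f g
      funext t c x
      exact GSM_mul _ _ _ _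
  · intro f g h t ht c hc x hx
    have h1 : f (chartAt (EE N) (Φ t (c.symm x))) (chartAt (EE N) (Φ t (c.symm x)) (Φ t (c.symm x)))
        = g (chartAt (EE N) (Φ t (c.symm x)))
          (chartAt (EE N) (Φ t (c.symm x)) (Φ t (c.symm x))) :=
      h _ (chart_mem_atlas (EE N) _) _ (mem_chart_target (EE N) _)
    refine PL.ext ?_ ?_
    · show pb _ _ = pb _ _
      rw [h1]
    · show pb _ (ctr _ _) = pb _ (ctr _ _)
      rw [h1]

end HDE
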