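import Pool.Agent.Work.MP_c3bd4f_he.Interface

set_option autoImplicit false

/-! # Block GVL (helper1): the value of the integral -/

open scoped ContDiff Manifold Topology
open Set MeasureTheory

noncomputable section

namespace HDE

open HDC

theorem GVL_pow1 {N : ℕ} (y : PL N) (n : ℕ) : (y ^ n).1 = y.1 ^ n := by
  induction n with
  | zero => simp only [pow_zero]; rfl
  | succ n ih => rw [pow_succ, pow_succ, PL.mul_fst, ih]

/-- everything for one Hamiltonian and one time -/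
theorem GVL_one (n : ℕ) (M : Type) [TopologicalSpace M] [T2Space M]
    [SecondCountableTopology M] [ChartedSpace (EE (2 * n)) M] [IsManifold 𝓘(ℝ, EE (2 * n)) ∞ M]
    [MeasurableSpace M] [BorelSpace M] (Ω : Fam (2 * n) M) (vol : Measure M) (K : Set M)
    (hn : 1 ≤ n) (hS : Sg n Ω vol K) (H : ℝ → M → ℝ) (Φ : ℝ → M → M) (hH : HS n Ω H Φ)
    (hK0 : ∀ t ∈ Icc (0 : ℝ) 1, ∀ p ∉ K, H t p = 0) (t : ℝ) (ht : t ∈ Icc (0 : ℝ) 1) :
    Integrable (dn n Ω (PBK (Φ t) (hF (2 * n) (H t) * Ω ^ n))) vol ∧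
    ∫ p, dn n Ω (PBK (Φ t) (hF (2 * n) (H t) * Ω ^ n)) p ∂vol = ∫ p, H t p ∂vol ∧
    EqF (PBK (Φ t) (hF (2 * n) (H t) * Ω ^ n)) (PBK (Φ t) (hF (2 * n) (H t)) * Ω ^ n) := by
  haveI := hS.fin
  have hΩ := hS.symp
  obtain ⟨hmul, -, hsmul, hcon, hat, hpow, -, -⟩ := q_FO2 (2 * n) M
  obtain ⟨hms1, hms2, hms3⟩ := q_HMS (2 * n) M H hH.ham
  have h01 : (0 : ℝ) ∈ Icc (0 : ℝ) 1 := ⟨le_rfl, zero_le_one⟩
  have hhF : IsForm 0 (hF (2 * n) (H t)) := hms3.form t ht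
  have hmulF : ∀ (k l : ℕ) (f g : Fam (2 * n) M), IsForm k f → IsForm l g →
      IsForm (k + l) (f * g) :=
    fun k l f g hf hg => hat _ _ (hmul _ _ _ _ (hcon _ f hf) (hcon _ g hg)) 0 h01
  set f : Fam (2 * n) M := hF (2 * n) (H t) * Ω ^ n with hf
  have hfF : IsForm (2 * n) f := by
    have h := hmulF 0 (2 * n) _ _ hhF (hpow n Ω hΩ.form)
    rw [zero_add] at h
    exact h
  have hfC : CS K f := by
    intro c hc x hx hxK
    show algebraMap ℝ (Lam (2 * n)) (H t (c.symm x)) * (Ω ^ n) c x = 0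
    rw [hK0 t ht _ hxK, map_zero, zero_mul]
  have hPF : IsForm (2 * n) (PBK (Φ t) f) :=
    (q_PBT (2 * n) M Φ (2 * n) (fun _ => f) hH.iso.smooth (hcon _ f hfF)).form t ht
  have hPC : CS K (PBK (Φ t) f) := by
    intro c hc x hx hxK
    rw [(q_OFK n M Ω H Φ K hH hS.cpt hK0).2.1 t ht _ f hfF c hc x hx hxK]
    exact hfC c hc x hx hxK
  refine ⟨q_INT n M Ω vol hΩ _ _ K hPF hS.cpt hPC, ?_, ?_⟩
  · rw [q_INV n M Ω vol H Φ K hn hH hS.vl hS.cpt hK0 f hfF hfC t ht]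
    refine integral_congr_ae (Filter.Eventually.of_forall fun p => ?_)
    have h1 : top (2 * n)
        ((Ω (chartAt (EE (2 * n)) p) (chartAt (EE (2 * n)) p p)) ^ n) ≠ 0 :=
      (q_DNC n M Ω hΩ).1 _ (chart_mem_atlas _ p) _ (mem_chart_target _ p)
    have h2 : (hF (2 * n) (H t) * Ω ^ n) (chartAt (EE (2 * n)) p) (chartAt (EE (2 * n)) p p) =
        (H t p) • (Ω (chartAt (EE (2 * n)) p) (chartAt (EE (2 * n)) p p)) ^ n := by
      show algebraMap ℝ (Lam (2 * n)) (H t ((chartAt (EE (2 * n)) p).symm (chartAt (EE (2 * n)) p p))) *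
        (Ω (chartAt (EE (2 * n)) p) (chartAt (EE (2 * n)) p p)) ^ n = _
      rw [(chartAt (EE (2 * n)) p).left_inv (mem_chart_source _ p), Algebra.smul_def]
    show dn n Ω f p = H t p
    unfold dn
    rw [hf, h2, map_smul, smul_eq_mul, mul_div_assoc, div_self h1, mul_one]
  · intro c hc x hx
    have h3 : PBK (Φ t) f c x = PBK (Φ t) (hF (2 * n) (H t)) c x * (PBK (Φ t) Ω c x) ^ n := by
      show pb _ ((hF (2 * n) (H t) * Ω ^ n) _ _) = _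
      rw [Pi.mul_apply, Pi.mul_apply, Pi.pow_apply, Pi.pow_apply, map_mul, map_pow]
      rfl
    rw [h3, q_OMI n M Ω H Φ hH t ht c hc x hx]
    rfl

theorem GVL_cont (n : ℕ) (M : Type) [TopologicalSpace M] [T2Space M]
    [SecondCountableTopology M] [ChartedSpace (EE (2 * n)) M] [IsManifold 𝓘(ℝ, EE (2 * n)) ∞ M]
    [MeasurableSpace M] [BorelSpace M] (vol : Measure M) [IsFiniteMeasure vol] (K : Set M)
    (hK : IsCompact K) (H : ℝ → M → ℝ) (hH : IsHam (2 * n) H)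
    (hK0 : ∀ t ∈ Icc (0 : ℝ) 1, ∀ p ∉ K, H t p = 0) :
    IntervalIntegrable (fun t => ∫ p, H t p ∂vol) volume 0 1 := by
  obtain ⟨-, hms2, -⟩ := q_HMS (2 * n) M H hH
  have hc : ContinuousOn (fun t => ∫ p, H t p ∂vol) (Icc (0 : ℝ) 1) :=
    continuousOn_integral_of_compact_support hK hms2 (fun t p ht hp => hK0 t ht p hp)
  rw [← uIcc_of_le (zero_le_one (α := ℝ))] at hc
  exact hc.intervalIntegrable

theorem p_GVL (_ : Stmt_NLA) (_ : Stmt_GGD) : Stmt_GVL := by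
  intro n M _ _ _ _ _ _ _ Ω vol K hn hS H H' Φ Φ' hT
  haveI := hS.fin
  have hpt : ∀ t ∈ Icc (0 : ℝ) 1, EqF (fun c x => (((gg (2 * n) H' Φ' - gg (2 * n) H Φ) *
      (GS Ω H Φ Ω) ^ n) t c x).2)
      (PBK (Φ' t) (hF (2 * n) (H' t) * Ω ^ n) - PBK (Φ t) (hF (2 * n) (H t) * Ω ^ n)) := by
    intro t ht c hc x hx
    have e1 := (GVL_one n M Ω vol K hn hS H' Φ' hT.h' hT.s' t ht).2.2 c hc x hx
    have e2 := (GVL_one n M Ω vol K hn hS H Φ hT.h hT.s t ht).2.2 c hc x hx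
    have e3 : ((GS Ω H Φ Ω) t c x).1 = Ω c x := q_OMI n M Ω H Φ hT.h t ht c hc x hx
    show ((gg (2 * n) H' Φ' t c x - gg (2 * n) H Φ t c x) * ((GS Ω H Φ Ω) t c x) ^ n).2 =
      PBK (Φ' t) (hF (2 * n) (H' t) * Ω ^ n) c x - PBK (Φ t) (hF (2 * n) (H t) * Ω ^ n) c x
    rw [e1, e2, PL.mul_snd, PL.sub_fst, PL.sub_snd, GVL_pow1, e3]
    have e4 : (gg (2 * n) H' Φ' t c x).1 = 0 := rfl
    have e5 : (gg (2 * n) H Φ t c x).1 = 0 := rfl
    rw [e4, e5, sub_zero, map_zero, zero_mul, add_zero, sub_mul]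
    rfl
  have hin : ∀ t ∈ Icc (0 : ℝ) 1, ∫ p, dn n Ω (fun c x => (((gg (2 * n) H' Φ' -
      gg (2 * n) H Φ) * (GS Ω H Φ Ω) ^ n) t c x).2) p ∂vol =
      (∫ p, H' t p ∂vol) - ∫ p, H t p ∂vol := by
    intro t ht
    obtain ⟨i1, v1, -⟩ := GVL_one n M Ω vol K hn hS H' Φ' hT.h' hT.s' t ht
    obtain ⟨i2, v2, -⟩ := GVL_one n M Ω vol K hn hS H Φ hT.h hT.s t ht
    rw [q_CNG.2 n M Ω _ _ (hpt t ht), ← v1, ← v2, ← integral_sub i1 i2]
    refine integral_congr_ae (Filter.Eventually.of_forall fun p => ?_)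
    show dn n Ω (PBK (Φ' t) (hF (2 * n) (H' t) * Ω ^ n) - PBK (Φ t) (hF (2 * n) (H t) * Ω ^ n)) p =
      dn n Ω (PBK (Φ' t) (hF (2 * n) (H' t) * Ω ^ n)) p -
        dn n Ω (PBK (Φ t) (hF (2 * n) (H t) * Ω ^ n)) p
    unfold dn
    rw [Pi.sub_apply, Pi.sub_apply, map_sub, sub_div]
  unfold JJ Cal
  rw [← intervalIntegral.integral_sub
    (GVL_cont n M vol K hT.cpt H' hT.h'.ham hT.s') (GVL_cont n M vol K hT.cpt H hT.h.ham hT.s)]
  refine intervalIntegral.integral_congr fun t ht => ?_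
  rw [uIcc_of_le (zero_le_one (α := ℝ))] at ht
  exact hin t ht

end HDE
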