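import Pool.Agent.Work.MP_c3bd4f_he.Interface

set_option autoImplicit false

open scoped ContDiff Manifold Topology
open Set MeasureTheory

noncomputable section

namespace HDE

open HDC

theorem p_HPC (hDFA : Stmt_DFA) (hDDA : Stmt_DDA) (hLBP : Stmt_LBP) : Stmt_HPC := by
  intro N M _ _ _ X Y hX hY hdX hdY
  obtain ⟨a1, a2, a3, a4, a5, a6, a7, a8⟩ := hDFA N M
  obtain ⟨d1, d2, d3, d4, d5⟩ := hDDA N M
  have key : ∀ (k l : ℕ) (F G : PFam N M), DFm k F → DFm l G → DD F 0 → DD G 0 →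
      DFm (k + l) (F * G) ∧ DD (F * G) 0 := by
    intro k l F G hF hG hdF hdG
    refine ⟨a3 k l F G hF hG, ?_⟩
    have h := hLBP N M k l F G 0 0 hF hG hdF hdG
    have h0 : (0 : PFam N M) * G + (-1 : ℝ) ^ k • (F * (0 : PFam N M)) = 0 := by
      rw [zero_mul, mul_zero, smul_zero, add_zero]
    rw [h0] at h
    exact h
  have pow : ∀ (Z : PFam N M), DFm 2 Z → DD Z 0 → ∀ j : ℕ, DFm (2 * j) (Z ^ j) ∧ DD (Z ^ j) 0 := by
    intro Z hZ hdZ j
    induction j with
    | zero =>
      rw [pow_zero]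
      exact ⟨a4, d4⟩
    | succ j ih =>
      rw [pow_succ]
      exact key (2 * j) 2 _ _ ih.1 hZ ih.2 hdZ
  refine ⟨pow X hX hdX, ?_⟩
  intro m s q hq
  induction s with
  | zero =>
    have h0 : HP m 0 q X Y = 0 := by
      unfold HP
      rw [Finset.range_zero, Finset.sum_empty]
    rw [h0]
    exact ⟨a8 _, d5⟩
  | succ s ih =>
    have ih' := ih fun i hi h => hq i (Nat.lt_succ_of_lt hi) h
    have h0 : HP m (s + 1) q X Y = HP m s q X Y + q s • (X ^ s * Y ^ (m - s)) := by
      unfold HP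
      rw [Finset.sum_range_succ]
    rw [h0]
    by_cases hs : q s = 0
    · rw [hs, zero_smul, add_zero]
      exact ih'
    · have hsm := hq s (Nat.lt_succ_self s) hs
      have h1 := key (2 * s) (2 * (m - s)) _ _ (pow X hX hdX s).1 (pow Y hY hdY (m - s)).1
        (pow X hX hdX s).2 (pow Y hY hdY (m - s)).2
      have e : 2 * s + 2 * (m - s) = 2 * m := by omega
      rw [e] at h1
      have h2 : DFm (2 * m) (q s • (X ^ s * Y ^ (m - s))) := a2 _ _ _ h1.1
      have h3 : DD (q s • (X ^ s * Y ^ (m - s))) 0 := by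
        have h := d2 (2 * m) _ _ (q s) h1.1 h1.2
        rw [smul_zero] at h
        exact h
      refine ⟨(a1 _ _ _ ih'.1 h2).1, ?_⟩
      have h := (d1 (2 * m) _ _ _ _ ih'.1 h2 ih'.2 h3).1
      rw [add_zero] at h
      exact h

end HDE
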