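import Pool.Agent.Work.MP_c3bd4f_he.Interface

set_option autoImplicit false

/-! # Block MAI: the Calabi invariant (helper38) -/

open scoped ContDiff Manifold Topology
open Set MeasureTheory

noncomputable section

namespace HDE

open HDC

theorem MAI_sum (hDFA : Stmt_DFA) (hDDA : Stmt_DDA) (hLBP : Stmt_LBP) {N : ℕ} {M : Type}
    [TopologicalSpace M] [ChartedSpace (EE N) M] [IsManifold 𝓘(ℝ, EE N) ∞ M] {r : ℕ}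
    (A B : Fin r → PFam N M) (hA : ∀ i, DFm 1 (A i)) (hB : ∀ i, DFm 1 (B i))
    (dA : ∀ i, DD (A i) 0) (dB : ∀ i, DD (B i) 0) :
    DFm 2 (∑ i, A i * B i) ∧ DD (∑ i, A i * B i) 0 := by
  obtain ⟨a1, -, a3, -, -, -, -, a8⟩ := hDFA N M
  obtain ⟨d1, -, -, -, d5⟩ := hDDA N M
  have hterm : ∀ i, DFm 2 (A i * B i) ∧ DD (A i * B i) 0 := by
    intro i
    refine ⟨a3 1 1 _ _ (hA i) (hB i), ?_⟩
    have h := hLBP N M 1 1 (A i) (B i) 0 0 (hA i) (hB i) (dA i) (dB i)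
    have e : (0 : PFam N M) * B i + (-1 : ℝ) ^ 1 • (A i * (0 : PFam N M)) = 0 := by
      rw [zero_mul, mul_zero, smul_zero, add_zero]
    rw [e] at h
    exact h
  have key : ∀ s : Finset (Fin r),
      DFm 2 (∑ i ∈ s, A i * B i) ∧ DD (∑ i ∈ s, A i * B i) 0 := by
    intro s
    classical
    induction s using Finset.induction_on with
    | empty =>
      rw [Finset.sum_empty]
      exact ⟨a8 2, d5⟩
    | insert a s ha ih =>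
      rw [Finset.sum_insert ha]
      refine ⟨(a1 2 _ _ (hterm a).1 ih.1).1, ?_⟩
      have h := (d1 2 _ _ _ _ (hterm a).1 ih.1 (hterm a).2 ih.2).1
      rwa [add_zero] at h
  exact key Finset.univ

theorem MAI_nil (hPLA : Stmt_PLA) (hALP : Stmt_ALP) (hDFA : Stmt_DFA) {N : ℕ} {M : Type}
    [TopologicalSpace M] [ChartedSpace (EE N) M] [IsManifold 𝓘(ℝ, EE N) ∞ M] {r : ℕ}
    (A B : Fin r → PFam N M) (hA : ∀ i, DFm 1 (A i)) (hB : ∀ i, DFm 1 (B i)) :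
    EqP ((∑ i, A i * B i) ^ (r + 1)) 0 := by
  intro t ht c hc x hx
  obtain ⟨-, -, -, -, -, a6, -, -⟩ := hDFA N M
  obtain ⟨p1, -, p3, p4, p5, -, -, -, -⟩ := hPLA N
  have e : ((∑ i, A i * B i) ^ (r + 1)) t c x = (∑ i, A i t c x * B i t c x) ^ (r + 1) := by
    simp only [Pi.pow_apply, Finset.sum_apply, Pi.mul_apply]
  have gA : ∀ i, Hg 1 (A i t c x) := fun i => a6 1 _ (hA i) t ht c hc x hx
  have gB : ∀ i, Hg 1 (B i t c x) := fun i => a6 1 _ (hB i) t ht c hc x hx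
  have h := hALP (PL N) (Fin r) Finset.univ (fun i => A i t c x * B i t c x)
    (fun i _ k _ => p1 _ _ (p5 1 1 _ _ (gA i) (gB i))) (fun i _ => by
      have h1 := p4 _ _ (gB i) (gA i)
      calc A i t c x * B i t c x * (A i t c x * B i t c x)
          = A i t c x * (B i t c x * A i t c x) * B i t c x := by simp only [mul_assoc]
        _ = -((A i t c x * A i t c x) * (B i t c x * B i t c x)) := by
            rw [h1, mul_neg, neg_mul]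
            simp only [mul_assoc]
        _ = 0 := by rw [p3 _ (gA i), zero_mul, neg_zero])
  rw [Finset.card_univ, Fintype.card_fin] at h
  rw [e]
  exact h

theorem MAI_vadd {N : ℕ} {M : Type} [TopologicalSpace M] [ChartedSpace (EE N) M] {K : Set M}
    {F G : PFam N M} (hF : Vn K F) (hG : Vn K G) : Vn K (F + G) := by
  refine ⟨?_, ?_, ?_⟩
  · intro t ht c hc x hx hK
    change F t c x + G t c x = 0
    rw [hF.cs t ht c hc x hx hK, hG.cs t ht c hc x hx hK, add_zero]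
  · intro c hc x hx
    change (F 0 c x + G 0 c x).1 = 0
    rw [PL.add_fst, hF.v0 c hc x hx, hG.v0 c hc x hx, add_zero]
  · intro c hc x hx
    change (F 1 c x + G 1 c x).1 = 0
    rw [PL.add_fst, hF.v1 c hc x hx, hG.v1 c hc x hx, add_zero]

/-- the data of the pullback by one isotopy -/
theorem MAI_one (hDFA : Stmt_DFA) (hDDA : Stmt_DDA) (hLBP : Stmt_LBP) (hGSM : Stmt_GSM)
    (hGSD : Stmt_GSD) (n : ℕ) (M : Type) [TopologicalSpace M] [ChartedSpace (EE (2 * n)) M]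
    [IsManifold 𝓘(ℝ, EE (2 * n)) ∞ M] (Ω μ : Fam (2 * n) M) (hΩ : IsSymplectic n Ω) (r j : ℕ)
    (α β : Fin r → Fam (2 * n) M)
    (hαβ : ∀ i, IsForm 1 (α i) ∧ EqF (dF (α i)) 0 ∧ IsForm 1 (β i) ∧ EqF (dF (β i)) 0)
    (hμ : IsForm (2 * j - 1) μ) (hdμ : EqF (dF μ) ((Ω - ∑ i, α i * β i) ^ j))
    (H : ℝ → M → ℝ) (Φ : ℝ → M → M) (hS : HS n Ω H Φ) :
    (∀ i, DFm 1 (GS Ω H Φ (α i)) ∧ DFm 1 (GS Ω H Φ (β i)) ∧ DD (GS Ω H Φ (α i)) 0 ∧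
      DD (GS Ω H Φ (β i)) 0) ∧
    (DFm 2 (GS Ω H Φ Ω) ∧ DD (GS Ω H Φ Ω) 0) ∧
    (DFm 2 (∑ i, GS Ω H Φ (α i) * GS Ω H Φ (β i)) ∧
      DD (∑ i, GS Ω H Φ (α i) * GS Ω H Φ (β i)) 0) ∧
    DFm (2 * j - 1) (GS Ω H Φ μ) ∧
    DD (GS Ω H Φ μ) ((GS Ω H Φ Ω - ∑ i, GS Ω H Φ (α i) * GS Ω H Φ (β i)) ^ j) := by
  obtain ⟨-, -, d3, -, -⟩ := hDDA (2 * n) M
  obtain ⟨⟨h, hh⟩, hcong⟩ := hGSM (2 * n) M Ω H Φ
  have h0 : GS Ω H Φ (0 : Fam (2 * n) M) = 0 := by rw [← hh, map_zero]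
  have hrefl : ∀ F : PFam (2 * n) M, EqP F F := fun F t _ c _ x _ => rfl
  have hcl : ∀ (k : ℕ) (f : Fam (2 * n) M), IsForm k f → EqF (dF f) 0 →
      DFm k (GS Ω H Φ f) ∧ DD (GS Ω H Φ f) 0 := by
    intro k f hf hdf
    obtain ⟨g1, g2⟩ := hGSD n M Ω H Φ hS k f hf
    refine ⟨g1, ?_⟩
    have h1 := hcong _ _ hdf
    rw [h0] at h1
    exact d3 _ _ _ _ (hrefl _) h1 g2
  have h1 : ∀ i, DFm 1 (GS Ω H Φ (α i)) ∧ DFm 1 (GS Ω H Φ (β i)) ∧ DD (GS Ω H Φ (α i)) 0 ∧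
      DD (GS Ω H Φ (β i)) 0 := by
    intro i
    obtain ⟨e1, e2, e3, e4⟩ := hαβ i
    obtain ⟨f1, f2⟩ := hcl 1 _ e1 e2
    obtain ⟨f3, f4⟩ := hcl 1 _ e3 e4
    exact ⟨f1, f3, f2, f4⟩
  refine ⟨h1, hcl 2 Ω hΩ.form hΩ.closed, ?_, ?_⟩
  · exact MAI_sum hDFA hDDA hLBP _ _ (fun i => (h1 i).1) (fun i => (h1 i).2.1)
      (fun i => (h1 i).2.2.1) (fun i => (h1 i).2.2.2)
  · obtain ⟨g1, g2⟩ := hGSD n M Ω H Φ hS (2 * j - 1) μ hμ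
    refine ⟨g1, ?_⟩
    have h2 := hcong _ _ hdμ
    have h3 : GS Ω H Φ ((Ω - ∑ i, α i * β i) ^ j)
        = (GS Ω H Φ Ω - ∑ i, GS Ω H Φ (α i) * GS Ω H Φ (β i)) ^ j := by
      rw [← hh, map_pow, map_sub, map_sum, hh]
      congr 2
      refine Finset.sum_congr rfl (fun i _ => ?_)
      rw [map_mul, hh, hh]
    rw [h3] at h2
    exact d3 _ _ _ _ (hrefl _) h2 g2

theorem MAI_ring {R : Type} [Ring R] [Algebra ℝ R] (a b c ka m U11 U01 U00 g : R) (s : ℝ)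
    (h1 : c = ka + m) :
    (a * U01 - b * U00 + s • g) + (c * U11 - a * U01) - ka * U11
      = s • g + (m * U11 - b * U00) := by
  rw [h1, add_mul]
  abel

theorem p_MAI (hPLA : Stmt_PLA) (hALP : Stmt_ALP) (hDFA : Stmt_DFA) (hDDA : Stmt_DDA)
    (hLBP : Stmt_LBP) (hGSM : Stmt_GSM) (hGSD : Stmt_GSD) (hVMU : Stmt_VMU) (hGDF : Stmt_GDF)
    (hCLV : Stmt_CLV) (hNLA : Stmt_NLA) (hS0L : Stmt_S0L) (hCHN : Stmt_CHN) (hEVL : Stmt_EVL)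
    (hENA : Stmt_ENA) (hENB : Stmt_ENB) (hGVL : Stmt_GVL) : Stmt_MAI := by
  intro n M _ _ _ _ _ _ _ Ω μ vol K hn hSg hNoC r j α β hj hrj hαβ hμ hdμ H H' Φ Φ' hT
  obtain ⟨a1, -, -, -, -, -, -, -⟩ := hDFA (2 * n) M
  obtain ⟨d1, -, d3, -, -⟩ := hDDA (2 * n) M
  obtain ⟨-, n2, -, n4, n5, -⟩ := hNLA n M Ω vol K hSg
  have hrj1 : r + j ≤ n + 1 := by omega
  have hjn : j ≤ n := by omega
  have hT' : TwoH n Ω H' H Φ' Φ K := ⟨hT.h', hT.h, hT.cpt, hT.s', hT.s, hT.e.symm⟩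
  obtain ⟨o1, o2, o3, o4, o5⟩ := MAI_one hDFA hDDA hLBP hGSM hGSD n M Ω μ hSg.symp r j α β hαβ
    hμ hdμ H Φ hT.h
  obtain ⟨q1, q2, q3, q4, q5⟩ := MAI_one hDFA hDDA hLBP hGSM hGSD n M Ω μ hSg.symp r j α β hαβ
    hμ hdμ H' Φ' hT.h'
  obtain ⟨g1, g2, g3, g4, g5⟩ := hGDF n M Ω H H' Φ Φ' K hT
  -- primitives
  have hprim : ∀ f : Fam (2 * n) M, IsForm 1 f → DFm 1 (GS Ω H Φ f) → DFm 1 (GS Ω H' Φ' f) →
      DD (GS Ω H Φ f) 0 → DD (GS Ω H' Φ' f) 0 →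
      ∃ e : PFam (2 * n) M, DFm 0 e ∧ Vn K e ∧ DD e (GS Ω H' Φ' f - GS Ω H Φ f) := by
    intro f hf h1 h2 h3 h4
    refine hCLV (2 * n) M hNoC K _ hT.cpt (a1 1 _ _ h2 h1).2 ?_
      (hVMU n M Ω H' H Φ' Φ K hT' 1 f hf)
    have h5 := (d1 1 _ _ _ _ h2 h1 h4 h3).2
    rwa [sub_zero] at h5
  have hca : ∀ i, ∃ e : PFam (2 * n) M, DFm 0 e ∧ Vn K e ∧
      DD e (GS Ω H' Φ' (α i) - GS Ω H Φ (α i)) := fun i =>
    hprim _ (hαβ i).1 (o1 i).1 (q1 i).1 (o1 i).2.2.1 (q1 i).2.2.1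
  have hcb : ∀ i, ∃ e : PFam (2 * n) M, DFm 0 e ∧ Vn K e ∧
      DD e (GS Ω H' Φ' (β i) - GS Ω H Φ (β i)) := fun i =>
    hprim _ (hαβ i).2.2.1 (o1 i).2.1 (q1 i).2.1 (o1 i).2.2.2 (q1 i).2.2.2
  choose ca hca1 hca2 hca3 using hca
  choose cb hcb1 hcb2 hcb3 using hcb
  -- step 0
  have hY : DFm 2 (GS Ω H Φ Ω - ∑ i, GS Ω H Φ (α i) * GS Ω H Φ (β i)) ∧
      DD (GS Ω H Φ Ω - ∑ i, GS Ω H Φ (α i) * GS Ω H Φ (β i)) 0 := by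
    refine ⟨(a1 2 _ _ o2.1 o3.1).2, ?_⟩
    have h := (d1 2 _ _ _ _ o2.1 o3.1 o2.2 o3.2).2
    rwa [sub_zero] at h
  have hdg : DFm 2 (GS Ω H Φ Ω - GS Ω H' Φ' Ω) ∧ DD (GS Ω H Φ Ω - GS Ω H' Φ' Ω) 0 := by
    refine ⟨(a1 2 _ _ o2.1 q2.1).2, ?_⟩
    have h := (d1 2 _ _ _ _ o2.1 q2.1 o2.2 q2.2).2
    rwa [sub_zero] at h
  obtain ⟨nu1, s1, s2, s3, s4⟩ := hS0L n M Ω vol K hn hSg r j hj hjn hrj1
    (∑ i, GS Ω H Φ (α i) * GS Ω H Φ (β i))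
    (GS Ω H Φ Ω - ∑ i, GS Ω H Φ (α i) * GS Ω H Φ (β i))
    (gg (2 * n) H' Φ' - gg (2 * n) H Φ) (GS Ω H Φ Ω - GS Ω H' Φ' Ω) (GS Ω H Φ μ)
    o3.1 hY.1 g1 hdg.1 o4 o3.2 hY.2 g3 hdg.2 o5 g2 g4 g5
    (MAI_nil hPLA hALP hDFA _ _ (fun i => (o1 i).1) (fun i => (o1 i).2.1))
  have e1 : GS Ω H Φ Ω - ∑ i, GS Ω H Φ (α i) * GS Ω H Φ (β i) - (GS Ω H Φ Ω - GS Ω H' Φ' Ω)
      = GS Ω H' Φ' Ω - ∑ i, GS Ω H Φ (α i) * GS Ω H Φ (β i) := by abel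
  have e2 : (∑ i, GS Ω H Φ (α i) * GS Ω H Φ (β i)) +
      (GS Ω H Φ Ω - ∑ i, GS Ω H Φ (α i) * GS Ω H Φ (β i)) = GS Ω H Φ Ω := by abel
  rw [e1] at s2 s4
  rw [e2] at s4
  -- the chain
  obtain ⟨nu2, t1, t2, t3, t4⟩ := hCHN n M Ω vol K hn hSg r j hj hrj1
    (fun i => GS Ω H Φ (α i)) (fun i => GS Ω H' Φ' (α i)) (fun i => GS Ω H Φ (β i))
    (fun i => GS Ω H' Φ' (β i)) ca cb (GS Ω H' Φ' Ω) nu1
    (fun i => ⟨(o1 i).1, (q1 i).1, (o1 i).2.1, (q1 i).2.1, hca1 i, hcb1 i⟩)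
    (fun i => ⟨(o1 i).2.2.1, (q1 i).2.2.1, (o1 i).2.2.2, (q1 i).2.2.2, hca3 i, hcb3 i,
      hca2 i, hcb2 i⟩) q2.1 q2.2 s1 s2
  -- the end
  have hY' : DFm 2 (GS Ω H' Φ' Ω - ∑ i, GS Ω H' Φ' (α i) * GS Ω H' Φ' (β i)) ∧
      DD (GS Ω H' Φ' Ω - ∑ i, GS Ω H' Φ' (α i) * GS Ω H' Φ' (β i)) 0 := by
    refine ⟨(a1 2 _ _ q2.1 q3.1).2, ?_⟩
    have h := (d1 2 _ _ _ _ q2.1 q3.1 q2.2 q3.2).2
    rwa [sub_zero] at h
  have hka1 : DFm (2 * j - 1) (nu2 - GS Ω H' Φ' μ) := (a1 _ _ _ t1 q4).2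
  have hka2 : DD (nu2 - GS Ω H' Φ' μ) 0 := by
    have h := (d1 (2 * j - 1) _ _ _ _ t1 q4 t2 q5).2
    rwa [sub_self] at h
  have hka3 : Vn K (nu2 - GS Ω H' Φ' μ) := by
    have h := MAI_vadd (MAI_vadd t3 s3) (hVMU n M Ω H H' Φ Φ' K hT (2 * j - 1) μ hμ)
    have e3 : nu2 - nu1 + (nu1 - GS Ω H Φ μ) + (GS Ω H Φ μ - GS Ω H' Φ' μ)
        = nu2 - GS Ω H' Φ' μ := by abel
    rwa [e3] at h
  have hend : Nl n Ω vol K ((nu2 - GS Ω H' Φ' μ) *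
      UU n r j (∑ i, GS Ω H' Φ' (α i) * GS Ω H' Φ' (β i))
        (GS Ω H' Φ' Ω - ∑ i, GS Ω H' Φ' (α i) * GS Ω H' Φ' (β i))) := by
    rcases hrj with h | ⟨h, hr⟩
    · exact hENA n M Ω vol K hn hSg r j hj h _ _ _ (GS Ω H' Φ' μ) q3.1 hY'.1 q3.2 hY'.2 hka1 q4
        hka2 q5 hka3
    · subst h
      exact hENB n M Ω vol K hn hSg hNoC r hr _ _ _ q3.1 hY'.1 q3.2 hY'.2 hka1 hka2 hka3
  have v0 := hEVL n M Ω μ H Φ r j α β hj hrj1 hSg.symp.form hμ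
    (fun i => ⟨(hαβ i).1, (hαβ i).2.2.1⟩)
  have v1 := hEVL n M Ω μ H' Φ' r j α β hj hrj1 hSg.symp.form hμ
    (fun i => ⟨(hαβ i).1, (hαβ i).2.2.1⟩)
  -- adding up
  have hsum := (n4 _ _ 0 ((n4 _ _ 0 s4 t4).1) hend).2.1
  rw [MAI_ring nu1 (GS Ω H Φ μ) nu2 (nu2 - GS Ω H' Φ' μ) (GS Ω H' Φ' μ) _ _ _ _ _
    (sub_add_cancel nu2 (GS Ω H' Φ' μ)).symm] at hsum
  have hfin : Nl n Ω vol K (((n : ℝ) + 1) •
      ((gg (2 * n) H' Φ' - gg (2 * n) H Φ) * (GS Ω H Φ Ω) ^ n)) := by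
    refine n5 _ _ ?_ hsum
    intro t ht c hc x hx
    have w0 := v0 t ht c hc x hx
    have w1 := v1 t ht c hc x hx
    change _ + ((GS Ω H' Φ' μ * UU n r j (∑ i, GS Ω H' Φ' (α i) * GS Ω H' Φ' (β i))
        (GS Ω H' Φ' Ω - ∑ i, GS Ω H' Φ' (α i) * GS Ω H' Φ' (β i))) t c x -
      (GS Ω H Φ μ * UU n r j (∑ i, GS Ω H Φ (α i) * GS Ω H Φ (β i))
        (GS Ω H Φ Ω - ∑ i, GS Ω H Φ (α i) * GS Ω H Φ (β i))) t c x) = _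
    rw [w0, w1, sub_self, add_zero]
  have hJ := hfin.int
  rw [n2, hGVL n M Ω vol K hn hSg H H' Φ Φ' hT] at hJ
  have hpos : ((n : ℝ) + 1) ≠ 0 := by positivity
  have := (mul_eq_zero.1 hJ).resolve_left hpos
  linarith

end HDE
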