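import Pool.Agent.Work.MP_c3bd4f_he.Interface

set_option autoImplicit false

/-! # Block NCA: no compact component -/

open scoped ContDiff Manifold Topology
open Set MeasureTheory

noncomputable section

namespace HDE

open HDC

theorem NCA_cst_add {N : ℕ} {M : Type} [TopologicalSpace M] (f g : Fam N M) :
    cst (f + g) = cst f + cst g := by
  funext t c x
  exact PL.ext rfl (add_zero (0 : Lam N)).symm

theorem NCA_cst_sub {N : ℕ} {M : Type} [TopologicalSpace M] (f g : Fam N M) :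
    cst (f - g) = cst f - cst g := by
  funext t c x
  exact PL.ext rfl (sub_zero (0 : Lam N)).symm

theorem NCA_cst_sum {N : ℕ} {M I : Type} [TopologicalSpace M] (s : Finset I) (f : I → Fam N M) :
    cst (∑ i ∈ s, f i) = ∑ i ∈ s, cst (f i) := by
  classical
  induction s using Finset.induction_on with
  | empty =>
    rw [Finset.sum_empty, Finset.sum_empty]
    rfl
  | insert a s ha ih => rw [Finset.sum_insert ha, Finset.sum_insert ha, NCA_cst_add, ih]

theorem NCA_cst_pow {N : ℕ} {M : Type} [TopologicalSpace M]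
    (hm : ∀ f g : Fam N M, cst (f * g) = cst f * cst g) (f : Fam N M) (j : ℕ) :
    cst (f ^ j) = (cst f) ^ j := by
  induction j with
  | zero =>
    rw [pow_zero, pow_zero]
    rfl
  | succ j ih => rw [pow_succ, pow_succ, hm, ih]

theorem NCA_alg {R : Type} [Ring R] [Algebra ℝ R] (n r j : ℕ) (x y : R) (hxy : Commute x y)
    (hx : x ^ (r + 1) = 0) (hr : r + j ≤ n) :
    HP (n - j) (r + 1) (bc n) x y * y ^ j = (x + y) ^ n := by
  rw [hxy.add_pow]
  unfold HP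
  rw [Finset.sum_mul]
  have hsub : Finset.range (r + 1) ⊆ Finset.range (n + 1) :=
    Finset.range_subset_range.2 (by omega)
  rw [← Finset.sum_subset hsub]
  · refine Finset.sum_congr rfl fun i hi => ?_
    have hi' := Finset.mem_range.1 hi
    rw [smul_mul_assoc, mul_assoc, ← pow_add, show n - j - i + j = n - i by omega]
    unfold bc
    rw [Nat.cast_smul_eq_nsmul ℝ, nsmul_eq_mul, (Nat.cast_commute _ _).eq]
  · intro m _ hm
    have hm' : r + 1 ≤ m := by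
      have := Finset.mem_range.not.1 hm
      omega
    have h0 : x ^ m = 0 := by
      rw [← Nat.add_sub_cancel' hm', pow_add, hx, zero_mul]
    rw [h0, zero_mul, zero_mul]

theorem NCA_eq0 {N : ℕ} {M : Type} [TopologicalSpace M] [ChartedSpace (EE N) M] {f : Fam N M}
    (h : EqF f 0) : EqP (cst f) 0 := fun _ _ c hc x hx => PL.ext (h c hc x hx) rfl

theorem NCA_prim (hPLA : Stmt_PLA) (hALP : Stmt_ALP) (hDFA : Stmt_DFA) (hDDA : Stmt_DDA)
    (hLBP : Stmt_LBP) (hHPC : Stmt_HPC) (hCSD : Stmt_CSD)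
    (n : ℕ) (M : Type) [TopologicalSpace M] [ChartedSpace (EE (2 * n)) M]
    [IsManifold 𝓘(ℝ, EE (2 * n)) ∞ M] (Ω μ : Fam (2 * n) M) (hΩ : IsSymplectic n Ω) (r j : ℕ)
    (α β : Fin r → Fam (2 * n) M) (hj : 1 ≤ j) (hrj : r + 2 * j ≤ n + 1)
    (hαβ : ∀ i, IsForm 1 (α i) ∧ EqF (dF (α i)) 0 ∧ IsForm 1 (β i) ∧ EqF (dF (β i)) 0)
    (hμ : IsForm (2 * j - 1) μ) (hdμ : EqF (dF μ) ((Ω - ∑ i, α i * β i) ^ j)) :
    ∃ (k : ℕ) (θ : Fam (2 * n) M), IsForm k θ ∧ EqF (dF θ) (Ω ^ n) := by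
  obtain ⟨dadd, -, dmul, -, -, ddeg, -, dzero⟩ := hDFA (2 * n) M
  obtain ⟨ddadd, -, ddcongr, -, ddzero⟩ := hDDA (2 * n) M
  obtain ⟨csd, csm⟩ := hCSD (2 * n) M
  obtain ⟨pl1, -, pl3, pl4, pl5, -⟩ := hPLA (2 * n)
  have hrefl : ∀ F : PFam (2 * n) M, EqP F F := fun F _ _ _ _ _ _ => rfl
  have hcl : ∀ (k : ℕ) (f : Fam (2 * n) M), IsForm k f → EqF (dF f) 0 →
      DFm k (cst f) ∧ DD (cst f) 0 := fun k f hf h0 =>
    ⟨(csd k f hf).1, ddcongr _ _ _ _ (hrefl _) (NCA_eq0 h0) (csd k f hf).2⟩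
  have hA : ∀ i, DFm 1 (cst (α i)) ∧ DD (cst (α i)) 0 := fun i =>
    hcl 1 _ (hαβ i).1 (hαβ i).2.1
  have hB : ∀ i, DFm 1 (cst (β i)) ∧ DD (cst (β i)) 0 := fun i =>
    hcl 1 _ (hαβ i).2.2.1 (hαβ i).2.2.2
  have hP : ∀ i, DFm 2 (cst (α i) * cst (β i)) ∧ DD (cst (α i) * cst (β i)) 0 := by
    intro i
    refine ⟨dmul 1 1 _ _ (hA i).1 (hB i).1, ?_⟩
    have h := hLBP (2 * n) M 1 1 _ _ _ _ (hA i).1 (hB i).1 (hA i).2 (hB i).2
    rwa [zero_mul, mul_zero, smul_zero, add_zero] at h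
  have hXs : ∀ s : Finset (Fin r), DFm 2 (∑ i ∈ s, cst (α i) * cst (β i)) ∧
      DD (∑ i ∈ s, cst (α i) * cst (β i)) 0 := by
    intro s
    classical
    induction s using Finset.induction_on with
    | empty =>
      rw [Finset.sum_empty]
      exact ⟨dzero 2, ddzero⟩
    | insert a s ha ih =>
      rw [Finset.sum_insert ha]
      have h := (ddadd 2 _ _ _ _ (hP a).1 ih.1 (hP a).2 ih.2).1
      rw [add_zero] at h
      exact ⟨(dadd 2 _ _ (hP a).1 ih.1).1, h⟩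
  obtain ⟨X, hXd⟩ : ∃ X : PFam (2 * n) M, X = ∑ i, cst (α i) * cst (β i) := ⟨_, rfl⟩
  have hX : DFm 2 X ∧ DD X 0 := by
    rw [hXd]
    exact hXs Finset.univ
  have hXw : X = cst (∑ i, α i * β i) := by
    rw [hXd, NCA_cst_sum]
    exact Finset.sum_congr rfl fun i _ => (csm _ _).symm
  have hO := hcl 2 Ω hΩ.form hΩ.closed
  obtain ⟨Y, hYd⟩ : ∃ Y : PFam (2 * n) M, Y = cst Ω - X := ⟨_, rfl⟩
  have hY : DFm 2 Y ∧ DD Y 0 := by
    rw [hYd]
    have h := (ddadd 2 _ _ _ _ hO.1 hX.1 hO.2 hX.2).2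
    rw [sub_zero] at h
    exact ⟨(dadd 2 _ _ hO.1 hX.1).2, h⟩
  have hYw : Y = cst (Ω - ∑ i, α i * β i) := by
    rw [hYd, hXw, NCA_cst_sub]
  obtain ⟨hT, hTD⟩ := (hHPC (2 * n) M X Y hX.1 hY.1 hX.2 hY.2).2 (n - j) (r + 1) (bc n)
    (fun i hi _ => by omega)
  obtain ⟨hm1, hm2⟩ := csd (2 * j - 1) μ hμ
  have hE := dmul _ _ _ _ hT hm1
  have hED := hLBP (2 * n) M _ _ _ _ _ _ hT hm1 hTD hm2
  have h0 : (0 : ℝ) ∈ Icc (0 : ℝ) 1 := ⟨le_rfl, zero_le_one⟩
  refine ⟨_, _, hE.f0.form 0 h0, ?_⟩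
  intro c hc x hx
  have h1 := hED.d0 0 h0 c hc x hx
  show D (fun y => ((HP (n - j) (r + 1) (bc n) X Y * cst μ) 0 c y).1) x = (Ω ^ n) c x
  rw [← h1]
  have hsgn : (-1 : ℝ) ^ (2 * (n - j)) = 1 := by
    rw [pow_mul]
    norm_num
  rw [zero_mul, zero_add, hsgn, one_smul]
  have hg : ∀ i, Hg 1 (cst (α i) 0 c x) ∧ Hg 1 (cst (β i) 0 c x) := fun i =>
    ⟨ddeg 1 _ (hA i).1 0 h0 c hc x hx, ddeg 1 _ (hB i).1 0 h0 c hc x hx⟩
  have hX0 : X 0 c x = ∑ i, cst (α i) 0 c x * cst (β i) 0 c x := by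
    rw [hXd]
    simp only [Finset.sum_apply, Pi.mul_apply]
  have hcard : (Finset.univ : Finset (Fin r)).card = r := by simp
  have hnil : (X 0 c x) ^ (r + 1) = 0 := by
    have h := hALP (PL (2 * n)) (Fin r) Finset.univ
      (fun i => cst (α i) 0 c x * cst (β i) 0 c x)
      (fun i _ k _ => pl1 _ _ (pl5 1 1 _ _ (hg i).1 (hg i).2))
      (fun i _ => by
        have e3 := pl3 _ (hg i).1
        have e4 := pl4 _ _ (hg i).2 (hg i).1
        have e5 : cst (α i) 0 c x * cst (β i) 0 c x * (cst (α i) 0 c x * cst (β i) 0 c x) =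
            cst (α i) 0 c x * (cst (β i) 0 c x * cst (α i) 0 c x) * cst (β i) 0 c x := by
          simp only [mul_assoc]
        show cst (α i) 0 c x * cst (β i) 0 c x * (cst (α i) 0 c x * cst (β i) 0 c x) = 0
        rw [e5, e4, mul_neg, neg_mul, ← mul_assoc (cst (α i) 0 c x), e3, zero_mul, zero_mul,
          neg_zero])
    rw [hcard, ← hX0] at h
    exact h
  have hcomm : Commute (X 0 c x) (Y 0 c x) :=
    pl1 _ _ (ddeg 2 _ hX.1 0 h0 c hc x hx)
  have halg := NCA_alg n r j (X 0 c x) (Y 0 c x) hcomm hnil (by omega)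
  have hmu : cst (dF μ) 0 c x = (Y 0 c x) ^ j := by
    have e1 : cst ((Ω - ∑ i, α i * β i) ^ j) 0 c x = (Y 0 c x) ^ j := by
      rw [NCA_cst_pow csm, ← hYw]
      rfl
    rw [← e1]
    exact PL.ext (hdμ c hc x hx) rfl
  have hsum : X 0 c x + Y 0 c x = cst Ω 0 c x := by
    rw [hYd]
    show X 0 c x + (cst Ω 0 c x - X 0 c x) = cst Ω 0 c x
    abel
  have hfin : (HP (n - j) (r + 1) (bc n) X Y * cst (dF μ)) 0 c x = cst (Ω ^ n) 0 c x := by
    show (HP (n - j) (r + 1) (bc n) X Y) 0 c x * cst (dF μ) 0 c x = _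
    rw [HP_apply, hmu, halg, hsum, NCA_cst_pow csm]
    rfl
  rw [hfin]
  rfl

theorem NCA_top (n : ℕ) (M : Type) [TopologicalSpace M] [T2Space M]
    [SecondCountableTopology M] [ChartedSpace (EE (2 * n)) M] [IsManifold 𝓘(ℝ, EE (2 * n)) ∞ M]
    [MeasurableSpace M] [BorelSpace M] (Ω : Fam (2 * n) M) (vol : Measure M)
    (hΩ : IsSymplectic n Ω) (hvol : IsVol n Ω vol) (hfin : vol univ < ⊤) (k : ℕ)
    (θ : Fam (2 * n) M) (hθ : IsForm k θ) (hdθ : EqF (dF θ) (Ω ^ n)) : NoC M := by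
  classical
  intro p hC
  have hfm : IsFiniteMeasure vol := ⟨hfin⟩
  have : LocallyConnectedSpace M := ChartedSpace.locallyConnectedSpace (EE (2 * n)) M
  obtain ⟨C, hCd⟩ : ∃ C : Set M, C = connectedComponent p := ⟨_, rfl⟩
  rw [← hCd] at hC
  have hCo : IsOpen C := by
    rw [hCd]
    exact isOpen_connectedComponent
  have hCc : IsClosed C := by
    rw [hCd]
    exact isClosed_connectedComponent
  have hCn : C.Nonempty := ⟨p, by rw [hCd]; exact mem_connectedComponent⟩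
  obtain ⟨ι, hι⟩ : ∃ ι : M → ℝ, ι = C.indicator 1 := ⟨_, rfl⟩
  -- the indicator is locally constant
  have hloc : ∀ q : M, ∀ᶠ q' in 𝓝 q, ι q' = ι q := by
    intro q
    by_cases hq : q ∈ C
    · filter_upwards [hCo.mem_nhds hq] with q' hq'
      rw [hι, indicator_of_mem hq, indicator_of_mem hq']
      rfl
    · filter_upwards [hCc.isOpen_compl.mem_nhds hq] with q' hq'
      rw [hι, indicator_of_notMem hq, indicator_of_notMem hq']
  have hlocc : ∀ c ∈ atlas (EE (2 * n)) M, ∀ x ∈ c.target,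
      ∀ᶠ y in 𝓝 x, ι (c.symm y) = ι (c.symm x) := by
    intro c _ x hx
    have hcont : ContinuousAt c.symm x := c.symm.continuousAt hx
    exact hcont.eventually (hloc (c.symm x))
  have hsm : ∀ c ∈ atlas (EE (2 * n)) M, ContDiffOn ℝ ∞ (fun x => ι (c.symm x)) c.target := by
    intro c hc x hx
    apply ContDiffAt.contDiffWithinAt
    refine ContDiffAt.congr_of_eventuallyEq (f := fun _ => ι (c.symm x)) contDiffAt_const ?_
    exact hlocc c hc x hx
  have hf : IsForm k (fun c x => ι (c.symm x) • θ c x) :=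
    (q_FO2 (2 * n) M).2.2.2.2.2.2.1 k θ ι hsm hθ
  have hcs : CS C (fun c x => ι (c.symm x) • θ c x) := by
    intro c _ x _ hx
    show ι (c.symm x) • θ c x = 0
    rw [hι, indicator_of_notMem hx, zero_smul]
  have hst := q_STM n M Ω vol hΩ hvol C hC k _ hf hcs
  have hdf : ∀ c ∈ atlas (EE (2 * n)) M, ∀ x ∈ c.target,
      dF (fun c x => ι (c.symm x) • θ c x) c x = ι (c.symm x) • (Ω c x) ^ n := by
    intro c hc x hx
    have e0 : D (fun y => ι (c.symm y) • θ c y) x = ι (c.symm x) • D (θ c) x := by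
      have e1 : fderiv ℝ (fun y => ι (c.symm y) • θ c y) x =
          fderiv ℝ (fun y => ι (c.symm x) • θ c y) x := by
        apply Filter.EventuallyEq.fderiv_eq
        filter_upwards [hlocc c hc x hx] with y hy
        rw [hy]
      have e2 : fderiv ℝ (fun y => ι (c.symm x) • θ c y) x = ι (c.symm x) • fderiv ℝ (θ c) x :=
        congrFun (fderiv_const_smul_field (𝕜 := ℝ) (f := θ c) (ι (c.symm x))) x
      unfold D
      rw [e1, e2, Finset.smul_sum]
      refine Finset.sum_congr rfl fun i _ => ?_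
      rw [← mul_smul_comm]
      rfl
    show D (fun y => ι (c.symm y) • θ c y) x = _
    rw [e0]
    have e3 : D (θ c) x = (Ω ^ n) c x := hdθ c hc x hx
    rw [e3]
    rfl
  have hdn : ∀ q : M, dn n Ω (dF (fun c x => ι (c.symm x) • θ c x)) q = ι q := by
    intro q
    have hca : chartAt (EE (2 * n)) q ∈ atlas (EE (2 * n)) M := chart_mem_atlas _ _
    have hqs : q ∈ (chartAt (EE (2 * n)) q).source := mem_chart_source _ _
    have hqt : chartAt (EE (2 * n)) q q ∈ (chartAt (EE (2 * n)) q).target :=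
      (chartAt (EE (2 * n)) q).map_source hqs
    have hne := (q_DNC n M Ω hΩ).1 _ hca _ hqt
    unfold dn
    rw [hdf _ hca _ hqt, map_smul, smul_eq_mul, mul_div_assoc, div_self hne, mul_one,
      (chartAt (EE (2 * n)) q).left_inv hqs]
  have hpos : 0 < vol C := (q_VOL n M Ω vol hΩ hvol).1 C hCo hCn
  have hint : ∫ q, ι q ∂vol = (vol C).toReal := by
    rw [hι, integral_indicator hCo.measurableSet]
    simp [Measure.real]
  have h0 : (vol C).toReal = 0 := by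
    rw [← hint, ← hst]
    exact integral_congr_ae (Filter.Eventually.of_forall fun q => (hdn q).symm)
  have h1 : 0 < (vol C).toReal := ENNReal.toReal_pos hpos.ne' (measure_ne_top _ _)
  exact h1.ne' h0

theorem p_NCA (hPLA : Stmt_PLA) (hALP : Stmt_ALP) (hDFA : Stmt_DFA) (hDDA : Stmt_DDA)
    (hLBP : Stmt_LBP) (hHPC : Stmt_HPC) (hCSD : Stmt_CSD) : Stmt_NCA := by
  intro n M _ _ _ _ _ _ _ Ω μ vol hΩ hvol hfin r j α β hj hrj hαβ hμ hdμ
  obtain ⟨k, θ, hθ, hdθ⟩ := NCA_prim hPLA hALP hDFA hDDA hLBP hHPC hCSD n M Ω μ hΩ r j α β hj hrj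
    hαβ hμ hdμ
  exact NCA_top n M Ω vol hΩ hvol hfin k θ hθ hdθ

end HDE
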