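import Pool.Agent.Work.MP_c3bd4f_he.Interface

set_option autoImplicit false

/-! # Block NCC: closed functions of compact support vanish -/

open scoped ContDiff Manifold Topology
open Set MeasureTheory

noncomputable section

namespace HDE

open HDC

theorem NCC_scalar {N : ℕ} (a : Lam N) (ha : a ∈ ⋀[ℝ]^0 (VV N)) :
    a = algebraMap ℝ (Lam N) (ExteriorAlgebra.algebraMapInv a) := by
  have ha' : a ∈ (LinearMap.range (ExteriorAlgebra.ι ℝ : VV N →ₗ[ℝ] Lam N)) ^ 0 := ha
  rw [pow_zero] at ha'
  obtain ⟨r, hr⟩ := Submodule.mem_one.mp ha'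
  rw [← hr, ExteriorAlgebra.algebraMap_leftInverse]

theorem p_NCC : Stmt_NCC := by
  intro N M _ _ _ hM K f hK hf hd hs
  -- the function
  let u : M → ℝ := fun p =>
    ExteriorAlgebra.algebraMapInv (f (chartAt (EE N) p) (chartAt (EE N) p p))
  have hsc : ∀ c ∈ atlas (EE N) M, ∀ x ∈ c.target,
      f c x = algebraMap ℝ (Lam N) (ExteriorAlgebra.algebraMapInv (f c x)) :=
    fun c hc x hx => NCC_scalar _ (hf.deg c hc x hx)
  have hA : ∀ c ∈ atlas (EE N) M, ∀ x ∈ c.target, f c x = algebraMap ℝ (Lam N) (u (c.symm x)) := by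
    intro c hc x hx
    have h1 := hf.compat c hc (chartAt (EE N) (c.symm x)) (chart_mem_atlas _ _) x hx
      (mem_chart_source _ _)
    have h2 := hsc (chartAt (EE N) (c.symm x)) (chart_mem_atlas _ _)
      (chartAt (EE N) (c.symm x) (c.symm x)) (mem_chart_target _ _)
    rw [h1, h2, AlgHom.commutes]
  have hA' : ∀ c ∈ atlas (EE N) M, ∀ x ∈ c.target,
      ExteriorAlgebra.algebraMapInv (f c x) = u (c.symm x) := by
    intro c hc x hx
    rw [hA c hc x hx, ExteriorAlgebra.algebraMap_leftInverse]
  -- the linear functional is smooth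
  let L : Lam N →L[ℝ] ℝ := LinearMap.toContinuousLinearMap
    (ExteriorAlgebra.algebraMapInv (R := ℝ) (M := VV N)).toLinearMap
  have hdiff : ∀ c ∈ atlas (EE N) M, ∀ x ∈ c.target,
      DifferentiableAt ℝ (fun y => ExteriorAlgebra.algebraMapInv (f c y)) x := by
    intro c hc x hx
    have h1 : ContDiffAt ℝ ∞ (f c) x :=
      (hf.smooth c hc).contDiffAt (c.open_target.mem_nhds hx)
    have h2 : DifferentiableAt ℝ (f c) x := h1.differentiableAt (by simp)
    exact L.differentiableAt.comp x h2
  have hzero : ∀ c ∈ atlas (EE N) M, ∀ x ∈ c.target,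
      fderiv ℝ (fun y => ExteriorAlgebra.algebraMapInv (f c y)) x = 0 := by
    intro c hc x hx
    have h1 := (q_DDZ N).2 (fun y => ExteriorAlgebra.algebraMapInv (f c y)) x (hdiff c hc x hx)
    have h2 : f c =ᶠ[𝓝 x] fun y => algebraMap ℝ (Lam N) (ExteriorAlgebra.algebraMapInv (f c y)) := by
      filter_upwards [c.open_target.mem_nhds hx] with y hy
      exact hsc c hc y hy
    have h3 : D (f c) x = D (fun y => algebraMap ℝ (Lam N)
        (ExteriorAlgebra.algebraMapInv (f c y))) x := by
      unfold D
      rw [h2.fderiv_eq]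
    have h4 : D (f c) x = 0 := hd c hc x hx
    rw [h3, h1] at h4
    have h5 : (fderiv ℝ (fun y => ExteriorAlgebra.algebraMapInv (f c y)) x).toLinearMap = 0 := by
      have hinj : Function.Injective (ExteriorAlgebra.ι ℝ : VV N → Lam N) :=
        (ExteriorAlgebra.ι_leftInverse (R := ℝ) (M := VV N)).injective
      apply hinj
      rw [map_zero]
      exact h4
    ext v
    exact congrArg (fun l : VV N => l v) h5
  -- locally constant
  have hloc : IsLocallyConstant u := by
    rw [IsLocallyConstant.iff_exists_open]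
    intro p
    have hc := chart_mem_atlas (EE N) p
    have hp : chartAt (EE N) p p ∈ (chartAt (EE N) p).target := mem_chart_target _ _
    obtain ⟨r, hr, hb⟩ := Metric.isOpen_iff.mp (chartAt (EE N) p).open_target _ hp
    refine ⟨(chartAt (EE N) p).source ∩ (chartAt (EE N) p) ⁻¹' Metric.ball (chartAt (EE N) p p) r,
      (chartAt (EE N) p).isOpen_inter_preimage Metric.isOpen_ball,
      ⟨mem_chart_source _ _, Metric.mem_ball_self hr⟩, ?_⟩
    rintro q ⟨hq1, hq2⟩
    have h1 := Metric.isOpen_ball.is_const_of_fderiv_eq_zero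
      (convex_ball (chartAt (EE N) p p) r).isPreconnected
      (f := fun y => ExteriorAlgebra.algebraMapInv (f (chartAt (EE N) p) y))
      (fun y hy => (hdiff _ hc y (hb hy)).differentiableWithinAt)
      (fun y hy => hzero _ hc y (hb hy)) hq2 (Metric.mem_ball_self hr)
    have h2 := hA' _ hc _ (hb hq2)
    have h3 := hA' _ hc _ hp
    rw [(chartAt (EE N) p).left_inv hq1] at h2
    rw [(chartAt (EE N) p).left_inv (mem_chart_source _ _)] at h3
    rw [← h2, ← h3]
    exact h1
  have hu : ∀ p, u p = 0 := by
    intro p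
    by_contra hne
    have hsub : connectedComponent p ⊆ K := by
      intro q hq
      by_contra hqK
      have h1 : u q = u p := hloc.apply_eq_of_isPreconnected isPreconnected_connectedComponent
        hq mem_connectedComponent
      have h2 : f (chartAt (EE N) q) (chartAt (EE N) q q) = 0 := by
        apply hs _ (chart_mem_atlas _ _) _ (mem_chart_target _ _)
        rw [(chartAt (EE N) q).left_inv (mem_chart_source _ _)]
        exact hqK
      have h3 : u q = 0 := by
        show ExteriorAlgebra.algebraMapInv (f (chartAt (EE N) q) (chartAt (EE N) q q)) = 0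
        rw [h2, map_zero]
      exact hne (h1 ▸ h3)
    exact hM p (hK.of_isClosed_subset isClosed_connectedComponent hsub)
  intro c hc x hx
  rw [hA c hc x hx, hu, map_zero]
  rfl

end HDE
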