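import Pool.Agent.Work.MP_c3bd4f_he.Interface

set_option autoImplicit false

/-!
# Block NLA (typed by helper55): the integral is linear
-/

open scoped ContDiff Manifold Topology
open Set MeasureTheory

noncomputable section

namespace HDE

open HDC

section

variable {n : ℕ} {M : Type} [TopologicalSpace M] [T2Space M]
  [SecondCountableTopology M] [ChartedSpace (EE (2 * n)) M] [IsManifold 𝓘(ℝ, EE (2 * n)) ∞ M]
  [MeasurableSpace M] [BorelSpace M]

/-- The second components. -/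
def NLA_s (F : PFam (2 * n) M) (t : ℝ) : Fam (2 * n) M := fun c x => (F t c x).2

omit [T2Space M] [SecondCountableTopology M] [IsManifold 𝓘(ℝ, EE (2 * n)) ∞ M]
  [MeasurableSpace M] [BorelSpace M] in
theorem NLA_add (Ω : Fam (2 * n) M) (F G : PFam (2 * n) M) (t : ℝ) (p : M) :
    dn n Ω (NLA_s (F + G) t) p = dn n Ω (NLA_s F t) p + dn n Ω (NLA_s G t) p := by
  unfold dn
  have h : NLA_s (F + G) t (chartAt (EE (2 * n)) p) (chartAt (EE (2 * n)) p p) =
      NLA_s F t (chartAt (EE (2 * n)) p) (chartAt (EE (2 * n)) p p) +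
      NLA_s G t (chartAt (EE (2 * n)) p) (chartAt (EE (2 * n)) p p) := rfl
  rw [h, map_add, add_div]

omit [T2Space M] [SecondCountableTopology M] [IsManifold 𝓘(ℝ, EE (2 * n)) ∞ M]
  [MeasurableSpace M] [BorelSpace M] in
theorem NLA_smul (Ω : Fam (2 * n) M) (F : PFam (2 * n) M) (r t : ℝ) (p : M) :
    dn n Ω (NLA_s (r • F) t) p = r * dn n Ω (NLA_s F t) p := by
  unfold dn
  have h : NLA_s (r • F) t (chartAt (EE (2 * n)) p) (chartAt (EE (2 * n)) p p) =
      r • NLA_s F t (chartAt (EE (2 * n)) p) (chartAt (EE (2 * n)) p p) := rfl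
  rw [h, map_smul, smul_eq_mul, mul_div_assoc]

theorem NLA_int (Ω : Fam (2 * n) M) (vol : Measure M) (K : Set M) (hs : Sg n Ω vol K)
    (F : PFam (2 * n) M) (hF : DFm (2 * n + 1) F)
    (hFK : ∀ t ∈ Icc (0 : ℝ) 1, ∀ c ∈ atlas (EE (2 * n)) M, ∀ x ∈ c.target, c.symm x ∉ K →
      F t c x = 0) :
    (∀ t ∈ Icc (0 : ℝ) 1, Integrable (dn n Ω (NLA_s F t)) vol) ∧
    IntervalIntegrable (fun t => ∫ p, dn n Ω (NLA_s F t) p ∂vol) volume 0 1 := by
  have hfin : IsFiniteMeasure vol := hs.fin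
  have hT : TForm (2 * n) (NLA_s F) := hF.f1 (2 * n) rfl
  have hCS : ∀ t ∈ Icc (0 : ℝ) 1, CS K (NLA_s F t) := by
    intro t ht c hc x hx hxK
    show (F t c x).2 = 0
    rw [hFK t ht c hc x hx hxK]
    rfl
  refine ⟨fun t ht => q_INT n M Ω vol hs.symp (2 * n) (NLA_s F t) K (hT.form t ht) hs.cpt
    (hCS t ht), ?_⟩
  obtain ⟨-, -, D3, -, D5⟩ := q_DNC n M Ω hs.symp
  obtain ⟨W, hW⟩ : ∃ W : M → ℝ → ℝ, ∀ p t, W p t = dn n Ω (NLA_s F t) p :=
    ⟨fun p t => dn n Ω (NLA_s F t) p, fun _ _ => rfl⟩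
  have hWc : ContinuousOn (fun q : ℝ × M => W q.2 q.1) (Icc 0 1 ×ˢ univ) := by
    have h := D3 (2 * n) (NLA_s F) hT
    refine h.congr ?_
    intro q _
    exact hW q.2 q.1
  have hW0 : ∀ t ∈ Icc (0 : ℝ) 1, ∀ p ∉ K, W p t = 0 := by
    intro t ht p hp
    rw [hW]
    exact D5 K (NLA_s F t) (hCS t ht) p hp
  obtain ⟨C, hC⟩ := (isCompact_Icc.prod hs.cpt).exists_bound_of_continuousOn
    (hWc.mono (prod_mono_right (subset_univ K)))
  have hbound : ∀ t ∈ Icc (0 : ℝ) 1, ∀ p, ‖W p t‖ ≤ max C 0 := by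
    intro t ht p
    by_cases hp : p ∈ K
    · exact (hC (t, p) ⟨ht, hp⟩).trans (le_max_left _ _)
    · rw [hW0 t ht p hp, norm_zero]
      exact le_max_right _ _
  have h4 : vol.prod ((volume : Measure ℝ).restrict (Ioc 0 1)) =
      (vol.prod (volume : Measure ℝ)).restrict ((univ : Set M) ×ˢ Ioc (0 : ℝ) 1) := by
    rw [← Measure.prod_restrict, Measure.restrict_univ]
  have hmeas : AEStronglyMeasurable (Function.uncurry W)
      (vol.prod (volume.restrict (Ioc 0 1))) := by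
    have h1 : ContinuousOn (Function.uncurry W) ((univ : Set M) ×ˢ Icc (0 : ℝ) 1) := by
      have h2 : ContinuousOn (fun q : M × ℝ => (q.2, q.1)) ((univ : Set M) ×ˢ Icc (0 : ℝ) 1) := by
        fun_prop
      exact hWc.comp h2 (fun q hq => ⟨hq.2, mem_univ _⟩)
    have h3 : ContinuousOn (Function.uncurry W) ((univ : Set M) ×ˢ Ioc (0 : ℝ) 1) :=
      h1.mono (prod_mono_right Ioc_subset_Icc_self)
    rw [h4]
    exact h3.aestronglyMeasurable (MeasurableSet.univ.prod measurableSet_Ioc)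
  have hae : ∀ᵐ q ∂(vol.prod ((volume : Measure ℝ).restrict (Ioc 0 1))),
      ‖Function.uncurry W q‖ ≤ max C 0 := by
    rw [h4, ae_restrict_iff' (MeasurableSet.univ.prod measurableSet_Ioc)]
    refine Filter.Eventually.of_forall ?_
    intro q hq
    exact hbound q.2 ⟨hq.2.1.le, hq.2.2⟩ q.1
  have hIntg : Integrable (Function.uncurry W) (vol.prod (volume.restrict (Ioc 0 1))) :=
    Integrable.of_bound hmeas _ hae
  have h5 := hIntg.integral_prod_right
  rw [intervalIntegrable_iff_integrableOn_Ioc_of_le zero_le_one]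
  refine h5.congr (Filter.Eventually.of_forall fun t => ?_)
  exact integral_congr_ae (Filter.Eventually.of_forall fun p => hW p t)

end

theorem p_NLA (hDFA : Stmt_DFA) : Stmt_NLA := by
  intro n M _ _ _ _ _ _ _ Ω vol K hs
  obtain ⟨A1, A2, -, -, A5, -, -, A8⟩ := hDFA (2 * n) M
  have hJ : ∀ F : PFam (2 * n) M, JJ n Ω vol F =
      ∫ t in (0 : ℝ)..1, ∫ p, dn n Ω (NLA_s F t) p ∂vol := fun F => rfl
  have h01 : uIcc (0 : ℝ) 1 = Icc 0 1 := uIcc_of_le zero_le_one
  have P1 : ∀ F G : PFam (2 * n) M, DFm (2 * n + 1) F → DFm (2 * n + 1) G →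
      (∀ t ∈ Icc (0 : ℝ) 1, ∀ c ∈ atlas (EE (2 * n)) M, ∀ x ∈ c.target, c.symm x ∉ K →
        F t c x = 0) →
      (∀ t ∈ Icc (0 : ℝ) 1, ∀ c ∈ atlas (EE (2 * n)) M, ∀ x ∈ c.target, c.symm x ∉ K →
        G t c x = 0) → JJ n Ω vol (F + G) = JJ n Ω vol F + JJ n Ω vol G := by
    intro F G hF hG hFK hGK
    obtain ⟨f1, f2⟩ := NLA_int Ω vol K hs F hF hFK
    obtain ⟨g1, g2⟩ := NLA_int Ω vol K hs G hG hGK
    rw [hJ, hJ, hJ, ← intervalIntegral.integral_add f2 g2]
    refine intervalIntegral.integral_congr ?_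
    intro t ht
    rw [h01] at ht
    show ∫ p, dn n Ω (NLA_s (F + G) t) p ∂vol = (∫ p, dn n Ω (NLA_s F t) p ∂vol) +
      ∫ p, dn n Ω (NLA_s G t) p ∂vol
    rw [← integral_add (f1 t ht) (g1 t ht)]
    exact integral_congr_ae (Filter.Eventually.of_forall fun p => NLA_add Ω F G t p)
  have P2 : ∀ (F : PFam (2 * n) M) (r : ℝ), JJ n Ω vol (r • F) = r * JJ n Ω vol F := by
    intro F r
    rw [hJ, hJ, ← intervalIntegral.integral_const_mul]
    refine intervalIntegral.integral_congr ?_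
    intro t _
    show ∫ p, dn n Ω (NLA_s (r • F) t) p ∂vol = r * ∫ p, dn n Ω (NLA_s F t) p ∂vol
    rw [← integral_const_mul]
    exact integral_congr_ae (Filter.Eventually.of_forall fun p => NLA_smul Ω F r t p)
  have P3 : ∀ F G : PFam (2 * n) M, EqP F G → JJ n Ω vol F = JJ n Ω vol G := by
    intro F G h
    rw [hJ, hJ]
    refine intervalIntegral.integral_congr ?_
    intro t ht
    rw [h01] at ht
    show ∫ p, dn n Ω (NLA_s F t) p ∂vol = ∫ p, dn n Ω (NLA_s G t) p ∂vol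
    have e : dn n Ω (NLA_s F t) = dn n Ω (NLA_s G t) := by
      refine q_CNG.2 n M Ω (NLA_s F t) (NLA_s G t) ?_
      intro c hc x hx
      show (F t c x).2 = (G t c x).2
      rw [h t ht c hc x hx]
    rw [e]
  have Padd : ∀ F G : PFam (2 * n) M, Nl n Ω vol K F → Nl n Ω vol K G →
      Nl n Ω vol K (F + G) := by
    intro F G hF hG
    refine ⟨(A1 _ F G hF.frm hG.frm).1, ?_, ?_⟩
    · intro t ht c hc x hx hxK
      show F t c x + G t c x = 0
      rw [hF.cs t ht c hc x hx hxK, hG.cs t ht c hc x hx hxK, add_zero]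
    · rw [P1 F G hF.frm hG.frm hF.cs hG.cs, hF.int, hG.int, add_zero]
  have Psm : ∀ (F : PFam (2 * n) M) (r : ℝ), Nl n Ω vol K F → Nl n Ω vol K (r • F) := by
    intro F r hF
    refine ⟨A2 _ F r hF.frm, ?_, ?_⟩
    · intro t ht c hc x hx hxK
      show r • F t c x = 0
      rw [hF.cs t ht c hc x hx hxK, smul_zero]
    · rw [P2, hF.int, mul_zero]
  refine ⟨P1, P2, P3, ?_, ?_, ?_⟩
  · intro F G r hF hG
    refine ⟨Padd F G hF hG, ?_, Psm F r hF⟩
    have e : F - G = F + (-1 : ℝ) • G := by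
      rw [neg_one_smul, sub_eq_add_neg]
    rw [e]
    exact Padd F _ hF (Psm G (-1) hG)
  · intro F G h hF
    refine ⟨A5 _ F G h hF.frm, ?_, ?_⟩
    · intro t ht c hc x hx hxK
      rw [← h t ht c hc x hx]
      exact hF.cs t ht c hc x hx hxK
    · rw [← P3 F G h]
      exact hF.int
  · refine ⟨A8 _, fun t ht c hc x hx hxK => rfl, ?_⟩
    have e : (0 : PFam (2 * n) M) = (0 : ℝ) • (0 : PFam (2 * n) M) := by rw [zero_smul]
    rw [e, P2, zero_mul]

end HDE
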