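import Pool.Agent.Work.MP_c3bd4f_he.Interface

/-! # Block PLA: homogeneous elements of `PL N` (helper84) -/

open scoped ContDiff Manifold Topology
open Set MeasureTheory

noncomputable section

namespace HDE

open HDC

theorem PLA_mul {N k l m : ℕ} {a b : Lam N} (ha : a ∈ ⋀[ℝ]^k (VV N)) (hb : b ∈ ⋀[ℝ]^l (VV N))
    (h : k + l = m) : a * b ∈ ⋀[ℝ]^m (VV N) := by
  subst h
  have h1 : (⋀[ℝ]^(k + l) (VV N) : Submodule ℝ (Lam N)) = (⋀[ℝ]^k (VV N)) * (⋀[ℝ]^l (VV N)) :=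
    pow_add _ _ _
  rw [h1]
  exact Submodule.mul_mem_mul ha hb

theorem PLA_zero {N : ℕ} {a : Lam N} (ha : a ∈ ⋀[ℝ]^0 (VV N)) :
    ∃ s : ℝ, a = algebraMap ℝ (Lam N) s := by
  have h1 : (⋀[ℝ]^0 (VV N) : Submodule ℝ (Lam N)) = 1 := pow_zero _
  rw [h1, Submodule.mem_one] at ha
  obtain ⟨s, hs⟩ := ha
  exact ⟨s, hs.symm⟩

theorem PLA_one {N : ℕ} {a : Lam N} (ha : a ∈ ⋀[ℝ]^1 (VV N)) : ∃ β : VV N, a = io β := by
  have h1 : (⋀[ℝ]^1 (VV N) : Submodule ℝ (Lam N)) = LinearMap.range (ExteriorAlgebra.ι ℝ) :=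
    pow_one _
  rw [h1, LinearMap.mem_range] at ha
  obtain ⟨s, hs⟩ := ha
  exact ⟨s, hs.symm⟩

theorem PLA_comm0 {N : ℕ} {a : Lam N} (ha : a ∈ ⋀[ℝ]^0 (VV N)) (z : Lam N) : a * z = z * a := by
  obtain ⟨s, rfl⟩ := PLA_zero ha
  exact Algebra.commutes s z

theorem PLA_inv0 {N : ℕ} {a : Lam N} (ha : a ∈ ⋀[ℝ]^0 (VV N)) : inv a = a := by
  have h := (HDC.q_DEG N).1 0 a ha
  rw [h, pow_zero, one_smul]

theorem PLA_inv1 {N : ℕ} {a : Lam N} (ha : a ∈ ⋀[ℝ]^1 (VV N)) : inv a = -a := by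
  have h := (HDC.q_DEG N).1 1 a ha
  rw [h, pow_one, neg_smul, one_smul]

theorem PLA_inv2 {N : ℕ} {a : Lam N} (ha : a ∈ ⋀[ℝ]^2 (VV N)) : inv a = a := by
  have h := (HDC.q_DEG N).1 2 a ha
  rw [h]
  norm_num

theorem PLA_invmem {N k : ℕ} {a : Lam N} (ha : a ∈ ⋀[ℝ]^k (VV N)) : inv a ∈ ⋀[ℝ]^k (VV N) := by
  rw [(HDC.q_DEG N).1 k a ha]
  exact Submodule.smul_mem _ _ ha

theorem PLA_anti {N : ℕ} {a c : Lam N} (ha : a ∈ ⋀[ℝ]^1 (VV N)) (hc : c ∈ ⋀[ℝ]^1 (VV N)) :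
    a * c = -(c * a) := by
  have h := (HDC.q_DEG N).2.2.2.2.2.1 1 1 a c ha hc
  rw [h]
  norm_num

theorem PLA_1 {N : ℕ} (x y : PL N) (hx : Hg 2 x) : x * y = y * x := by
  have h1 := (HDC.q_CPW N x.1 hx.h0).1 y.1
  have h2 := (HDC.q_CPW N x.1 hx.h0).1 y.2
  obtain ⟨β, hβ⟩ := PLA_one (hx.h1 1 rfl)
  have h3 := (HDC.q_ALG N).1 β y.1
  refine PL.ext ?_ ?_
  · rw [PL.mul_fst, PL.mul_fst]
    exact h1
  · rw [PL.mul_snd, PL.mul_snd, PLA_inv2 hx.h0, hβ, h3, h2, add_comm]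

theorem PLA_2 {N : ℕ} (x y : PL N) (hx : Hg 0 x) : x * y = y * x := by
  refine PL.ext ?_ ?_
  · rw [PL.mul_fst, PL.mul_fst]
    exact PLA_comm0 hx.h0 y.1
  · rw [PL.mul_snd, PL.mul_snd, PLA_inv0 hx.h0, hx.hz rfl, zero_mul, mul_zero, zero_add, add_zero]
    exact PLA_comm0 hx.h0 y.2

theorem PLA_4 {N : ℕ} (x y : PL N) (hx : Hg 1 x) (hy : Hg 1 y) : x * y = -(y * x) := by
  refine PL.ext ?_ ?_
  · rw [PL.neg_fst, PL.mul_fst, PL.mul_fst]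
    exact PLA_anti hx.h0 hy.h0
  · rw [PL.neg_snd, PL.mul_snd, PL.mul_snd, PLA_inv1 hx.h0, PLA_inv1 hy.h0,
      PLA_comm0 (hx.h1 0 rfl) y.1, PLA_comm0 (hy.h1 0 rfl) x.1, neg_mul, neg_mul]
    abel

theorem PLA_3 {N : ℕ} (x : PL N) (hx : Hg 1 x) : x * x = 0 := by
  have h := PLA_4 x x hx hx
  have h2 : x * x + x * x = 0 := by
    nth_rewrite 1 [h]
    exact neg_add_cancel _
  have h3 : (2 : ℝ) • (x * x) = 0 := by rw [two_smul, h2]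
  exact (smul_eq_zero.1 h3).resolve_left two_ne_zero

theorem PLA_5 {N : ℕ} (k l : ℕ) (x y : PL N) (hx : Hg k x) (hy : Hg l y) :
    Hg (k + l) (x * y) := by
  refine ⟨?_, ?_, ?_⟩
  · rw [PL.mul_fst]
    exact PLA_mul hx.h0 hy.h0 rfl
  · intro m hm
    rw [PL.mul_snd]
    refine Submodule.add_mem _ ?_ ?_
    · rcases k with _ | k
      · rw [hx.hz rfl, zero_mul]
        exact Submodule.zero_mem _
      · exact PLA_mul (hx.h1 k rfl) hy.h0 (by omega)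
    · rcases l with _ | l
      · rw [hy.hz rfl, mul_zero]
        exact Submodule.zero_mem _
      · exact PLA_mul (PLA_invmem hx.h0) (hy.h1 l rfl) (by omega)
  · intro h
    rw [PL.mul_snd, hx.hz (by omega), hy.hz (by omega), zero_mul, mul_zero, add_zero]

theorem PLA_6 {N : ℕ} (k : ℕ) (x : PL N) (hx : Hg k x) : inv x.1 = (-1 : ℝ) ^ k • x.1 ∧
    inv x.2 = -((-1 : ℝ) ^ k • x.2) := by
  refine ⟨(HDC.q_DEG N).1 k x.1 hx.h0, ?_⟩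
  rcases k with _ | k
  · rw [hx.hz rfl, map_zero, smul_zero, neg_zero]
  · rw [(HDC.q_DEG N).1 k x.2 (hx.h1 k rfl), pow_succ, mul_neg_one, neg_smul, neg_neg]

theorem PLA_7 {N : ℕ} (k : ℕ) (x y : PL N) (r : ℝ) (hx : Hg k x) (hy : Hg k y) :
    Hg k (x + y) ∧ Hg k (x - y) ∧ Hg k (r • x) ∧ Hg k (0 : PL N) := by
  refine ⟨⟨?_, ?_, ?_⟩, ⟨?_, ?_, ?_⟩, ⟨?_, ?_, ?_⟩, ⟨?_, ?_, ?_⟩⟩
  · rw [PL.add_fst]
    exact Submodule.add_mem _ hx.h0 hy.h0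
  · intro l hl
    rw [PL.add_snd]
    exact Submodule.add_mem _ (hx.h1 l hl) (hy.h1 l hl)
  · intro h
    rw [PL.add_snd, hx.hz h, hy.hz h, add_zero]
  · rw [PL.sub_fst]
    exact Submodule.sub_mem _ hx.h0 hy.h0
  · intro l hl
    rw [PL.sub_snd]
    exact Submodule.sub_mem _ (hx.h1 l hl) (hy.h1 l hl)
  · intro h
    rw [PL.sub_snd, hx.hz h, hy.hz h, sub_zero]
  · rw [PL.smul_fst]
    exact Submodule.smul_mem _ _ hx.h0
  · intro l hl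
    rw [PL.smul_snd]
    exact Submodule.smul_mem _ _ (hx.h1 l hl)
  · intro h
    rw [PL.smul_snd, hx.hz h, smul_zero]
  · rw [PL.zero_fst]
    exact Submodule.zero_mem _
  · intro l _
    rw [PL.zero_snd]
    exact Submodule.zero_mem _
  · intro _
    rw [PL.zero_snd]

theorem PLA_8 {N : ℕ} : Hg 0 (1 : PL N) := by
  refine ⟨?_, fun l hl => absurd hl (by omega), fun _ => PL.one_snd⟩
  rw [PL.one_fst, ← map_one (algebraMap ℝ (Lam N))]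
  exact (HDC.q_DEG N).2.2.2.2.2.2.2 1

theorem PLA_9 {N : ℕ} (x : PL N) (hx : Hg 0 x) : ∃ s : ℝ, x = s • (1 : PL N) := by
  obtain ⟨s, hs⟩ := PLA_zero hx.h0
  refine ⟨s, PL.ext ?_ ?_⟩
  · rw [PL.smul_fst, PL.one_fst, hs, Algebra.algebraMap_eq_smul_one]
  · rw [PL.smul_snd, PL.one_snd, smul_zero]
    exact hx.hz rfl

theorem p_PLA : Stmt_PLA := fun _ =>
  ⟨PLA_1, PLA_2, PLA_3, PLA_4, PLA_5, PLA_6, PLA_7, PLA_8, PLA_9⟩

end HDE
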