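import Pool.Agent.Work.MP_c3bd4f_he.Interface

set_option autoImplicit false

open scoped ContDiff Manifold Topology
open Set MeasureTheory

noncomputable section

namespace HDE

open HDC

theorem PRM_cont {E F : Type} [NormedAddCommGroup E] [NormedSpace ℝ E]
    [NormedAddCommGroup F] [NormedSpace ℝ F] (f : ℝ × E → F) (U : Set E)
    (hf : ContinuousOn f (Icc (0 : ℝ) 1 ×ˢ U)) (t : ℝ) (ht : t ∈ Icc (0 : ℝ) 1) (x : E)
    (hx : x ∈ U) : IntervalIntegrable (fun s => f (s, x)) volume 0 t := by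
  apply ContinuousOn.intervalIntegrable
  have h1 : ContinuousOn (fun s : ℝ => ((s, x) : ℝ × E)) (uIcc 0 t) :=
    (Continuous.prodMk_left x).continuousOn
  refine hf.comp h1 ?_
  intro s hs
  rw [uIcc_of_le ht.1] at hs
  exact ⟨⟨hs.1, hs.2.trans ht.2⟩, hx⟩

theorem PRM_deg {N k : ℕ} (f : ℝ → Lam N) (t : ℝ) (ht : 0 ≤ t)
    (hf : IntervalIntegrable f volume 0 t) (hk : ∀ s ∈ Icc (0 : ℝ) t, f s ∈ ⋀[ℝ]^k (VV N)) :
    (∫ s in (0 : ℝ)..t, f s) ∈ ⋀[ℝ]^k (VV N) := by
  obtain ⟨P, hP1, hP2⟩ := DGD_proj N k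
  have h1 : (∫ s in (0 : ℝ)..t, f s) = ∫ s in (0 : ℝ)..t, P (f s) := by
    apply intervalIntegral.integral_congr
    intro s hs
    rw [uIcc_of_le ht] at hs
    exact (hP1 _ (hk s hs)).symm
  rw [h1, P.intervalIntegral_comp_comm hf]
  exact hP2 _

/-- The linear map `T ↦ ∑ i, dx i * T (ee i)`. -/
def PRM_L (N : ℕ) : (EE N →L[ℝ] Lam N) →L[ℝ] Lam N :=
  ∑ i : Fin N, (LinearMap.toContinuousLinearMap (LinearMap.mulLeft ℝ (dx i : Lam N))).comp
    (ContinuousLinearMap.apply ℝ (Lam N) (ee i))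

theorem PRM_L_apply (N : ℕ) (T : EE N →L[ℝ] Lam N) :
    PRM_L N T = ∑ i : Fin N, dx i * T (ee i) := by
  unfold PRM_L
  rw [ContinuousLinearMap.sum_apply]
  rfl

theorem p_PRM (hPSM : Stmt_PSM) : Stmt_PRM := by
  intro N M _ _ _ k F hF
  have key := fun c (hc : c ∈ atlas (EE N) M) =>
    hPSM (EE N) (Lam N) (fun q => F q.1 c q.2) c.target c.open_target (hF.smooth c hc)
  have hint : ∀ c ∈ atlas (EE N) M, ∀ t ∈ Icc (0 : ℝ) 1, ∀ x ∈ c.target,
      IntervalIntegrable (fun s => F s c x) volume 0 t := fun c hc t ht x hx =>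
    PRM_cont (fun q : ℝ × EE N => F q.1 c q.2) c.target (hF.smooth c hc).continuousOn t ht x hx
  refine ⟨⟨?_, ?_⟩, ?_, ?_⟩
  · intro c hc
    exact (key c hc).1
  · intro t ht
    refine ⟨?_, ?_, ?_⟩
    · intro c hc
      have h1 := (key c hc).1
      have h2 : ContDiffOn ℝ ∞ (fun x : EE N => ((t, x) : ℝ × EE N)) c.target :=
        (contDiff_const.prodMk contDiff_id).contDiffOn
      exact h1.comp h2 (fun x hx => ⟨ht, hx⟩)
    · intro c hc c' hc' x hx hxc
      have hy : c' (c.symm x) ∈ c'.target := c'.map_source hxc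
      have h1 : (∫ s in (0 : ℝ)..t, F s c x) = ∫ s in (0 : ℝ)..t,
          LinearMap.toContinuousLinearMap
            (pb (fderiv ℝ (fun y => c' (c.symm y)) x)).toLinearMap (F s c' (c' (c.symm x))) := by
        apply intervalIntegral.integral_congr
        intro s hs
        rw [uIcc_of_le ht.1] at hs
        exact (hF.form s ⟨hs.1, hs.2.trans ht.2⟩).compat c hc c' hc' x hx hxc
      show (∫ s in (0 : ℝ)..t, F s c x) = _
      rw [h1, ContinuousLinearMap.intervalIntegral_comp_comm _ (hint c' hc' t ht _ hy)]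
      rfl
    · intro c hc x hx
      apply PRM_deg _ t ht.1 (hint c hc t ht x hx)
      intro s hs
      exact (hF.form s ⟨hs.1, hs.2.trans ht.2⟩).deg c hc x hx
  · intro t ht c hc x hx
    have h2 := ((key c hc).2.1 t ht x hx).fderiv
    have hU : (Icc (0 : ℝ) 1 ×ˢ (univ : Set (EE N))) ∩ ((univ : Set ℝ) ×ˢ c.target) =
        Icc (0 : ℝ) 1 ×ˢ c.target := by
      rw [prod_inter_prod, inter_univ, univ_inter]
    have h3 := (HDC.q_PDL (EE N) (Lam N) (fun q => F q.1 c q.2) ((univ : Set ℝ) ×ˢ c.target)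
      (isOpen_univ.prod c.open_target) (by rw [hU]; exact hF.smooth c hc)).2
    rw [hU] at h3
    have h4 := PRM_cont (fun q : ℝ × EE N => fderiv ℝ (fun y => F q.1 c y) q.2) c.target
      h3.continuousOn t ht x hx
    have h5 : ∀ g : EE N → Lam N, D g x = PRM_L N (fderiv ℝ g x) := by
      intro g
      rw [PRM_L_apply]
      rfl
    rw [h5, h2]
    have h6 : (fun s => D (F s c) x) = fun s => PRM_L N (fderiv ℝ (fun y => F s c y) x) := by
      funext s
      exact h5 _
    rw [h6]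
    exact (ContinuousLinearMap.intervalIntegral_comp_comm (PRM_L N) h4).symm
  · intro t ht c hc x hx
    exact (key c hc).2.2 t ht x hx

end HDE
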