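import Pool.Agent.Work.MP_c3bd4f_he.Interface

set_option autoImplicit false

open scoped ContDiff Manifold Topology
open Set MeasureTheory

noncomputable section

namespace HDE

open HDC

/-- the projection onto the unit interval -/
def PSM_pr (s : ℝ) : ℝ := max 0 (min 1 s)

theorem PSM_pr_cont : Continuous PSM_pr := by
  unfold PSM_pr
  fun_prop

theorem PSM_pr_mem (s : ℝ) : PSM_pr s ∈ Icc (0 : ℝ) 1 := by
  unfold PSM_pr
  exact ⟨le_max_left _ _, max_le zero_le_one (min_le_left _ _)⟩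

theorem PSM_pr_eq {s : ℝ} (hs : s ∈ Icc (0 : ℝ) 1) : PSM_pr s = s := by
  unfold PSM_pr
  rw [min_eq_right hs.2, max_eq_right hs.1]

section

variable {E G : Type} [NormedAddCommGroup E] [NormedSpace ℝ E]
  [NormedAddCommGroup G] [NormedSpace ℝ G]

theorem PSM_cg (h : ℝ × E → G) (U : Set E) (hh : ContinuousOn h (Icc 0 1 ×ˢ U)) :
    ContinuousOn (fun q : ℝ × E => h (PSM_pr q.1, q.2)) (univ ×ˢ U) := by
  refine hh.comp ?_ ?_
  · exact ((PSM_pr_cont.comp continuous_fst).prodMk continuous_snd).continuousOn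
  · intro q hq
    exact ⟨PSM_pr_mem _, hq.2⟩

/-- continuity of the primitive of the extension -/
theorem PSM_cont (h : ℝ × E → G) (U : Set E) (hh : ContinuousOn h (Icc 0 1 ×ˢ U)) :
    ContinuousOn (fun q : ℝ × E => ∫ s in (0 : ℝ)..q.1, h (PSM_pr s, q.2)) (univ ×ˢ U) := by
  have h1 : Continuous (fun p : U × ℝ => h (PSM_pr p.2, (p.1 : E))) := by
    refine hh.comp_continuous ?_ ?_
    · exact (PSM_pr_cont.comp continuous_snd).prodMk (continuous_subtype_val.comp continuous_fst)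
    · intro p
      exact ⟨PSM_pr_mem _, p.1.2⟩
  have h2 : Continuous (fun p : U × ℝ => ∫ s in (0 : ℝ)..p.2, h (PSM_pr s, (p.1 : E))) :=
    intervalIntegral.continuous_parametric_primitive_of_continuous
      (f := fun (x : U) (s : ℝ) => h (PSM_pr s, (x : E))) h1
  have h3 : Continuous (fun q : (univ ×ˢ U : Set (ℝ × E)) =>
      ((⟨q.1.2, q.2.2⟩ : U), q.1.1)) := by
    refine Continuous.prodMk ?_ ?_
    · exact (continuous_snd.comp continuous_subtype_val).subtype_mk _
    · exact continuous_fst.comp continuous_subtype_val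
  rw [continuousOn_iff_continuous_restrict]
  exact h2.comp h3

theorem PSM_slice (h : ℝ × E → G) (U : Set E) (hh : ContinuousOn h (Icc 0 1 ×ˢ U)) (x : E)
    (hx : x ∈ U) : Continuous (fun s : ℝ => h (PSM_pr s, x)) := by
  refine hh.comp_continuous ?_ ?_
  · exact PSM_pr_cont.prodMk continuous_const
  · intro s
    exact ⟨PSM_pr_mem _, hx⟩

variable [FiniteDimensional ℝ E]

/-- derivative in the second variable -/
theorem PSM_dx (h : ℝ × E → G) (h' : ℝ × E → E →L[ℝ] G) (U : Set E) (hU : IsOpen U)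
    (hh : ContinuousOn h (Icc 0 1 ×ˢ U)) (hh' : ContinuousOn h' (Icc 0 1 ×ˢ U))
    (hd : ∀ s ∈ Icc (0 : ℝ) 1, ∀ x ∈ U, HasFDerivAt (fun y => h (s, y)) (h' (s, x)) x)
    (t : ℝ) (x : E) (hx : x ∈ U) :
    HasFDerivAt (fun y => ∫ s in (0 : ℝ)..t, h (PSM_pr s, y))
      (∫ s in (0 : ℝ)..t, h' (PSM_pr s, x)) x := by
  have hprop : ProperSpace E := FiniteDimensional.proper ℝ E
  obtain ⟨r, hr, hrU⟩ := Metric.isOpen_iff.1 hU x hx
  have hball : Metric.closedBall x (r / 2) ⊆ U :=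
    (Metric.closedBall_subset_ball (by linarith)).trans hrU
  obtain ⟨C, hC⟩ := (isCompact_Icc.prod (isCompact_closedBall x (r / 2))).exists_bound_of_continuousOn
    (hh'.mono (prod_mono (le_refl (Icc (0 : ℝ) 1)) hball))
  refine intervalIntegral.hasFDerivAt_integral_of_dominated_of_fderiv_le
    (F := fun (y : E) (s : ℝ) => h (PSM_pr s, y)) (F' := fun (y : E) (s : ℝ) => h' (PSM_pr s, y))
    (bound := fun _ => C) (s := Metric.closedBall x (r / 2))
    (Metric.closedBall_mem_nhds x (by linarith)) ?_ ?_ ?_ ?_ ?_ ?_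
  · filter_upwards [hU.mem_nhds hx] with y hy
    exact (PSM_slice h U hh y hy).aestronglyMeasurable
  · exact (PSM_slice h U hh x hx).intervalIntegrable _ _
  · exact (PSM_slice h' U hh' x hx).aestronglyMeasurable
  · refine Filter.Eventually.of_forall fun s _ y hy => ?_
    exact hC (PSM_pr s, y) ⟨PSM_pr_mem s, hy⟩
  · exact intervalIntegrable_const
  · refine Filter.Eventually.of_forall fun s _ y hy => ?_
    exact hd _ (PSM_pr_mem s) y (hball hy)

/-- derivative in the first variable -/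
theorem PSM_dt [CompleteSpace G] (h : ℝ × E → G) (U : Set E)
    (hh : ContinuousOn h (Icc 0 1 ×ˢ U)) (t : ℝ) (x : E) (hx : x ∈ U) :
    HasDerivAt (fun u => ∫ s in (0 : ℝ)..u, h (PSM_pr s, x)) (h (PSM_pr t, x)) t := by
  have hc := PSM_slice h U hh x hx
  exact intervalIntegral.integral_hasDerivAt_right (hc.intervalIntegrable _ _)
    (hc.stronglyMeasurableAtFilter _ _) hc.continuousAt

/-- the total derivative -/
theorem PSM_tot [CompleteSpace G] (h : ℝ × E → G) (h' : ℝ × E → E →L[ℝ] G) (U : Set E)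
    (hU : IsOpen U) (hh : ContinuousOn h (Icc 0 1 ×ˢ U)) (hh' : ContinuousOn h' (Icc 0 1 ×ˢ U))
    (hd : ∀ s ∈ Icc (0 : ℝ) 1, ∀ x ∈ U, HasFDerivAt (fun y => h (s, y)) (h' (s, x)) x)
    (q : ℝ × E) (hq : q.2 ∈ U) :
    HasFDerivAt (fun q : ℝ × E => ∫ s in (0 : ℝ)..q.1, h (PSM_pr s, q.2))
      ((ContinuousLinearMap.toSpanSingleton ℝ (h (PSM_pr q.1, q.2))).coprod
        (∫ s in (0 : ℝ)..q.1, h' (PSM_pr s, q.2))) q := by
  have hmem : (univ ×ˢ U : Set (ℝ × E)) ∈ 𝓝 q :=
    (isOpen_univ.prod hU).mem_nhds ⟨mem_univ _, hq⟩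
  have := hasStrictFDerivAt_uncurry_coprod (𝕜 := ℝ) (u := q)
    (f := fun (t : ℝ) (x : E) => ∫ s in (0 : ℝ)..t, h (PSM_pr s, x))
    (f₁ := fun (t : ℝ) (x : E) => ContinuousLinearMap.toSpanSingleton ℝ (h (PSM_pr t, x)))
    (f₂ := fun (t : ℝ) (x : E) => ∫ s in (0 : ℝ)..t, h' (PSM_pr s, x)) ?_ ?_ ?_ ?_
  · exact this.hasFDerivAt
  · filter_upwards [hmem] with v hv
    exact (PSM_dt h U hh v.1 v.2 hv.2).hasFDerivAt
  · filter_upwards [hmem] with v hv
    exact PSM_dx h h' U hU hh hh' hd v.1 v.2 hv.2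
  · have h1 := (PSM_cg h U hh).continuousAt hmem
    exact ((ContinuousLinearMap.toSpanSingletonCLE (𝕜 := ℝ) (E := G)).continuous.continuousAt).comp h1
  · exact (PSM_cont h' U hh').continuousAt hmem

end

theorem PSM_congr {G : Type} [NormedAddCommGroup G] [NormedSpace ℝ G] (f : ℝ → G) {t : ℝ}
    (ht : t ∈ Icc (0 : ℝ) 1) :
    ∫ s in (0 : ℝ)..t, f s = ∫ s in (0 : ℝ)..t, f (PSM_pr s) := by
  refine intervalIntegral.integral_congr fun s hs => ?_
  rw [uIcc_of_le ht.1] at hs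
  show f s = f (PSM_pr s)
  rw [PSM_pr_eq ⟨hs.1, hs.2.trans ht.2⟩]

theorem p_PSM : Stmt_PSM := by
  intro E F _ _ _ _ _ _ f U hU hf
  have hset : ((Icc (0 : ℝ) 1 ×ˢ univ) ∩ (univ ×ˢ U) : Set (ℝ × E)) = Icc 0 1 ×ˢ U := by
    ext q
    simp
  -- the basic facts for all smooth functions
  have base : ∀ (G : Type) [NormedAddCommGroup G] [NormedSpace ℝ G] (h : ℝ × E → G),
      ContDiffOn ℝ ∞ h (Icc 0 1 ×ˢ U) →
      ContDiffOn ℝ ∞ (fun q : ℝ × E => fderiv ℝ (fun y => h (q.1, y)) q.2) (Icc 0 1 ×ˢ U) ∧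
      ∀ s ∈ Icc (0 : ℝ) 1, ∀ x ∈ U,
        HasFDerivAt (fun y => h (s, y)) (fderiv ℝ (fun y => h (s, y)) x) x := by
    intro G _ _ h hh
    have h1 := HDC.q_PDL E G h (univ ×ˢ U) (isOpen_univ.prod hU) (by rw [hset]; exact hh)
    rw [hset] at h1
    refine ⟨h1.2, fun s hs x hx => ?_⟩
    exact ((h1.1 (s, x) ⟨hs, hx⟩).differentiableAt (by simp)).hasFDerivAt
  have hfd : ∀ t ∈ Icc (0 : ℝ) 1, ∀ x ∈ U, HasFDerivAt (fun y => ∫ s in (0 : ℝ)..t, f (s, y))
      (∫ s in (0 : ℝ)..t, fderiv ℝ (fun y => f (s, y)) x) x := by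
    intro t ht x hx
    obtain ⟨h1, h2⟩ := base F f hf
    have h3 := PSM_dx f (fun q : ℝ × E => fderiv ℝ (fun y => f (q.1, y)) q.2) U hU
      hf.continuousOn h1.continuousOn h2 t x hx
    have e1 : (fun y => ∫ s in (0 : ℝ)..t, f (s, y)) =
        fun y => ∫ s in (0 : ℝ)..t, f (PSM_pr s, y) := by
      funext y
      exact PSM_congr (fun s => f (s, y)) ht
    rw [e1, PSM_congr (fun s => fderiv ℝ (fun y => f (s, y)) x) ht]
    exact h3
  refine ⟨?_, hfd, ?_⟩
  · have main : ∀ (k : ℕ) (G : Type) [NormedAddCommGroup G] [NormedSpace ℝ G]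
        [FiniteDimensional ℝ G] (h : ℝ × E → G), ContDiffOn ℝ ∞ h (Icc 0 1 ×ˢ U) →
        ContDiffOn ℝ k (fun q : ℝ × E => ∫ s in (0 : ℝ)..q.1, h (s, q.2)) (Icc 0 1 ×ˢ U) := by
      intro k
      induction k with
      | zero =>
        intro G _ _ _ h hh
        rw [Nat.cast_zero, contDiffOn_zero]
        refine ((PSM_cont h U hh.continuousOn).mono
          (prod_mono (subset_univ _) (le_refl U))).congr fun q hq => ?_
        exact PSM_congr (fun s => h (s, q.2)) hq.1
      | succ k ih =>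
        intro G _ _ _ h hh
        have : CompleteSpace G := FiniteDimensional.complete ℝ G
        obtain ⟨h1, h2⟩ := base G h hh
        have hu : UniqueDiffOn ℝ (Icc (0 : ℝ) 1 ×ˢ U) :=
          uniqueDiffOn_Icc_zero_one.prod hU.uniqueDiffOn
        rw [Nat.cast_succ, contDiffOn_succ_iff_hasFDerivWithinAt_of_uniqueDiffOn hu]
        refine ⟨fun hk => absurd hk (by simp), fun q => (ContinuousLinearMap.toSpanSingleton ℝ
          (h q)).comp (ContinuousLinearMap.fst ℝ ℝ E) +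
          (∫ s in (0 : ℝ)..q.1, fderiv ℝ (fun y => h (s, y)) q.2).comp
            (ContinuousLinearMap.snd ℝ ℝ E), ?_, ?_⟩
        · refine ContDiffOn.add ?_ ?_
          · refine ContDiffOn.clm_comp ?_ contDiffOn_const
            exact (ContinuousLinearMap.toSpanSingletonCLE (𝕜 := ℝ) (E := G)).contDiff.comp_contDiffOn
              (hh.of_le (by exact_mod_cast le_top))
          · refine ContDiffOn.clm_comp ?_ contDiffOn_const
            exact ih (E →L[ℝ] G) (fun q : ℝ × E => fderiv ℝ (fun y => h (q.1, y)) q.2) h1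
        · intro q hq
          have h3 := (PSM_tot h (fun q : ℝ × E => fderiv ℝ (fun y => h (q.1, y)) q.2) U hU
            hh.continuousOn h1.continuousOn h2 q hq.2).hasFDerivWithinAt (s := Icc 0 1 ×ˢ U)
          have h4 : (ContinuousLinearMap.toSpanSingleton ℝ
              (h q)).comp (ContinuousLinearMap.fst ℝ ℝ E) +
              (∫ s in (0 : ℝ)..q.1, fderiv ℝ (fun y => h (s, y)) q.2).comp
                (ContinuousLinearMap.snd ℝ ℝ E) =
              (ContinuousLinearMap.toSpanSingleton ℝ (h (PSM_pr q.1, q.2))).coprod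
                (∫ s in (0 : ℝ)..q.1, fderiv ℝ (fun y => h (PSM_pr s, y)) q.2) := by
            rw [PSM_pr_eq hq.1, PSM_congr (fun s => fderiv ℝ (fun y => h (s, y)) q.2) hq.1]
            ext v <;> simp
          show HasFDerivWithinAt _ ((ContinuousLinearMap.toSpanSingleton ℝ
              (h q)).comp (ContinuousLinearMap.fst ℝ ℝ E) +
              (∫ s in (0 : ℝ)..q.1, fderiv ℝ (fun y => h (s, y)) q.2).comp
                (ContinuousLinearMap.snd ℝ ℝ E)) _ _
          rw [h4]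
          refine h3.congr (fun q' hq' => ?_) ?_
          · exact PSM_congr (fun s => h (s, q'.2)) hq'.1
          · exact PSM_congr (fun s => h (s, q.2)) hq.1
    rw [contDiffOn_infty]
    exact fun k => main k F f hf
  · intro t ht x hx
    have : CompleteSpace F := FiniteDimensional.complete ℝ F
    have h1 := PSM_dt f U hf.continuousOn t x hx
    rw [PSM_pr_eq ⟨ht.1.le, ht.2.le⟩] at h1
    refine h1.congr_of_eventuallyEq ?_
    filter_upwards [isOpen_Ioo.mem_nhds ht] with s hs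
    exact PSM_congr (fun s => f (s, x)) ⟨hs.1.le, hs.2.le⟩

end HDE
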