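import Pool.Agent.Work.MP_c3bd4f_he.Interface

set_option autoImplicit false

open scoped ContDiff Manifold Topology
open Set MeasureTheory

noncomputable section

namespace HDE

open HDC

theorem p_S0L (hPLA : Stmt_PLA) (hAL0 : Stmt_AL0) (hDFA : Stmt_DFA) (hDDA : Stmt_DDA)
    (hLBP : Stmt_LBP) (hHPC : Stmt_HPC) (hSTD : Stmt_STD) (hNLA : Stmt_NLA) : Stmt_S0L := by
  intro n M _ _ _ _ _ _ _ Ω vol K hn hS r j hj hjn hrj X Y g dg nu hX hY hg hdg hnu dX dY dgg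
    ddg dnu hV hgdg hdgdg hXr
  obtain ⟨A1, A2, A3, A4, A5, A6, A7, A8⟩ := hDFA (2 * n) M
  obtain ⟨B1, B2, B3, B4, B5⟩ := hDDA (2 * n) M
  obtain ⟨H1, H2⟩ := hHPC (2 * n) M X Y hX hY dX dY
  obtain ⟨Y1, -⟩ := hHPC (2 * n) M Y Y hY hY dY dY
  have hcen : ∀ F : PFam (2 * n) M, DFm 2 F → ∀ t ∈ Icc (0 : ℝ) 1,
      ∀ c ∈ atlas (EE (2 * n)) M, ∀ x ∈ c.target, ∀ y, F t c x * y = y * F t c x :=
    fun F hF t ht c hc x hx y => (hPLA (2 * n)).1 _ _ (A6 2 F hF t ht c hc x hx)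
  set q : ℕ → ℝ := fun i => bc (n + 1) i * ((n : ℝ) + 1 - i - j) with hq
  set dU : PFam (2 * n) M := HP (n - j) (r + 1) q X Y with hdU
  obtain ⟨U1, U2⟩ := H2 (n - j) (r + 1) q (by
    intro i hi hqi
    by_contra hcon
    apply hqi
    have h1 : i = n + 1 - j := by omega
    have h2 : (i : ℝ) + j = n + 1 := by
      have : i + j = n + 1 := by omega
      exact_mod_cast this
    simp only [hq]
    rw [show (n : ℝ) + 1 - i - j = 0 by linarith, mul_zero])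
  -- the form `g Y^(j-1)`
  have hYp := Y1 (j - 1)
  have hYj := Y1 j
  have e1 : 1 + 2 * (j - 1) = 2 * j - 1 := by omega
  have hg1 : DFm (2 * j - 1) (g * Y ^ (j - 1)) := by
    have := A3 1 (2 * (j - 1)) g _ hg hYp.1
    rwa [e1] at this
  have dg1 : DD (g * Y ^ (j - 1)) (dg * Y ^ (j - 1)) := by
    have := hLBP (2 * n) M 1 (2 * (j - 1)) g (Y ^ (j - 1)) dg 0 hg hYp.1 dgg hYp.2
    simpa using this
  have hnu' : DFm (2 * j - 1) (nu - (j : ℝ) • (g * Y ^ (j - 1))) :=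
    (A1 _ _ _ hnu (A2 _ _ _ hg1)).2
  have dnu' : DD (nu - (j : ℝ) • (g * Y ^ (j - 1)))
      (Y ^ j - (j : ℝ) • (dg * Y ^ (j - 1))) :=
    (B1 _ _ _ _ _ hnu (A2 _ _ _ hg1) dnu (B2 _ _ _ _ hg1 dg1)).2
  -- the values
  have hval := fun (t : ℝ) (ht : t ∈ Icc (0 : ℝ) 1) (c) (hc : c ∈ atlas (EE (2 * n)) M) (x)
    (hx : x ∈ c.target) => hAL0 (PL (2 * n)) n r j (X t c x) (Y t c x) (g t c x) (dg t c x)
      (nu t c x) hj hrj (hcen X hX t ht c hc x hx) (hcen Y hY t ht c hc x hx)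
      (hcen dg hdg t ht c hc x hx) (hgdg t ht c hc x hx) (hdgdg t ht c hc x hx)
      (hXr t ht c hc x hx)
  -- the form `E`
  have hgU : DFm (1 + 2 * (n - j)) (g * dU) := A3 _ _ _ _ hg U1
  have dgU : DD (g * dU) (dg * dU) := by
    have := hLBP (2 * n) M 1 (2 * (n - j)) g dU dg 0 hg U1 dgg U2
    simpa using this
  have hE : DFm (2 * n) (nu * (g * dU)) := by
    have := A3 _ _ _ _ hnu hgU
    rwa [show 2 * j - 1 + (1 + 2 * (n - j)) = 2 * n by omega] at this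
  have hodd : ((-1 : ℝ)) ^ (2 * j - 1) = -1 := by
    rw [show 2 * j - 1 = 2 * (j - 1) + 1 by omega, pow_succ, pow_mul]
    norm_num
  have dE : DD (nu * (g * dU)) (Y ^ j * (g * dU) - nu * (dg * dU)) := by
    have := hLBP (2 * n) M (2 * j - 1) (1 + 2 * (n - j)) nu (g * dU) (Y ^ j) (dg * dU) hnu hgU
      dnu dgU
    rw [hodd, neg_smul, one_smul, ← sub_eq_add_neg] at this
    exact this
  have hG : DFm (2 * n + 1) (Y ^ j * (g * dU) - nu * (dg * dU)) := by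
    have h1 := A3 _ _ _ _ hYj.1 hgU
    have h2 := A3 _ _ _ _ hnu (A3 _ _ _ _ hdg U1)
    rw [show 2 * j + (1 + 2 * (n - j)) = 2 * n + 1 by omega] at h1
    rw [show 2 * j - 1 + (2 + 2 * (n - j)) = 2 * n + 1 by omega] at h2
    exact (A1 _ _ _ h1 h2).2
  have hVE : Vn K (nu * (g * dU)) := by
    refine ⟨fun t ht c hc x hx hxK => ?_, fun c hc x hx => ?_, fun c hc x hx => ?_⟩
    · change nu t c x * (g t c x * dU t c x) = 0
      rw [hV.cs t ht c hc x hx hxK, zero_mul, mul_zero]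
    · change (nu 0 c x * (g 0 c x * dU 0 c x)).1 = 0
      rw [PL.mul_fst, PL.mul_fst, hV.v0 c hc x hx, zero_mul, mul_zero]
    · change (nu 1 c x * (g 1 c x * dU 1 c x)).1 = 0
      rw [PL.mul_fst, PL.mul_fst, hV.v1 c hc x hx, zero_mul, mul_zero]
  have hN := hSTD n M Ω vol K hn hS _ _ hE hG hVE dE
  obtain ⟨N1, N2, N3, N4, N5, N6⟩ := hNLA n M Ω vol K hS
  refine ⟨nu - (j : ℝ) • (g * Y ^ (j - 1)), hnu', ?_, ?_, ?_⟩
  · refine B3 _ _ _ _ (fun t ht c hc x hx => rfl) (fun t ht c hc x hx => ?_) dnu'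
    exact (hval t ht c hc x hx).1.symm
  · have hsub : nu - (j : ℝ) • (g * Y ^ (j - 1)) - nu = -((j : ℝ) • (g * Y ^ (j - 1))) := by
      abel
    rw [hsub]
    refine ⟨fun t ht c hc x hx hxK => ?_, fun c hc x hx => ?_, fun c hc x hx => ?_⟩
    · change -((j : ℝ) • (g t c x * (Y ^ (j - 1)) t c x)) = 0
      rw [hV.cs t ht c hc x hx hxK, zero_mul, smul_zero, neg_zero]
    · change (-((j : ℝ) • (g 0 c x * (Y ^ (j - 1)) 0 c x))).1 = 0
      rw [PL.neg_fst, PL.smul_fst, PL.mul_fst, hV.v0 c hc x hx, zero_mul, smul_zero, neg_zero]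
    · change (-((j : ℝ) • (g 1 c x * (Y ^ (j - 1)) 1 c x))).1 = 0
      rw [PL.neg_fst, PL.smul_fst, PL.mul_fst, hV.v1 c hc x hx, zero_mul, smul_zero, neg_zero]
  · refine N5 _ _ (fun t ht c hc x hx => ?_) hN
    change (Y t c x) ^ j * (g t c x * dU t c x) - nu t c x * (dg t c x * dU t c x) =
      (nu t c x - (j : ℝ) • (g t c x * (Y t c x) ^ (j - 1))) *
        (HP (n + 1 - j) (r + 1) (bc (n + 1)) X (Y - dg)) t c x -
        nu t c x * (HP (n + 1 - j) (r + 1) (bc (n + 1)) X Y) t c x +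
        ((n : ℝ) + 1) • (g t c x * (X t c x + Y t c x) ^ n)
    rw [HP_apply, HP_apply, hdU, HP_apply]
    change (Y t c x) ^ j * (g t c x * HP (n - j) (r + 1) q (X t c x) (Y t c x)) -
        nu t c x * (dg t c x * HP (n - j) (r + 1) q (X t c x) (Y t c x)) =
      (nu t c x - (j : ℝ) • (g t c x * (Y t c x) ^ (j - 1))) *
        UU n r j (X t c x) (Y t c x - dg t c x) -
        nu t c x * UU n r j (X t c x) (Y t c x) +
        ((n : ℝ) + 1) • (g t c x * (X t c x + Y t c x) ^ n)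
    rw [(hval t ht c hc x hx).2]
    abel

end HDE
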