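import Pool.Agent.Work.MP_c3bd4f_he.Interface

set_option autoImplicit false

/-!
# Block STD: Stokes on `[0, 1] × M`
-/

open scoped ContDiff Manifold Topology
open Set MeasureTheory

noncomputable section

namespace HDE

open HDC

/-- The linear functional `y ↦ top y / r`. -/
def STD_L {N : ℕ} (r : ℝ) : Lam N →ₗ[ℝ] ℝ := r⁻¹ • top N

theorem STD_L_apply {N : ℕ} (r : ℝ) (y : Lam N) : STD_L r y = top N y / r := by
  unfold STD_L
  rw [LinearMap.smul_apply, smul_eq_mul, div_eq_inv_mul]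

theorem STD_deriv {N : ℕ} (r : ℝ) (w : ℝ → Lam N) (w' : Lam N) (t : ℝ)
    (h : HasDerivAt w w' t) : HasDerivAt (fun s => top N (w s) / r) (top N w' / r) t := by
  have h2 := (STD_L (N := N) r).toContinuousLinearMap.hasFDerivAt.comp_hasDerivAt t h
  have e1 : (fun s => top N (w s) / r) = (STD_L (N := N) r).toContinuousLinearMap ∘ w := by
    funext s
    exact (STD_L_apply r (w s)).symm
  rw [e1]
  have e2 : (STD_L (N := N) r).toContinuousLinearMap w' = top N w' / r := STD_L_apply r w'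
  rw [← e2]
  exact h2

/-- `D` of a function which vanishes near `x`. -/
theorem STD_D0 {N : ℕ} (f : EE N → Lam N) (x : EE N) (h : ∀ᶠ y in 𝓝 x, f y = 0) : D f x = 0 := by
  have h1 : f =ᶠ[𝓝 x] fun _ => (0 : Lam N) := h
  unfold D
  rw [h1.fderiv_eq, fderiv_fun_const]
  simp

theorem STD_near {N : ℕ} {M : Type} [TopologicalSpace M] [T2Space M] (K : Set M) (hK : IsCompact K)
    (c : OpenPartialHomeomorph M (EE N)) (x : EE N) (hx : x ∈ c.target) (hxK : c.symm x ∉ K) :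
    ∀ᶠ y in 𝓝 x, y ∈ c.target ∧ c.symm y ∉ K := by
  have h1 : ∀ᶠ y in 𝓝 x, y ∈ c.target := c.open_target.mem_nhds hx
  have h2 : ContinuousAt c.symm x := c.continuousAt_symm hx
  have h3 : ∀ᶠ y in 𝓝 x, c.symm y ∈ Kᶜ := h2.eventually (hK.isClosed.isOpen_compl.mem_nhds hxK)
  exact h1.and h3

theorem STD_dn_add (n : ℕ) {M : Type} [TopologicalSpace M] [ChartedSpace (EE (2 * n)) M]
    (Ω f g : Fam (2 * n) M) (p : M) : dn n Ω (f + g) p = dn n Ω f p + dn n Ω g p := by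
  unfold dn
  rw [← add_div]
  congr 1
  exact map_add (top (2 * n)) _ _

/-- The first component. -/
def STD_f1 {N : ℕ} {M : Type} [TopologicalSpace M] (E : PFam N M) (t : ℝ) : Fam N M :=
  fun c x => (E t c x).1

/-- The second component. -/
def STD_f2 {N : ℕ} {M : Type} [TopologicalSpace M] (E : PFam N M) (t : ℝ) : Fam N M :=
  fun c x => (E t c x).2

/-- Block STD. -/
theorem p_STD (hDFA : Stmt_DFA) : Stmt_STD := by
  intro n M _ _ _ _ _ _ _ Ω vol K hn hSg E G hE hG hV hDD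
  have := hSg.fin
  have hK := hSg.cpt
  obtain ⟨-, F2, -, -, -, -, -, -⟩ := q_FO2 (2 * n) M
  obtain ⟨-, -, D3, -, D5⟩ := q_DNC n M Ω hSg.symp
  have hE1 : TForm (2 * n) (STD_f1 E) := hE.f0
  have hE2 : TForm (2 * n - 1) (STD_f2 E) := hE.f1 (2 * n - 1) (by omega)
  have hG2 : TForm (2 * n) (STD_f2 G) := hG.f1 (2 * n) rfl
  have hdE : TForm (2 * n) (fun t => dF (STD_f2 E t)) := by
    have h := q_FO1 (2 * n) M (2 * n - 1) (STD_f2 E) hE2
    have e : 2 * n - 1 + 1 = 2 * n := by omega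
    rw [e] at h
    exact h
  -- supports
  have hnear : ∀ t ∈ Icc (0 : ℝ) 1, ∀ c ∈ atlas (EE (2 * n)) M, ∀ x ∈ c.target, c.symm x ∉ K →
      ∀ᶠ y in 𝓝 x, E t c y = 0 := by
    intro t ht c hc x hx hxK
    filter_upwards [STD_near K hK c x hx hxK] with y hy
    exact hV.cs t ht c hc y hy.1 hy.2
  have hD1 : ∀ t ∈ Icc (0 : ℝ) 1, ∀ c ∈ atlas (EE (2 * n)) M, ∀ x ∈ c.target, c.symm x ∉ K →
      D (fun y => (E t c y).1) x = 0 := by
    intro t ht c hc x hx hxK
    refine STD_D0 _ x ?_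
    filter_upwards [hnear t ht c hc x hx hxK] with y hy
    rw [hy]
    rfl
  have hD2 : ∀ t ∈ Icc (0 : ℝ) 1, ∀ c ∈ atlas (EE (2 * n)) M, ∀ x ∈ c.target, c.symm x ∉ K →
      D (fun y => (E t c y).2) x = 0 := by
    intro t ht c hc x hx hxK
    refine STD_D0 _ x ?_
    filter_upwards [hnear t ht c hc x hx hxK] with y hy
    rw [hy]
    rfl
  have hcs1 : ∀ t ∈ Icc (0 : ℝ) 1, ∀ c ∈ atlas (EE (2 * n)) M, ∀ x ∈ c.target, c.symm x ∉ K →
      (G t c x).1 = 0 := by
    intro t ht c hc x hx hxK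
    rw [hDD.d0 t ht c hc x hx]
    exact hD1 t ht c hc x hx hxK
  have hcs2i : ∀ t ∈ Ioo (0 : ℝ) 1, ∀ c ∈ atlas (EE (2 * n)) M, ∀ x ∈ c.target, c.symm x ∉ K →
      (G t c x).2 = 0 := by
    intro t ht c hc x hx hxK
    have h1 := hDD.d1 t ht c hc x hx
    rw [hD2 t (Ioo_subset_Icc_self ht) c hc x hx hxK, add_zero] at h1
    have h2 : HasDerivAt (fun s => (E s c x).1) (0 : Lam (2 * n)) t := by
      refine (hasDerivAt_const t (0 : Lam (2 * n))).congr_of_eventuallyEq ?_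
      filter_upwards [isOpen_Ioo.mem_nhds ht] with s hs
      rw [hV.cs s (Ioo_subset_Icc_self hs) c hc x hx hxK]
      rfl
    exact h1.unique h2
  have hcs2 : ∀ t ∈ Icc (0 : ℝ) 1, ∀ c ∈ atlas (EE (2 * n)) M, ∀ x ∈ c.target, c.symm x ∉ K →
      (G t c x).2 = 0 := by
    intro t ht c hc x hx hxK
    have hcont : ContinuousOn (fun s : ℝ => (G s c x).2) (Icc 0 1) := by
      have hsl : ContinuousOn (fun s : ℝ => (s, x)) (Icc 0 1) := by fun_prop
      exact (hG2.smooth c hc).continuousOn.comp hsl (fun s hs => ⟨hs, hx⟩)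
    have h1 : EqOn (fun s : ℝ => (G s c x).2) (fun _ => (0 : Lam (2 * n))) (Ioo 0 1) :=
      fun s hs => hcs2i s hs c hc x hx hxK
    have h2 := h1.of_subset_closure hcont continuousOn_const Ioo_subset_Icc_self
      (by rw [closure_Ioo (zero_ne_one)])
    exact h2 ht
  have hcs : ∀ t ∈ Icc (0 : ℝ) 1, ∀ c ∈ atlas (EE (2 * n)) M, ∀ x ∈ c.target, c.symm x ∉ K →
      G t c x = 0 := fun t ht c hc x hx hxK =>
    PL.ext (hcs1 t ht c hc x hx hxK) (hcs2 t ht c hc x hx hxK)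
  refine ⟨hG, hcs, ?_⟩
  -- the integral
  obtain ⟨W, hW⟩ : ∃ W : M → ℝ → ℝ, ∀ p t, W p t = dn n Ω (STD_f2 G t + dF (STD_f2 E t)) p :=
    ⟨fun p t => dn n Ω (STD_f2 G t + dF (STD_f2 E t)) p, fun _ _ => rfl⟩
  have hLT : TForm (2 * n) (fun t => STD_f2 G t + dF (STD_f2 E t)) :=
    (F2 (2 * n) (STD_f2 G) (fun t => dF (STD_f2 E t)) hG2 hdE).1
  have hWc : ContinuousOn (fun q : ℝ × M => W q.2 q.1) (Icc 0 1 ×ˢ univ) := by
    have h := D3 (2 * n) (fun t => STD_f2 G t + dF (STD_f2 E t)) hLT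
    refine h.congr ?_
    intro q _
    exact hW q.2 q.1
  have hUc : ContinuousOn (fun q : ℝ × M => dn n Ω (STD_f1 E q.1) q.2)
      (Icc 0 1 ×ˢ univ) := D3 (2 * n) (STD_f1 E) hE1
  have hCG : ∀ t ∈ Icc (0 : ℝ) 1, CS K (STD_f2 G t) := fun t ht c hc x hx hxK =>
    hcs2 t ht c hc x hx hxK
  have hCE : ∀ t ∈ Icc (0 : ℝ) 1, CS K (dF (STD_f2 E t)) :=
    fun t ht c hc x hx hxK => hD2 t ht c hc x hx hxK
  have hCE' : ∀ t ∈ Icc (0 : ℝ) 1, CS K (STD_f2 E t) := by
    intro t ht c hc x hx hxK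
    show (E t c x).2 = 0
    rw [hV.cs t ht c hc x hx hxK]
    rfl
  have hW0 : ∀ t ∈ Icc (0 : ℝ) 1, ∀ p ∉ K, W p t = 0 := by
    intro t ht p hp
    rw [hW, STD_dn_add, D5 K _ (hCG t ht) p hp, D5 K _ (hCE t ht) p hp, add_zero]
  obtain ⟨C, hC⟩ := (isCompact_Icc.prod hK).exists_bound_of_continuousOn
    (hWc.mono (prod_mono_right (subset_univ K)))
  have hbound : ∀ t ∈ Icc (0 : ℝ) 1, ∀ p, ‖W p t‖ ≤ max C 0 := by
    intro t ht p
    by_cases hp : p ∈ K
    · exact (hC (t, p) ⟨ht, hp⟩).trans (le_max_left _ _)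
    · rw [hW0 t ht p hp, norm_zero]
      exact le_max_right _ _
  -- for each point
  have hpt : ∀ p : M, ∫ t in (0 : ℝ)..1, W p t = 0 := by
    intro p
    obtain ⟨u, hu⟩ : ∃ u : ℝ → ℝ, ∀ s, u s = dn n Ω (STD_f1 E s) p :=
      ⟨fun s => dn n Ω (STD_f1 E s) p, fun _ => rfl⟩
    have hsl : ContinuousOn (fun s : ℝ => (s, p)) (Icc 0 1) := by fun_prop
    have huc : ContinuousOn u (Icc 0 1) := by
      refine (hUc.comp hsl (fun s hs => ⟨hs, mem_univ p⟩)).congr ?_
      intro s _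
      exact hu s
    have hWp : ContinuousOn (fun t => W p t) (Icc 0 1) :=
      hWc.comp hsl (fun s hs => ⟨hs, mem_univ p⟩)
    have hc : chartAt (EE (2 * n)) p ∈ atlas (EE (2 * n)) M := chart_mem_atlas _ p
    have hx : chartAt (EE (2 * n)) p p ∈ (chartAt (EE (2 * n)) p).target :=
      mem_chart_target _ p
    have hu0 : u 0 = 0 := by
      have h0 : STD_f1 E 0 (chartAt (EE (2 * n)) p) (chartAt (EE (2 * n)) p p) = 0 :=
        hV.v0 _ hc _ hx
      rw [hu 0]
      unfold dn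
      rw [h0, map_zero, zero_div]
    have hu1 : u 1 = 0 := by
      have h0 : STD_f1 E 1 (chartAt (EE (2 * n)) p) (chartAt (EE (2 * n)) p p) = 0 :=
        hV.v1 _ hc _ hx
      rw [hu 1]
      unfold dn
      rw [h0, map_zero, zero_div]
    have hder : ∀ t ∈ Ioo (0 : ℝ) 1, HasDerivAt u (W p t) t := by
      intro t ht
      have h1 := hDD.d1 t ht _ hc _ hx
      have h2 := STD_deriv (top (2 * n) ((Ω (chartAt (EE (2 * n)) p)
        (chartAt (EE (2 * n)) p p)) ^ n)) _ _ t h1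
      have e1 : u = fun s => top (2 * n) (E s (chartAt (EE (2 * n)) p)
          (chartAt (EE (2 * n)) p p)).1 /
          top (2 * n) ((Ω (chartAt (EE (2 * n)) p) (chartAt (EE (2 * n)) p p)) ^ n) := by
        funext s
        rw [hu s]
        rfl
      rw [e1, hW p t]
      exact h2
    have hint : IntervalIntegrable (fun t => W p t) volume 0 1 := by
      apply ContinuousOn.intervalIntegrable
      rw [uIcc_of_le zero_le_one]
      exact hWp
    have h := intervalIntegral.integral_eq_sub_of_hasDerivAt_of_le zero_le_one huc hder hint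
    rw [h, hu0, hu1, sub_zero]
  -- exchange of the integrals
  have hprod : vol.prod ((volume : Measure ℝ).restrict (Ioc 0 1)) =
      (vol.prod (volume : Measure ℝ)).restrict ((univ : Set M) ×ˢ Ioc (0 : ℝ) 1) := by
    rw [← Measure.prod_restrict, Measure.restrict_univ]
  have hmeas : AEStronglyMeasurable (Function.uncurry W)
      (vol.prod (volume.restrict (Ioc 0 1))) := by
    have h1 : ContinuousOn (Function.uncurry W) ((univ : Set M) ×ˢ Icc (0 : ℝ) 1) := by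
      have h2 : ContinuousOn (fun q : M × ℝ => (q.2, q.1)) ((univ : Set M) ×ˢ Icc (0 : ℝ) 1) := by
        fun_prop
      exact hWc.comp h2 (fun q hq => ⟨hq.2, mem_univ _⟩)
    have h3 : ContinuousOn (Function.uncurry W) ((univ : Set M) ×ˢ Ioc (0 : ℝ) 1) :=
      h1.mono (prod_mono_right Ioc_subset_Icc_self)
    rw [hprod]
    exact h3.aestronglyMeasurable (MeasurableSet.univ.prod measurableSet_Ioc)
  have hae : ∀ᵐ q ∂(vol.prod ((volume : Measure ℝ).restrict (Ioc 0 1))),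
      ‖Function.uncurry W q‖ ≤ max C 0 := by
    rw [hprod, ae_restrict_iff' (MeasurableSet.univ.prod measurableSet_Ioc)]
    refine Filter.Eventually.of_forall ?_
    intro q hq
    exact hbound q.2 ⟨hq.2.1.le, hq.2.2⟩ q.1
  have hIntg : Integrable (Function.uncurry W) (vol.prod (volume.restrict (Ioc 0 1))) :=
    Integrable.of_bound hmeas _ hae
  have hswap := integral_integral_swap hIntg
  have e1 : ∀ p, ∫ t in Ioc (0 : ℝ) 1, W p t = 0 := by
    intro p
    rw [← intervalIntegral.integral_of_le zero_le_one, hpt p]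
  have e2 : ∫ p, (∫ t in Ioc (0 : ℝ) 1, W p t) ∂vol = 0 := by
    rw [integral_congr_ae (Filter.Eventually.of_forall e1), integral_zero]
  have e3 : ∫ t in (0 : ℝ)..1, ∫ p, W p t ∂vol = 0 := by
    rw [intervalIntegral.integral_of_le zero_le_one, ← hswap, e2]
  have hfib : ∀ t ∈ Icc (0 : ℝ) 1, ∫ p, dn n Ω (STD_f2 G t) p ∂vol = ∫ p, W p t ∂vol := by
    intro t ht
    have i1 : Integrable (dn n Ω (STD_f2 G t)) vol :=
      q_INT n M Ω vol hSg.symp (2 * n) (STD_f2 G t) K (hG2.form t ht) hK (hCG t ht)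
    have i2 : Integrable (dn n Ω (dF (STD_f2 E t))) vol :=
      q_INT n M Ω vol hSg.symp (2 * n) (dF (STD_f2 E t)) K (hdE.form t ht) hK (hCE t ht)
    have h0 : ∫ p, dn n Ω (dF (STD_f2 E t)) p ∂vol = 0 :=
      q_STM n M Ω vol hSg.symp hSg.vl K hK (2 * n - 1) (STD_f2 E t) (hE2.form t ht) (hCE' t ht)
    have h1 : ∫ p, W p t ∂vol = ∫ p, dn n Ω (STD_f2 G t) p ∂vol +
        ∫ p, dn n Ω (dF (STD_f2 E t)) p ∂vol := by
      rw [← integral_add i1 i2]
      refine integral_congr_ae (Filter.Eventually.of_forall fun p => ?_)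
      show W p t = _
      rw [hW, STD_dn_add]
    show ∫ p, dn n Ω (STD_f2 G t) p ∂vol = ∫ p, W p t ∂vol
    rw [h1, h0, add_zero]
  have e4 : ∫ t in (0 : ℝ)..1, ∫ p, dn n Ω (STD_f2 G t) p ∂vol =
      ∫ t in (0 : ℝ)..1, ∫ p, W p t ∂vol := by
    refine intervalIntegral.integral_congr (μ := volume) ?_
    intro t ht
    rw [uIcc_of_le zero_le_one] at ht
    exact hfib t ht
  exact e4.trans e3

end HDE
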