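import Pool.Agent.Work.MP_c3bd4f_he.B_AL0
import Pool.Agent.Work.MP_c3bd4f_he.B_ALP
import Pool.Agent.Work.MP_c3bd4f_he.B_ALS
import Pool.Agent.Work.MP_c3bd4f_he.B_CHN
import Pool.Agent.Work.MP_c3bd4f_he.B_CLP
import Pool.Agent.Work.MP_c3bd4f_he.B_CLV
import Pool.Agent.Work.MP_c3bd4f_he.B_CSD
import Pool.Agent.Work.MP_c3bd4f_he.B_DDA
import Pool.Agent.Work.MP_c3bd4f_he.B_DFA
import Pool.Agent.Work.MP_c3bd4f_he.B_ENA
import Pool.Agent.Work.MP_c3bd4f_he.B_ENB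
import Pool.Agent.Work.MP_c3bd4f_he.B_ESL
import Pool.Agent.Work.MP_c3bd4f_he.B_EVL
import Pool.Agent.Work.MP_c3bd4f_he.B_FNE
import Pool.Agent.Work.MP_c3bd4f_he.B_GDF
import Pool.Agent.Work.MP_c3bd4f_he.B_GGD
import Pool.Agent.Work.MP_c3bd4f_he.B_GSD
import Pool.Agent.Work.MP_c3bd4f_he.B_GSM
import Pool.Agent.Work.MP_c3bd4f_he.B_GVL
import Pool.Agent.Work.MP_c3bd4f_he.B_HPC
import Pool.Agent.Work.MP_c3bd4f_he.B_LBP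
import Pool.Agent.Work.MP_c3bd4f_he.B_MAI
import Pool.Agent.Work.MP_c3bd4f_he.B_NCA
import Pool.Agent.Work.MP_c3bd4f_he.B_NCC
import Pool.Agent.Work.MP_c3bd4f_he.B_NLA
import Pool.Agent.Work.MP_c3bd4f_he.B_PLA
import Pool.Agent.Work.MP_c3bd4f_he.B_PRM
import Pool.Agent.Work.MP_c3bd4f_he.B_PSM
import Pool.Agent.Work.MP_c3bd4f_he.B_S0L
import Pool.Agent.Work.MP_c3bd4f_he.B_STD
import Pool.Agent.Work.MP_c3bd4f_he.B_VMU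

set_option autoImplicit false

noncomputable section

namespace HDE

theorem q_AL0 : Stmt_AL0 := p_AL0 

theorem q_ALP : Stmt_ALP := p_ALP 

theorem q_ALS : Stmt_ALS := p_ALS 

theorem q_CSD : Stmt_CSD := p_CSD 

theorem q_GGD : Stmt_GGD := p_GGD 

theorem q_GSM : Stmt_GSM := p_GSM 

theorem q_EVL : Stmt_EVL := p_EVL q_GSM

theorem q_GSD : Stmt_GSD := p_GSD q_GSM

theorem q_NCC : Stmt_NCC := p_NCC 

theorem q_PLA : Stmt_PLA := p_PLA 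

theorem q_DFA : Stmt_DFA := p_DFA q_PLA

theorem q_DDA : Stmt_DDA := p_DDA q_DFA

theorem q_GDF : Stmt_GDF := p_GDF q_DFA q_DDA q_GGD

theorem q_LBP : Stmt_LBP := p_LBP q_PLA q_DFA

theorem q_HPC : Stmt_HPC := p_HPC q_DFA q_DDA q_LBP

theorem q_NCA : Stmt_NCA := p_NCA q_PLA q_ALP q_DFA q_DDA q_LBP q_HPC q_CSD

theorem q_NLA : Stmt_NLA := p_NLA q_DFA

theorem q_GVL : Stmt_GVL := p_GVL q_NLA q_GGD

theorem q_PSM : Stmt_PSM := p_PSM 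

theorem q_PRM : Stmt_PRM := p_PRM q_PSM

theorem q_CLP : Stmt_CLP := p_CLP q_PRM

theorem q_CLV : Stmt_CLV := p_CLV q_DFA q_CLP q_NCC

theorem q_STD : Stmt_STD := p_STD q_DFA

theorem q_ENA : Stmt_ENA := p_ENA q_PLA q_DFA q_DDA q_LBP q_HPC q_STD q_NLA

theorem q_ENB : Stmt_ENB := p_ENB q_DFA q_DDA q_LBP q_HPC q_CLV q_STD

theorem q_ESL : Stmt_ESL := p_ESL q_PLA q_ALS q_DFA q_DDA q_LBP q_HPC q_STD q_NLA

theorem q_CHN : Stmt_CHN := p_CHN q_PLA q_ALP q_DFA q_DDA q_LBP q_NLA q_ESL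

theorem q_S0L : Stmt_S0L := p_S0L q_PLA q_AL0 q_DFA q_DDA q_LBP q_HPC q_STD q_NLA

theorem q_VMU : Stmt_VMU := p_VMU 

theorem q_MAI : Stmt_MAI := p_MAI q_PLA q_ALP q_DFA q_DDA q_LBP q_GSM q_GSD q_VMU q_GDF q_CLV q_NLA q_S0L q_CHN q_EVL q_ENA q_ENB q_GVL

theorem q_FNE : Stmt_FNE := p_FNE q_MAI q_NCA

end HDE
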