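import Pool.Agent.Work.MP_c3bd4f_he.Interface

set_option autoImplicit false

/-! # AL0: the algebra of step 0 -/

open scoped ContDiff Manifold Topology
open Set MeasureTheory

noncomputable section

namespace HDE

open HDC

theorem AL0_pow {R : Type} [Ring R] [Algebra ℝ R] (rho dg : R) (hd : ∀ y, dg * y = y * dg)
    (hd2 : dg * dg = 0) (m : ℕ) :
    (rho - dg) ^ m = rho ^ m - (m : ℝ) • (dg * rho ^ (m - 1)) := by
  induction m with
  | zero => simp
  | succ m ih =>
    rw [pow_succ, ih, sub_mul, mul_sub, mul_sub, smul_mul_assoc, smul_mul_assoc, ← pow_succ,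
      ← hd (dg * rho ^ (m - 1)), ← mul_assoc dg dg, hd2, zero_mul, smul_zero, sub_zero,
      ← hd (rho ^ m), Nat.add_sub_cancel]
    rcases Nat.eq_zero_or_pos m with h | h
    · subst h
      simp
    · have e : dg * rho ^ (m - 1) * rho = dg * rho ^ m := by
        rw [mul_assoc, ← pow_succ, Nat.sub_add_cancel h]
      rw [e]
      push_cast
      rw [add_smul, one_smul]
      abel

theorem AL0_U {R : Type} [Ring R] [Algebra ℝ R] (n r j : ℕ) (w rho dg : R)
    (hrj : r + j ≤ n + 1) (hd : ∀ y, dg * y = y * dg) (hd2 : dg * dg = 0) :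
    HP (n + 1 - j) (r + 1) (bc (n + 1)) w (rho - dg) =
      HP (n + 1 - j) (r + 1) (bc (n + 1)) w rho -
        dg * HP (n - j) (r + 1) (fun i => bc (n + 1) i * ((n : ℝ) + 1 - i - j)) w rho := by
  unfold HP
  rw [Finset.mul_sum, ← Finset.sum_sub_distrib]
  refine Finset.sum_congr rfl fun i hi => ?_
  rw [Finset.mem_range] at hi
  have h1 : ((n + 1 - j - i : ℕ) : ℝ) = (n : ℝ) + 1 - i - j := by
    have h2 : n + 1 - j - i + i + j = n + 1 := by omega
    have h3 : ((n + 1 - j - i : ℕ) : ℝ) + i + j = n + 1 := by exact_mod_cast h2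
    linarith
  have h2 : n + 1 - j - i - 1 = n - j - i := by omega
  rw [AL0_pow rho dg hd hd2, h1, h2, mul_sub, smul_sub, mul_smul_comm, mul_smul_comm, smul_smul,
    ← mul_assoc (w ^ i), ← hd (w ^ i), mul_assoc dg]

theorem AL0_sum {R : Type} [Ring R] [Algebra ℝ R] (n r j : ℕ) (w rho : R) (hj : 1 ≤ j)
    (hrj : r + j ≤ n + 1) (hw : ∀ y, w * y = y * w) (hr : ∀ y, rho * y = y * rho)
    (hw2 : w ^ (r + 1) = 0) :
    rho ^ j * HP (n - j) (r + 1) (fun i => bc (n + 1) i * ((n : ℝ) + 1 - i - j)) w rho +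
      (j : ℝ) • (rho ^ (j - 1) * HP (n + 1 - j) (r + 1) (bc (n + 1)) w rho) =
      ((n : ℝ) + 1) • (w + rho) ^ n := by
  have hrc : ∀ (m : ℕ) (y : R), rho ^ m * y = y * rho ^ m := fun m y =>
    ((show Commute rho y from hr y).pow_left m).eq
  have hc : Commute w rho := hw rho
  have h1 : (w + rho) ^ n = ∑ i ∈ Finset.range (r + 1), w ^ i * rho ^ (n - i) * (n.choose i : R) := by
    rw [hc.add_pow, ← Finset.sum_subset (s₁ := Finset.range (r + 1))]
    · intro i hi
      rw [Finset.mem_range] at hi ⊢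
      omega
    · intro i _ hi
      rw [Finset.mem_range, not_lt] at hi
      have e : w ^ i = 0 := by
        rw [show i = r + 1 + (i - (r + 1)) by omega, pow_add, hw2, zero_mul]
      rw [e, zero_mul, zero_mul]
  rw [h1, Finset.smul_sum]
  unfold HP
  rw [Finset.mul_sum, Finset.mul_sum, Finset.smul_sum, ← Finset.sum_add_distrib]
  refine Finset.sum_congr rfl fun i hi => ?_
  rw [Finset.mem_range] at hi
  have hin : i ≤ n := by omega
  have hbc : bc (n + 1) i * ((n : ℝ) + 1 - i) = ((n : ℝ) + 1) * (n.choose i : ℝ) := by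
    have h2 := Nat.choose_mul_succ_eq n i
    have h3 : ((n + 1 - i : ℕ) : ℝ) = (n : ℝ) + 1 - i := by
      rw [Nat.cast_sub (by omega)]
      push_cast
      ring
    have h4 : ((n.choose i : ℕ) : ℝ) * ((n : ℝ) + 1) =
        (((n + 1).choose i : ℕ) : ℝ) * ((n + 1 - i : ℕ) : ℝ) := by exact_mod_cast h2
    rw [bc, ← h3, ← h4]
    ring
  have e1 : rho ^ j * ((bc (n + 1) i * ((n : ℝ) + 1 - i - j)) • (w ^ i * rho ^ (n - j - i))) =
      (bc (n + 1) i * ((n : ℝ) + 1 - i - j)) • (w ^ i * rho ^ (n - i)) := by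
    rcases Nat.lt_or_ge n (i + j) with h | h
    · have h5 : (n : ℝ) + 1 - i - j = 0 := by
        have h6 : n + 1 = i + j := by omega
        have h7 : (n : ℝ) + 1 = i + j := by exact_mod_cast h6
        linarith
      rw [h5, mul_zero, zero_smul, zero_smul, mul_zero]
    · rw [mul_smul_comm, hrc, mul_assoc, ← pow_add, show n - j - i + j = n - i by omega]
  have e2 : rho ^ (j - 1) * (bc (n + 1) i • (w ^ i * rho ^ (n + 1 - j - i))) =
      bc (n + 1) i • (w ^ i * rho ^ (n - i)) := by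
    rw [mul_smul_comm, hrc, mul_assoc, ← pow_add, show n + 1 - j - i + (j - 1) = n - i by omega]
  rw [e1, e2, smul_smul, ← add_smul]
  have e3 : w ^ i * rho ^ (n - i) * (n.choose i : R) =
      ((n.choose i : ℕ) : ℝ) • (w ^ i * rho ^ (n - i)) := by
    rw [Nat.cast_smul_eq_nsmul, nsmul_eq_mul]
    exact ((Nat.cast_commute (n.choose i) (w ^ i * rho ^ (n - i))).eq).symm
  rw [e3, smul_smul]
  congr 1
  rw [← hbc]
  ring

theorem p_AL0 : Stmt_AL0 := by
  intro R _ _ n r j w rho g dg nu hj hrj hw hr hd hgd hd2 hw2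
  refine ⟨AL0_pow rho dg hd hd2 j, ?_⟩
  have hrc : ∀ (m : ℕ) (y : R), rho ^ m * y = y * rho ^ m := fun m y =>
    ((show Commute rho y from hr y).pow_left m).eq
  have h3 := AL0_sum n r j w rho hj hrj hw hr hw2
  have h2 := AL0_U n r j w rho dg hrj hd hd2
  unfold UU
  rw [h2]
  set U := HP (n + 1 - j) (r + 1) (bc (n + 1)) w rho
  set D := HP (n - j) (r + 1) (fun i => bc (n + 1) i * ((n : ℝ) + 1 - i - j)) w rho
  have e1 : g * rho ^ (j - 1) * (dg * D) = 0 := by
    rw [mul_assoc, ← mul_assoc (rho ^ (j - 1)), ← hd (rho ^ (j - 1)), mul_assoc dg, ← mul_assoc g,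
      hgd, zero_mul]
  have e2 : rho ^ j * (g * D) = g * (rho ^ j * D) := by
    rw [← mul_assoc, hrc, mul_assoc]
  have e3 : ((n : ℝ) + 1) • (g * (w + rho) ^ n) =
      g * (rho ^ j * D) + (j : ℝ) • (g * rho ^ (j - 1) * U) := by
    rw [← mul_smul_comm, ← h3, mul_add, mul_smul_comm, mul_assoc]
  rw [e2, e3, sub_mul, mul_sub, mul_sub, smul_mul_assoc, smul_mul_assoc, e1, smul_zero]
  abel

end HDE
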