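import Pool.Agent.Work.MP_c3bd4f_he.Interface

set_option autoImplicit false

/-!
# Block ENB: the end in the case `j = 1`
-/

open scoped ContDiff Manifold Topology
open Set MeasureTheory

noncomputable section

namespace HDE

open HDC

theorem p_ENB (hDFA : Stmt_DFA) (_hDDA : Stmt_DDA) (hLBP : Stmt_LBP) (hHPC : Stmt_HPC)
    (hCLV : Stmt_CLV) (hSTD : Stmt_STD) : Stmt_ENB := by
  intro n M _ _ _ _ _ _ _ Ω vol K hn hSg hNoC r hr X Y ka hX hY hXd hYd hka hkad hV
  obtain ⟨e, he, hVe, hde⟩ := hCLV (2 * n) M hNoC K ka hSg.cpt hka hkad hV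
  obtain ⟨hU, hUd⟩ := (hHPC (2 * n) M X Y hX hY hXd hYd).2 (n + 1 - 1) (r + 1) (bc (n + 1))
    (fun i hi _ => by omega)
  have hU' : DFm (2 * n) (UU n r 1 X Y) := hU
  have hUd' : DD (UU n r 1 X Y) 0 := hUd
  have hE : DFm (2 * n) (e * UU n r 1 X Y) := by
    have h := (hDFA (2 * n) M).2.2.1 0 (2 * n) e (UU n r 1 X Y) he hU'
    rwa [Nat.zero_add] at h
  have hG : DFm (2 * n + 1) (ka * UU n r 1 X Y) := by
    have h := (hDFA (2 * n) M).2.2.1 1 (2 * n) ka (UU n r 1 X Y) hka hU'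
    rwa [Nat.add_comm] at h
  have hd : DD (e * UU n r 1 X Y) (ka * UU n r 1 X Y) := by
    have h := hLBP (2 * n) M 0 (2 * n) e (UU n r 1 X Y) ka 0 he hU' hde hUd'
    rwa [mul_zero, smul_zero, add_zero] at h
  have hVE : Vn K (e * UU n r 1 X Y) := by
    constructor
    · intro t ht c hc x hx hxK
      have h := hVe.cs t ht c hc x hx hxK
      change e t c x * (UU n r 1 X Y) t c x = 0
      rw [h, zero_mul]
    · intro c hc x hx
      have h := hVe.v0 c hc x hx
      change (e 0 c x * (UU n r 1 X Y) 0 c x).1 = 0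
      rw [PL.mul_fst, h, zero_mul]
    · intro c hc x hx
      have h := hVe.v1 c hc x hx
      change (e 1 c x * (UU n r 1 X Y) 1 c x).1 = 0
      rw [PL.mul_fst, h, zero_mul]
  exact hSTD n M Ω vol K hn hSg (e * UU n r 1 X Y) (ka * UU n r 1 X Y) hE hG hVE hd

end HDE
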