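import Pool.Agent.Work.MP_c3bd4f_he.Interface

set_option autoImplicit false

/-!
# Block LBP: Leibniz rule for forms on `[0, 1] × M`
-/

open scoped ContDiff Manifold Topology
open Set MeasureTheory

noncomputable section

namespace HDE

open HDC

theorem LBP_D_add {N : ℕ} {f g : EE N → Lam N} {x : EE N} (hf : DifferentiableAt ℝ f x)
    (hg : DifferentiableAt ℝ g x) : D (fun y => f y + g y) x = D f x + D g x := by
  unfold D
  rw [← Finset.sum_add_distrib]
  refine Finset.sum_congr rfl fun i _ => ?_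
  rw [fderiv_fun_add hf hg, add_apply, mul_add]

theorem LBP_D_smul {N : ℕ} (r : ℝ) {f : EE N → Lam N} {x : EE N}
    (hf : DifferentiableAt ℝ f x) : D (fun y => r • f y) x = r • D f x := by
  unfold D
  rw [Finset.smul_sum]
  refine Finset.sum_congr rfl fun i _ => ?_
  rw [fderiv_fun_const_smul hf, smul_apply, mul_smul_comm]

theorem LBP_D_congr {N : ℕ} {f g : EE N → Lam N} {x : EE N} (h : f =ᶠ[𝓝 x] g) :
    D f x = D g x := by
  unfold D
  rw [h.fderiv_eq]

theorem LBP_mul_diff {N : ℕ} {f g : EE N → Lam N} {x : EE N} (hf : DifferentiableAt ℝ f x)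
    (hg : DifferentiableAt ℝ g x) : DifferentiableAt ℝ (fun y => f y * g y) x := by
  obtain ⟨L, hL, -⟩ := (q_DRV N (EE N) x).1 f g _ _ hf.hasFDerivAt hg.hasFDerivAt
  exact hL.differentiableAt

theorem LBP_mul_deriv {N : ℕ} {f g : ℝ → Lam N} {u v : Lam N} {t : ℝ} (hf : HasDerivAt f u t)
    (hg : HasDerivAt g v t) : HasDerivAt (fun s => f s * g s) (u * g t + f t * v) t := by
  obtain ⟨L, hL, h2⟩ := (q_DRV N ℝ t).1 f g _ _ hf.hasFDerivAt hg.hasFDerivAt
  have h3 := hL.hasDerivAt
  rw [h2] at h3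
  simpa using h3

theorem LBP_alg {N : ℕ} (e : ℝ) (he : e * e = 1) (a b a' b' Da Db Da' Db' g g' : Lam N) :
    (g + Db) * a' + a * (g' + Db') =
      ((g * a' + (-(e • Da)) * b') + e • (b * Da' + (e • a) * g')) +
        ((Db * a' + (-(e • b)) * Da') + (e • (Da * b' + (e • a) * Db'))) := by
  simp only [add_mul, mul_add, smul_mul_assoc, neg_mul, smul_add, smul_smul, he, one_smul]
  abel

theorem p_LBP (hPLA : Stmt_PLA) (hDFA : Stmt_DFA) : Stmt_LBP := by
  intro N M _ _ _ k l F F' G G' hF hF' hG hG'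
  obtain ⟨-, -, -, -, -, hHg, hsm, -⟩ := hDFA N M
  obtain ⟨-, -, -, -, -, hinv, -⟩ := hPLA N
  set e : ℝ := (-1 : ℝ) ^ k with he
  have hee : e * e = 1 := by
    rw [he, ← mul_pow]
    norm_num
  -- the facts at the points of the region
  have hi : ∀ t ∈ Icc (0 : ℝ) 1, ∀ c ∈ atlas (EE N) M, ∀ x ∈ c.target,
      inv (F t c x).1 = e • (F t c x).1 ∧ inv (F t c x).2 = -(e • (F t c x).2) :=
    fun t ht c hc x hx => hinv k _ (hHg k F hF t ht c hc x hx)
  have hd : ∀ t ∈ Icc (0 : ℝ) 1, ∀ c ∈ atlas (EE N) M, ∀ x ∈ c.target,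
      DifferentiableAt ℝ (fun y => (F t c y).1) x ∧ DifferentiableAt ℝ (fun y => (F t c y).2) x :=
    fun t ht c hc x hx =>
      ⟨(hsm k F hF t ht c hc x hx).1.differentiableAt (by simp),
        (hsm k F hF t ht c hc x hx).2.differentiableAt (by simp)⟩
  have hd' : ∀ t ∈ Icc (0 : ℝ) 1, ∀ c ∈ atlas (EE N) M, ∀ x ∈ c.target,
      DifferentiableAt ℝ (fun y => (F' t c y).1) x ∧
        DifferentiableAt ℝ (fun y => (F' t c y).2) x :=
    fun t ht c hc x hx =>
      ⟨(hsm l F' hF' t ht c hc x hx).1.differentiableAt (by simp),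
        (hsm l F' hF' t ht c hc x hx).2.differentiableAt (by simp)⟩
  refine ⟨?_, ?_⟩
  · intro t ht c hc x hx
    have h1 := q_LBZ N (fun y => (F t c y).1) (fun y => (F' t c y).1) x
      (hd t ht c hc x hx).1 (hd' t ht c hc x hx).1
    show (G t c x).1 * (F' t c x).1 + e • ((F t c x).1 * (G' t c x).1) =
      D (fun y => (F t c y).1 * (F' t c y).1) x
    rw [h1, hG.d0 t ht c hc x hx, hG'.d0 t ht c hc x hx, (hi t ht c hc x hx).1, smul_mul_assoc]
  · intro t ht c hc x hx
    have ht' : t ∈ Icc (0 : ℝ) 1 := Ioo_subset_Icc_self ht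
    have hu := hG.d1 t ht c hc x hx
    have hu' := hG'.d1 t ht c hc x hx
    have h1 := LBP_mul_deriv hu hu'
    have hnear : ∀ᶠ y in 𝓝 x, y ∈ c.target := c.open_target.mem_nhds hx
    -- the spatial derivative of the second component
    have e1 : D (fun y => (F t c y).2 * (F' t c y).1) x =
        D (fun y => (F t c y).2) x * (F' t c x).1 +
          (-(e • (F t c x).2)) * D (fun y => (F' t c y).1) x := by
      rw [← (hi t ht' c hc x hx).2]
      exact q_LBZ N _ _ x (hd t ht' c hc x hx).2 (hd' t ht' c hc x hx).1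
    have e2 : D (fun y => inv (F t c y).1 * (F' t c y).2) x =
        e • (D (fun y => (F t c y).1) x * (F' t c x).2 +
          (e • (F t c x).1) * D (fun y => (F' t c y).2) x) := by
      have h2 : (fun y => inv (F t c y).1 * (F' t c y).2) =ᶠ[𝓝 x]
          fun y => e • ((F t c y).1 * (F' t c y).2) := by
        filter_upwards [hnear] with y hy
        rw [(hi t ht' c hc y hy).1, smul_mul_assoc]
      rw [LBP_D_congr h2,
        LBP_D_smul e (LBP_mul_diff (hd t ht' c hc x hx).1 (hd' t ht' c hc x hx).2),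
        ← (hi t ht' c hc x hx).1]
      exact congrArg _ (q_LBZ N _ _ x (hd t ht' c hc x hx).1 (hd' t ht' c hc x hx).2)
    have e3 : D (fun y => (F t c y).2 * (F' t c y).1 + inv (F t c y).1 * (F' t c y).2) x =
        D (fun y => (F t c y).2 * (F' t c y).1) x +
          D (fun y => inv (F t c y).1 * (F' t c y).2) x := by
      refine LBP_D_add (LBP_mul_diff (hd t ht' c hc x hx).2 (hd' t ht' c hc x hx).1) ?_
      have h2 : (fun y => inv (F t c y).1 * (F' t c y).2) =ᶠ[𝓝 x]
          fun y => e • ((F t c y).1 * (F' t c y).2) := by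
        filter_upwards [hnear] with y hy
        rw [(hi t ht' c hc y hy).1, smul_mul_assoc]
      exact ((LBP_mul_diff (hd t ht' c hc x hx).1
        (hd' t ht' c hc x hx).2).const_smul e).congr_of_eventuallyEq h2
    -- the degree of the derivative
    have e4 : inv (G t c x).1 = -(e • (G t c x).1) := by
      have h2 : D (fun y => (F t c y).1) x ∈ ⋀[ℝ]^(k + 1) (VV N) := by
        refine q_DGD N k _ x ?_
        filter_upwards [hnear] with y hy
        exact (hHg k F hF t ht' c hc y hy).h0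
      rw [hG.d0 t ht' c hc x hx, (q_DEG N).1 (k + 1) _ h2, pow_succ, ← he, mul_neg, mul_one,
        neg_smul]
    show HasDerivAt (fun s => (F s c x).1 * (F' s c x).1)
      (((G t c x).2 * (F' t c x).1 + inv (G t c x).1 * (F' t c x).2 +
        e • ((F t c x).2 * (G' t c x).1 + inv (F t c x).1 * (G' t c x).2)) +
        D (fun y => (F t c y).2 * (F' t c y).1 + inv (F t c y).1 * (F' t c y).2) x) t
    rw [e3, e1, e2, e4, (hi t ht' c hc x hx).1, hG.d0 t ht' c hc x hx, hG'.d0 t ht' c hc x hx,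
      ← LBP_alg e hee]
    exact h1

end HDE
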