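import Pool.Agent.Work.MP_c3bd4f_he.Interface

set_option autoImplicit false

open scoped ContDiff Manifold Topology
open Set MeasureTheory

noncomputable section

namespace HDE

open HDC

/-- Outside of `K` the pullback of `f` by the isotopy is the constant family. -/
theorem VMU_out (n : ℕ) (M : Type) [TopologicalSpace M] [T2Space M]
    [ChartedSpace (EE (2 * n)) M] [IsManifold 𝓘(ℝ, EE (2 * n)) ∞ M] (Ω : Fam (2 * n) M)
    (H : ℝ → M → ℝ) (Φ : ℝ → M → M) (K : Set M) (hHS : HS n Ω H Φ) (hK : IsCompact K)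
    (hs : ∀ t ∈ Icc (0 : ℝ) 1, ∀ p ∉ K, H t p = 0) (k : ℕ) (f : Fam (2 * n) M)
    (hf : IsForm k f) (t : ℝ) (ht : t ∈ Icc (0 : ℝ) 1)
    (c : OpenPartialHomeomorph M (EE (2 * n))) (hc : c ∈ atlas (EE (2 * n)) M)
    (x : EE (2 * n)) (hx : x ∈ c.target) (hxK : c.symm x ∉ K) :
    GS Ω H Φ f t c x = cst f t c x := by
  obtain ⟨-, h2, h3, -⟩ := q_OFK n M Ω H Φ K hHS hK hs
  apply PL.ext
  · exact h2 t ht k f hf c hc x hx hxK
  · show PBK (Φ t) (cF (XX Ω H t) f) c x = 0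
    rcases Nat.eq_zero_or_pos k with hk | hk
    · subst hk
      have h4 : cF (XX Ω H t) f (chartAt (EE (2 * n)) (Φ t (c.symm x)))
          (chartAt (EE (2 * n)) (Φ t (c.symm x)) (Φ t (c.symm x))) = 0 :=
        (q_DEG (2 * n)).2.2.1 _ _ (hf.deg _ (chart_mem_atlas _ _) _ (mem_chart_target _ _))
      show pb _ (cF (XX Ω H t) f (chartAt (EE (2 * n)) (Φ t (c.symm x)))
          (chartAt (EE (2 * n)) (Φ t (c.symm x)) (Φ t (c.symm x)))) = 0
      rw [h4, map_zero]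
    · obtain ⟨l, rfl⟩ : ∃ l, k = l + 1 := ⟨k - 1, by omega⟩
      have hT : TVF (XX Ω H) := (q_XHS (2 * n) M Ω H hHS.symp.form hHS.symp.nondeg hHS.ham).1
      have hF : TForm (l + 1) (fun _ : ℝ => f) := (q_FO2 (2 * n) M).2.2.2.1 (l + 1) f hf
      have hG : IsForm l (cF (XX Ω H t) f) :=
        (q_FO3 (2 * n) M l (XX Ω H) (fun _ => f) hT hF).form t ht
      rw [h2 t ht l _ hG c hc x hx hxK]
      show ctr (XX Ω H t c x) (f c x) = 0
      rw [h3 t ht c hc x hx hxK]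
      simp [ctr]

theorem p_VMU : Stmt_VMU := by
  intro n M _ _ _ _ Ω H H' Φ Φ' K hT k f hf
  refine ⟨?_, ?_, ?_⟩
  · intro t ht c hc x hx hxK
    show GS Ω H Φ f t c x - GS Ω H' Φ' f t c x = 0
    rw [VMU_out n M Ω H Φ K hT.h hT.cpt hT.s k f hf t ht c hc x hx hxK,
      VMU_out n M Ω H' Φ' K hT.h' hT.cpt hT.s' k f hf t ht c hc x hx hxK, sub_self]
  · intro c hc x hx
    show PBK (Φ 0) f c x - PBK (Φ' 0) f c x = 0
    rw [(q_PBO (2 * n) M Φ k f hT.h.iso.smooth hT.h.iso.zero hf).2 c hc x hx,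
      (q_PBO (2 * n) M Φ' k f hT.h'.iso.smooth hT.h'.iso.zero hf).2 c hc x hx, sub_self]
  · intro c hc x hx
    show PBK (Φ 1) f c x - PBK (Φ' 1) f c x = 0
    rw [hT.e, sub_self]

end HDE
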