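import Pool.Agent.Work.MP_c3bd4f_hd.Interface

set_option autoImplicit false

/-!
# Calabi invariant when `Ω` is a sum of products of closed `1`-forms and a form `ρ` with `ρ ^ j` exact:
auxiliary definitions (differential forms on `[0, 1] × M`)

`PL N` is the algebra of the pairs `(a, b)`, which stand for `a + dt ∧ b`.
-/

open scoped ContDiff Manifold Topology
open Set MeasureTheory

noncomputable section

namespace HDE

open HDC

/-- Pairs `(a, b)`, which stand for `a + dt ∧ b`. -/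
def PL (N : ℕ) : Type := Lam N × Lam N

namespace PL

variable {N : ℕ}

instance : AddCommGroup (PL N) := inferInstanceAs (AddCommGroup (Lam N × Lam N))

instance : Module ℝ (PL N) := inferInstanceAs (Module ℝ (Lam N × Lam N))

instance : Mul (PL N) := ⟨fun x y => (x.1 * y.1, x.2 * y.1 + inv x.1 * y.2)⟩

instance : One (PL N) := ⟨((1 : Lam N), (0 : Lam N))⟩

theorem mul_fst (x y : PL N) : (x * y).1 = x.1 * y.1 := rfl
theorem mul_snd (x y : PL N) : (x * y).2 = x.2 * y.1 + inv x.1 * y.2 := rfl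
theorem one_fst : (1 : PL N).1 = 1 := rfl
theorem one_snd : (1 : PL N).2 = 0 := rfl
theorem add_fst (x y : PL N) : (x + y).1 = x.1 + y.1 := rfl
theorem add_snd (x y : PL N) : (x + y).2 = x.2 + y.2 := rfl
theorem smul_fst (r : ℝ) (y : PL N) : (r • y).1 = r • y.1 := rfl
theorem smul_snd (r : ℝ) (y : PL N) : (r • y).2 = r • y.2 := rfl
theorem zero_fst : (0 : PL N).1 = 0 := rfl
theorem zero_snd : (0 : PL N).2 = 0 := rfl
theorem neg_fst (x : PL N) : (-x).1 = -x.1 := rfl
theorem neg_snd (x : PL N) : (-x).2 = -x.2 := rfl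
theorem sub_fst (x y : PL N) : (x - y).1 = x.1 - y.1 := rfl
theorem sub_snd (x y : PL N) : (x - y).2 = x.2 - y.2 := rfl

theorem ext {x y : PL N} (h1 : x.1 = y.1) (h2 : x.2 = y.2) : x = y := Prod.ext h1 h2

instance : Ring (PL N) :=
  { (inferInstance : AddCommGroup (PL N)), (inferInstance : Mul (PL N)),
    (inferInstance : One (PL N)) with
    left_distrib := fun x y z => ext (by simp only [mul_fst, add_fst, mul_add])
      (by simp only [mul_snd, add_fst, add_snd, mul_add]; abel)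
    right_distrib := fun x y z => ext (by simp only [mul_fst, add_fst, add_mul])
      (by simp only [mul_snd, add_fst, add_snd, add_mul, map_add]; abel)
    zero_mul := fun x => ext (by simp only [mul_fst, zero_fst, zero_mul])
      (by simp only [mul_snd, zero_fst, zero_snd, zero_mul, map_zero, add_zero])
    mul_zero := fun x => ext (by simp only [mul_fst, zero_fst, mul_zero])
      (by simp only [mul_snd, zero_fst, zero_snd, mul_zero, add_zero])
    mul_assoc := fun x y z => ext (by simp only [mul_fst, mul_assoc])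
      (by simp only [mul_fst, mul_snd, add_mul, mul_add, map_mul, mul_assoc]; abel)
    one_mul := fun x => ext (by simp only [mul_fst, one_fst, one_mul])
      (by simp only [mul_snd, one_fst, one_snd, zero_mul, map_one, one_mul, zero_add])
    mul_one := fun x => ext (by simp only [mul_fst, one_fst, mul_one])
      (by simp only [mul_snd, one_fst, one_snd, mul_one, mul_zero, add_zero]) }

instance : Algebra ℝ (PL N) := Algebra.ofModule
  (fun r x y => ext (by simp only [mul_fst, smul_fst, smul_mul_assoc])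
    (by simp only [mul_snd, smul_fst, smul_snd, smul_mul_assoc, map_smul, smul_add]))
  (fun r x y => ext (by simp only [mul_fst, smul_fst, mul_smul_comm])
    (by simp only [mul_snd, smul_fst, smul_snd, mul_smul_comm, smul_add]))

end PL

/-- `x = a + dt ∧ b` is homogeneous of degree `k`. -/
structure Hg {N : ℕ} (k : ℕ) (x : PL N) : Prop where
  h0 : x.1 ∈ ⋀[ℝ]^k (VV N)
  h1 : ∀ l, k = l + 1 → x.2 ∈ ⋀[ℝ]^l (VV N)
  hz : k = 0 → x.2 = 0

/-- The polynomial `∑ (i < s), q i • x ^ i y ^ (m - i)`. -/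
def HP {R : Type} [Ring R] [Algebra ℝ R] (m s : ℕ) (q : ℕ → ℝ) (x y : R) : R :=
  ∑ i ∈ Finset.range s, q i • (x ^ i * y ^ (m - i))

/-- The binomial coefficients. -/
def bc (n i : ℕ) : ℝ := ((n.choose i : ℕ) : ℝ)

section mfd

variable {N : ℕ} {M : Type} [TopologicalSpace M]

/-- Local expressions of forms on `[0, 1] × M`. -/
abbrev PFam (N : ℕ) (M : Type) [TopologicalSpace M] :=
  ℝ → OpenPartialHomeomorph M (EE N) → EE N → PL N

/-- The pullback of `f` by the projection to `M`. -/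
def cst (f : Fam N M) : PFam N M := fun _ c x => ((f c x, (0 : Lam N)) : Lam N × Lam N)

variable [ChartedSpace (EE N) M]

/-- The pullback of `f` by the map `(t, p) ↦ Φ t p`, `Φ` the isotopy of `H`. -/
def GS (Ω : Fam N M) (H : ℝ → M → ℝ) (Φ : ℝ → M → M) (f : Fam N M) : PFam N M := fun t c x =>
  ((PBK (Φ t) f c x, PBK (Φ t) (cF (XX Ω H t) f) c x) : Lam N × Lam N)


/-- `F` and `G` agree (only the values for `t ∈ [0, 1]` on the targets of the charts matter). -/
def EqP (F G : PFam N M) : Prop :=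
  ∀ t ∈ Icc (0 : ℝ) 1, ∀ c ∈ atlas (EE N) M, ∀ x ∈ c.target, F t c x = G t c x

/-- `F` is a smooth form of degree `k` on `[0, 1] × M`. -/
structure DFm (k : ℕ) (F : PFam N M) : Prop where
  f0 : TForm k (fun t c x => (F t c x).1)
  f1 : ∀ l, k = l + 1 → TForm l (fun t c x => (F t c x).2)
  fz : k = 0 → ∀ t ∈ Icc (0 : ℝ) 1, ∀ c ∈ atlas (EE N) M, ∀ x ∈ c.target, (F t c x).2 = 0

/-- `G` is the exterior derivative of `F`: `d (a + dt ∧ b) = d a + dt ∧ (∂_t a - d b)`. -/
structure DD (F G : PFam N M) : Prop where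
  d0 : ∀ t ∈ Icc (0 : ℝ) 1, ∀ c ∈ atlas (EE N) M, ∀ x ∈ c.target,
    (G t c x).1 = D (fun y => (F t c y).1) x
  d1 : ∀ t ∈ Ioo (0 : ℝ) 1, ∀ c ∈ atlas (EE N) M, ∀ x ∈ c.target,
    HasDerivAt (fun s => (F s c x).1) ((G t c x).2 + D (fun y => (F t c y).2) x) t

/-- `F` vanishes outside of `K`, and its restrictions to `t = 0` and `t = 1` are `0`. -/
structure Vn (K : Set M) (F : PFam N M) : Prop where
  cs : ∀ t ∈ Icc (0 : ℝ) 1, ∀ c ∈ atlas (EE N) M, ∀ x ∈ c.target, c.symm x ∉ K → F t c x = 0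
  v0 : ∀ c ∈ atlas (EE N) M, ∀ x ∈ c.target, (F 0 c x).1 = 0
  v1 : ∀ c ∈ atlas (EE N) M, ∀ x ∈ c.target, (F 1 c x).1 = 0

end mfd

/-- The form `(H_t ∘ Φ_t) dt`. -/
def gg (N : ℕ) {M : Type} [TopologicalSpace M] [ChartedSpace (EE N) M] (H : ℝ → M → ℝ)
    (Φ : ℝ → M → M) : PFam N M := fun t c x =>
  (((0 : Lam N), PBK (Φ t) (hF N (H t)) c x) : Lam N × Lam N)

section symp

variable {M : Type} [TopologicalSpace M] [MeasurableSpace M]

/-- The integral over `[0, 1] × M` of the form `F` of degree `2 n + 1`. -/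
def JJ (n : ℕ) [ChartedSpace (EE (2 * n)) M] (Ω : Fam (2 * n) M) (vol : Measure M)
    (F : PFam (2 * n) M) : ℝ :=
  ∫ t in (0 : ℝ)..1, ∫ p, dn n Ω (fun c x => (F t c x).2) p ∂vol

/-- `F` is a form of degree `2 n + 1` with support in `[0, 1] × K` and integral `0`. -/
structure Nl (n : ℕ) [ChartedSpace (EE (2 * n)) M] (Ω : Fam (2 * n) M) (vol : Measure M) (K : Set M)
    (F : PFam (2 * n) M) : Prop where
  frm : DFm (2 * n + 1) F
  cs : ∀ t ∈ Icc (0 : ℝ) 1, ∀ c ∈ atlas (EE (2 * n)) M, ∀ x ∈ c.target, c.symm x ∉ K → F t c x = 0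
  int : JJ n Ω vol F = 0

/-- The setting: `M` is a symplectic manifold of finite volume. -/
structure Sg (n : ℕ) [ChartedSpace (EE (2 * n)) M] (Ω : Fam (2 * n) M) (vol : Measure M)
    (K : Set M) : Prop where
  symp : IsSymplectic n Ω
  vl : IsVol n Ω vol
  fin : IsFiniteMeasure vol
  cpt : IsCompact K

end symp

/-- Two Hamiltonian isotopies with the same time one map. -/
structure TwoH (n : ℕ) {M : Type} [TopologicalSpace M] [ChartedSpace (EE (2 * n)) M]
    (Ω : Fam (2 * n) M) (H H' : ℝ → M → ℝ) (Φ Φ' : ℝ → M → M) (K : Set M) : Prop where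
  h : HS n Ω H Φ
  h' : HS n Ω H' Φ'
  cpt : IsCompact K
  s : ∀ t ∈ Icc (0 : ℝ) 1, ∀ p ∉ K, H t p = 0
  s' : ∀ t ∈ Icc (0 : ℝ) 1, ∀ p ∉ K, H' t p = 0
  e : Φ 1 = Φ' 1

/-- `M` has no compact connected component. -/
def NoC (M : Type) [TopologicalSpace M] : Prop := ∀ p : M, ¬ IsCompact (connectedComponent p)

end HDE
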