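import Pool.Agent.Work.MP_c3bd4f_hd.All
import Pool.Agent.Work.MP_c3bd4f_he.Defs

set_option autoImplicit false

/-!
# Calabi invariant when `Ω` is a sum of products of closed `1`-forms and of a form `ρ` with `ρ ^ j` exact:
interface

The file of block `X` is `Pool/Agent/Work/MP_c3bd4f_he/B_X.lean`: `import` this file, open the same
namespaces (`open HDC`, `open scoped ContDiff Manifold Topology`, `open Set MeasureTheory`),
`namespace HDE`, `theorem p_X (hA : Stmt_A) (hB : Stmt_B) .. : Stmt_X` with the blocks of the column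
`uses` as hypotheses in that order; auxiliary lemmas with prefix `X_`.

THE BLOCKS OF `MP_c3bd4f_hd` ARE PROVED: use `HDC.q_ALG`, `HDC.q_DEG`, `HDC.q_STM`, .. freely (statements
`HDC.Stmt_X` in `MP_c3bd4f_hd/Interface.lean`, list in `MP_c3bd4f_hd/All.lean`); they are not in the column `uses`.

NOTATION.  `PL N` (Defs) is a ring: pairs `(a, b)` = `a + dt ∧ b`, `(a, b) (c, d) = (a c, b c + inv a d)`
(`PL.mul_fst`, `PL.mul_snd`, `PL.add_fst`, .., `PL.ext`).  `PFam N M` is a function type: ring operations are pointwise,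
`(F * G) t c x = F t c x * G t c x` by `rfl`, the same for `+`, `-`, `•`, `^` (`Pi.pow_apply`).
The REGION is the set of the `(t, c, x)` with `t ∈ Icc 0 1`, `c` in the atlas, `x ∈ c.target`.
-/

open scoped ContDiff Manifold Topology
open Set MeasureTheory

noncomputable section

namespace HDE

open HDC

/-- The polynomial `U (x, y) = ∑ (i ≤ r), C(n+1, i) x ^ i y ^ (n + 1 - i - j)`. -/
def UU {R : Type} [Ring R] [Algebra ℝ R] (n r j : ℕ) (x y : R) : R :=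
  HP (n + 1 - j) (r + 1) (bc (n + 1)) x y

/-- Values of `HP` in `PFam`. -/
theorem HP_apply {N : ℕ} {M : Type} [TopologicalSpace M] (m s : ℕ) (q : ℕ → ℝ) (X Y : PFam N M)
    (t : ℝ) (c : OpenPartialHomeomorph M (EE N)) (x : EE N) :
    (HP m s q X Y) t c x = HP m s q (X t c x) (Y t c x) := by
  unfold HP
  simp only [Finset.sum_apply, Pi.smul_apply, Pi.mul_apply, Pi.pow_apply]

/-! ## A. Algebra -/

/-- BLOCK PLA (uses nothing): homogeneous elements of `PL N`.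
PROOF.  With `DEG`, `ALG`, `CPW` of HDC.  `x = (a, b)`, `y = (c, d)`; use `PL.ext`.
(1) `a ∈ ⋀^2`: `a * z = z * a` for all `z` (CPW (1)), `inv a = a` (DEG (1)); `b ∈ ⋀^1 = range io` (`pow_one`), so `b = io β`
and `b * z = inv z * b` (ALG (1)).  So `x y = (a c, b c + a d) = (c a, inv c * b + d * a) = y x`.
(2) `a` is a scalar, `b = 0`.
(3), (4) `a, c ∈ ⋀^1`, `b, d` scalars: `a a = 0` (`ExteriorAlgebra.ι_sq_zero`), `a c = - c a` (DEG (6)), `inv a = - a`, scalars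
commute with everything.
(5) degrees: `a c ∈ ⋀^(k+l)` (`SetLike.mul_mem_graded`), `b c + inv a * d` (DEG (1): `inv a = ± a`); if `k = 0` then `b = 0`, if
`l = 0` then `d = 0`.
(6) DEG (1) for `a` and for `b` (`k = l + 1`), `b = 0` if `k = 0`.  (7), (8) submodules; `1 = algebraMap 1`, DEG (8).
(9) `a = algebraMap s`, `b = 0`: `x = s • 1`. -/
def Stmt_PLA : Prop := ∀ N : ℕ,
  (∀ x y : PL N, Hg 2 x → x * y = y * x) ∧ (∀ x y : PL N, Hg 0 x → x * y = y * x) ∧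
  (∀ x : PL N, Hg 1 x → x * x = 0) ∧ (∀ x y : PL N, Hg 1 x → Hg 1 y → x * y = -(y * x)) ∧
  (∀ (k l : ℕ) (x y : PL N), Hg k x → Hg l y → Hg (k + l) (x * y)) ∧
  (∀ (k : ℕ) (x : PL N), Hg k x → inv x.1 = (-1 : ℝ) ^ k • x.1 ∧
    inv x.2 = -((-1 : ℝ) ^ k • x.2)) ∧
  (∀ (k : ℕ) (x y : PL N) (r : ℝ), Hg k x → Hg k y →
    Hg k (x + y) ∧ Hg k (x - y) ∧ Hg k (r • x) ∧ Hg k (0 : PL N)) ∧ Hg 0 (1 : PL N) ∧
  ∀ x : PL N, Hg 0 x → ∃ s : ℝ, x = s • (1 : PL N)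

/-- BLOCK ALP (uses nothing): sums of commuting elements with square `0`.
PROOF.  Induction on `s` (`Finset.induction_on`): `S = ∑ i ∈ s, e i`, `m = s.card`, `S ^ (m + 1) = 0`, `e = e a` commutes with `S`, `e e = 0`.
`Commute.add_pow`: in `(e + S) ^ (m + 2) = ∑ e ^ k S ^ (m + 2 - k) * choose` the terms with `k ≥ 2` contain `e ^ 2 = 0`, the terms with
`k ≤ 1` contain `S ^ (m + 1) = 0`. -/
def Stmt_ALP : Prop := ∀ (R I : Type) [Ring R] (s : Finset I) (e : I → R),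
  (∀ i ∈ s, ∀ k ∈ s, e i * e k = e k * e i) → (∀ i ∈ s, e i * e i = 0) →
  (∑ i ∈ s, e i) ^ (s.card + 1) = 0

/-- BLOCK ALS (uses nothing): the algebra of the elementary step.
PROOF.  `P = A B`, `Q = C B` are central, `P P = A B A B = - A A B B = 0`, `P Q = Q P = 0`, `Q Q = 0`, `P B = Q B = 0 = B P = B Q`.
For a central `P` with `P P = 0`: `(et - P) ^ m = et ^ m - m P et ^ (m-1)`, `(wf + P) ^ i = wf ^ i + i P wf ^ (i-1)` (induction).
(1) with `P` and `P + Q`.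
(*) `U (wf + P) (et - P) = U wf et + P Xi` for every central `P`, `P P = 0`: the coefficient of `P` is
`∑ (i ≤ r) C(n+1,i) (i wf^(i-1) et^(n+1-j-i) - (n+1-j-i) wf^i et^(n-j-i))`; shift the first sum:
`(i+1) C(n+1,i+1) = (n+1-i) C(n+1,i)` (`Nat.choose_succ_right_eq`) for `i < r`; `wf ^ r = 0` kills the term `i = r` of the second sum;
the difference is `∑ (i < r) C(n+1,i) j wf^i et^(n-j-i)`.
(2) `(nu - j c B et^(j-1)) (Uf + (P + Q) Xi) - nu (Uf + P Xi) = nu Q Xi - j c B et^(j-1) Uf` because `B (P + Q) = 0`, `Uf = U wf et`; and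
`(et - P)^j c B Xi = c B et^j Xi` (`P B = 0`), `et^j Xi = j et^(j-1) Uf`: both are `j ∑ (i < r) C(n+1,i) wf^i et^(n-i)` (`wf^r = 0`; the
exponents: `i < r` gives `i ≤ n - j`, and `i ≤ r` gives `i ≤ n + 1 - j`). -/
def Stmt_ALS : Prop := ∀ (R : Type) [Ring R] [Algebra ℝ R] (n r j : ℕ) (A B C c wf et nu : R),
  1 ≤ r → 1 ≤ j → r + j ≤ n + 1 → (∀ y, c * y = y * c) → (∀ y, wf * y = y * wf) →
  (∀ y, et * y = y * et) → (∀ y, A * B * y = y * (A * B)) → (∀ y, C * B * y = y * (C * B)) →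
  B * B = 0 → A * B = -(B * A) → C * B = -(B * C) → wf ^ r = 0 →
  (et - A * B) ^ j - (j : ℝ) • (C * B * et ^ (j - 1)) = (et - (A + C) * B) ^ j ∧
  (nu - (j : ℝ) • (c * B * et ^ (j - 1))) * UU n r j (wf + (A + C) * B) (et - (A + C) * B) -
      nu * UU n r j (wf + A * B) (et - A * B) =
    nu * (C * B * ((j : ℝ) • HP (n - j) r (bc (n + 1)) wf et)) -
      (et - A * B) ^ j * (c * B * ((j : ℝ) • HP (n - j) r (bc (n + 1)) wf et))

/-- BLOCK AL0 (uses nothing): the algebra of step 0.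
PROOF.  `dU = ∑ (i ≤ r) C(n+1,i) (n+1-i-j) w^i rho^(n-j-i)` (if `i = n + 1 - j` the coefficient is `0`).  `dg` is central with square `0`:
`(rho - dg)^m = rho^m - m dg rho^(m-1)`, so (1), and `U w (rho - dg) = U w rho - dg dU`.
(2) `(nu - j g rho^(j-1)) (U - dg dU) - nu U = - nu dg dU - j g rho^(j-1) U` because `g dg = 0` (`rho`, `dg` central), and
`rho^j g dU + j g rho^(j-1) U = g ∑ (i ≤ r) C(n+1,i) (n+1-i) w^i rho^(n-i) = (n+1) g ∑ (i ≤ r) C(n,i) w^i rho^(n-i) = (n+1) g (w+rho)^n`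
(`Nat.choose_mul_succ_eq`; `Commute.add_pow`, `w^(r+1) = 0`). -/
def Stmt_AL0 : Prop := ∀ (R : Type) [Ring R] [Algebra ℝ R] (n r j : ℕ) (w rho g dg nu : R),
  1 ≤ j → r + j ≤ n + 1 → (∀ y, w * y = y * w) → (∀ y, rho * y = y * rho) →
  (∀ y, dg * y = y * dg) → g * dg = 0 → dg * dg = 0 → w ^ (r + 1) = 0 →
  (rho - dg) ^ j = rho ^ j - (j : ℝ) • (dg * rho ^ (j - 1)) ∧
  (nu - (j : ℝ) • (g * rho ^ (j - 1))) * UU n r j w (rho - dg) - nu * UU n r j w rho =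
    (rho ^ j * (g * HP (n - j) (r + 1) (fun i => bc (n + 1) i * ((n : ℝ) + 1 - i - j)) w rho) -
      nu * (dg * HP (n - j) (r + 1) (fun i => bc (n + 1) i * ((n : ℝ) + 1 - i - j)) w rho)) -
      ((n : ℝ) + 1) • (g * (w + rho) ^ n)

/-! ## B. Calculus of forms on `[0, 1] × M` -/

/-- BLOCK DFA (uses PLA): operations on forms.
PROOF.  FO2 of HDC for the components.  (3) `(F G).1 = F.1 G.1`, `(F G).2 = F.2 G.1 + inv F.1 G.2` and `inv F.1 = (-1)^k • F.1` on the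
region (FO2 (8) for the congruence); `k + l = m + 1`: if `k = 0` then `F.2 = 0` on the region, if `l = 0` then `G.2 = 0`.
(4) constant families: `1 = f ^ 0`, or directly.  (5) FO2 (8).  (6) `IsForm.deg`.  (7) `IsForm.smooth` on the open `c.target`; in degree `0`
the second component is `0` near `x`. -/
def Stmt_DFA : Prop := ∀ (N : ℕ) (M : Type) [TopologicalSpace M] [ChartedSpace (EE N) M]
  [IsManifold 𝓘(ℝ, EE N) ∞ M],
  (∀ (k : ℕ) (F G : PFam N M), DFm k F → DFm k G → DFm k (F + G) ∧ DFm k (F - G)) ∧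
  (∀ (k : ℕ) (F : PFam N M) (r : ℝ), DFm k F → DFm k (r • F)) ∧
  (∀ (k l : ℕ) (F G : PFam N M), DFm k F → DFm l G → DFm (k + l) (F * G)) ∧
  DFm 0 (1 : PFam N M) ∧
  (∀ (k : ℕ) (F G : PFam N M), EqP F G → DFm k F → DFm k G) ∧
  (∀ (k : ℕ) (F : PFam N M), DFm k F → ∀ t ∈ Icc (0 : ℝ) 1, ∀ c ∈ atlas (EE N) M,
    ∀ x ∈ c.target, Hg k (F t c x)) ∧
  (∀ (k : ℕ) (F : PFam N M), DFm k F → ∀ t ∈ Icc (0 : ℝ) 1, ∀ c ∈ atlas (EE N) M,
    ∀ x ∈ c.target, ContDiffAt ℝ ∞ (fun y => (F t c y).1) x ∧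
      ContDiffAt ℝ ∞ (fun y => (F t c y).2) x) ∧
  ∀ k : ℕ, DFm k (0 : PFam N M)

/-- BLOCK DDA (uses DFA): the exterior derivative is linear and local.
PROOF.  (1), (2): `D` is linear on functions differentiable at `x` (DFA (7)): `fderiv_add`, `fderiv_sub`, `fderiv_const_smul` and
`mul_add`; `HasDerivAt.add`, `.sub`, `.const_smul`.  (3) `c.target` is open and `t` is interior (`Filter.EventuallyEq.fderiv_eq`,
`HasDerivAt.congr_of_eventuallyEq`; `Ioo ⊆ Icc`).  (4) constants. -/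
def Stmt_DDA : Prop := ∀ (N : ℕ) (M : Type) [TopologicalSpace M] [ChartedSpace (EE N) M]
  [IsManifold 𝓘(ℝ, EE N) ∞ M],
  (∀ (k : ℕ) (F F' G G' : PFam N M), DFm k F → DFm k F' → DD F G → DD F' G' →
    DD (F + F') (G + G') ∧ DD (F - F') (G - G')) ∧
  (∀ (k : ℕ) (F G : PFam N M) (r : ℝ), DFm k F → DD F G → DD (r • F) (r • G)) ∧
  (∀ F F' G G' : PFam N M, EqP F F' → EqP G G' → DD F G → DD F' G') ∧
  DD (1 : PFam N M) 0 ∧ DD (0 : PFam N M) 0

/-- BLOCK LBP (uses PLA, DFA): Leibniz rule.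
PROOF.  At a point of the region, `F = (a, b)`, `F' = (a', b')`, `G = (d a, ∂a - d b)`, `G' = (d a', ∂a' - d b')`:
`d0`: `D (a a') = D a a' + inv a D a'` (LBZ), `inv a = (-1)^k a`.
`d1`: the derivative of `s ↦ a a'` is `∂a a' + a ∂a'` (bilinear: DRV (1) with `P = ℝ`, or `IsBoundedBilinearMap`), and
`D (b a' + inv a b')` `= D b a' + inv b D a' + D (inv a) b' + a D b'`, where `inv a = (-1)^k • a` near `x`, `inv b = -(-1)^k • b`
(PLA (6)), `D (inv a) = (-1)^k D a`; and `(G F' + (-1)^k F G').2 = (∂a - D b) a' + inv (D a) b' + (-1)^k (b D a' + inv a (∂a' - D b'))` with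
`inv (D a) = (-1)^(k+1) D a` (degree `k + 1`, DGD), `(-1)^k inv a = a`.  Add: both sides agree. -/
def Stmt_LBP : Prop := ∀ (N : ℕ) (M : Type) [TopologicalSpace M] [ChartedSpace (EE N) M]
  [IsManifold 𝓘(ℝ, EE N) ∞ M] (k l : ℕ) (F F' G G' : PFam N M),
  DFm k F → DFm l F' → DD F G → DD F' G' → DD (F * F') (G * F' + (-1 : ℝ) ^ k • (F * G'))

/-- BLOCK HPC (uses DFA, DDA, LBP): polynomials in closed forms of degree `2` are closed.
PROOF.  (1) induction on `j` with LBP (`(-1)^(2 j) = 1`), DFA (3), DDA (3), (4).  (2) each `X ^ i * Y ^ (m - i)` with `i ≤ m` is closed of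
degree `2 m`; the terms with `q i = 0` are `0` (DFA (8)); finite sums by induction on `s` (`Finset.sum_range_succ`). -/
def Stmt_HPC : Prop := ∀ (N : ℕ) (M : Type) [TopologicalSpace M] [ChartedSpace (EE N) M]
  [IsManifold 𝓘(ℝ, EE N) ∞ M] (X Y : PFam N M), DFm 2 X → DFm 2 Y → DD X 0 → DD Y 0 →
  (∀ j : ℕ, DFm (2 * j) (X ^ j) ∧ DD (X ^ j) 0) ∧
  ∀ (m s : ℕ) (q : ℕ → ℝ), (∀ i < s, q i ≠ 0 → i ≤ m) →
    DFm (2 * m) (HP m s q X Y) ∧ DD (HP m s q X Y) 0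

/-- BLOCK GSM (uses nothing): the pullback is an algebra homomorphism.
PROOF.  (1) everything is pointwise: `PBK φ` is `pb` of a value, an algebra homomorphism, `pb (inv x) = inv (pb x)` (PBA (5)),
`cF X (f g) = cF X f * g + inv f * cF X g` (ALG (2)), `cF X 1 = 0` (ALG (4)).  Build the `AlgHom` by hand.
(2) CNG of HDC; `cF` is pointwise and `PBK` evaluates at a point of the target of a chart of the atlas (the argument of CNG). -/
def Stmt_GSM : Prop := ∀ (N : ℕ) (M : Type) [TopologicalSpace M] [ChartedSpace (EE N) M]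
  (Ω : Fam N M) (H : ℝ → M → ℝ) (Φ : ℝ → M → M),
  (∃ h : Fam N M →ₐ[ℝ] PFam N M, ∀ f, h f = GS Ω H Φ f) ∧
  ∀ f g : Fam N M, EqF f g → EqP (GS Ω H Φ f) (GS Ω H Φ g)

/-- BLOCK GSD (uses GSM): the pullback commutes with `d`.
PROOF.  `X = XX Ω H`, `TVF X`, `Flw X Φ` (XHS).  `DFm`: PBT for the constant family `f` (FO2 (4)) and for `t ↦ cF (X t) f` (FO3, `k = l + 1`); if
`k = 0` then `cF (X t) f = 0` on targets (DEG (3)) and `PBK` of it is `0`.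
`d0`: PBO (1).  `d1`: TDF, `Lie (X t) f = dF (cF (X t) f) + cF (X t) (dF f)`, `PBK` is additive, and
`PBK (Φ t) (dF (cF (X t) f)) = dF (PBK (Φ t) (cF (X t) f))` on targets: PBO (1) for the form `cF (X t) f` (`k = 0`: both are `0`).
(`PBO` asks `SmI N Φ` and `Φ 0 = id`: from `HS.iso`.) -/
def Stmt_GSD : Prop := ∀ (n : ℕ) (M : Type) [TopologicalSpace M] [ChartedSpace (EE (2 * n)) M]
  [IsManifold 𝓘(ℝ, EE (2 * n)) ∞ M] (Ω : Fam (2 * n) M) (H : ℝ → M → ℝ) (Φ : ℝ → M → M),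
  HS n Ω H Φ → ∀ (k : ℕ) (f : Fam (2 * n) M), IsForm k f →
  DFm k (GS Ω H Φ f) ∧ DD (GS Ω H Φ f) (GS Ω H Φ (dF f))

/-- BLOCK CSD (uses nothing): constant families.
PROOF.  FO2 (4), the zero family; `DD`: the derivative in `t` of a constant, `D 0 = 0`.  (3) `PL.ext`. -/
def Stmt_CSD : Prop := ∀ (N : ℕ) (M : Type) [TopologicalSpace M] [ChartedSpace (EE N) M]
  [IsManifold 𝓘(ℝ, EE N) ∞ M],
  (∀ (k : ℕ) (f : Fam N M), IsForm k f → DFm k (cst f) ∧ DD (cst f) (cst (dF f))) ∧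
  ∀ f g : Fam N M, cst (f * g) = cst f * cst g

/-- BLOCK GGD (uses nothing): the form `(H_t ∘ Φ_t) dt`.
PROOF.  `DFm 1`: first component `0`, second `PBK (Φ t) (hF (H t))` (HMS (3), PBT).  `DD`: `d0`: `Ω - PBK (Φ t) Ω = 0` on targets (OMI).
`d1`: the derivative of `0` is `0`, so the claim is `-PBK (Φ t) (cF (X t) Ω) + D (PBK (Φ t) (hF (H t))) = 0`: `cF (X t) Ω = dF (hF (H t))` on
targets (XHS (2), DDZ (2) with HMS (1)), CNG, PBO (1) for `hF (H t)` (HMS (3), FO2 (5)).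
(3) `c.symm x ∉ K`: `OFK (2)` for the form `hF (H t)` of degree `0`: `PBK (Φ t) (hF (H t)) c x = hF (H t) c x = 0`. -/
def Stmt_GGD : Prop := ∀ (n : ℕ) (M : Type) [TopologicalSpace M] [T2Space M]
  [ChartedSpace (EE (2 * n)) M] [IsManifold 𝓘(ℝ, EE (2 * n)) ∞ M] (Ω : Fam (2 * n) M)
  (H : ℝ → M → ℝ) (Φ : ℝ → M → M), HS n Ω H Φ →
  DFm 1 (gg (2 * n) H Φ) ∧ DD (gg (2 * n) H Φ) (cst Ω - GS Ω H Φ Ω) ∧
  ∀ K : Set M, IsCompact K → (∀ t ∈ Icc (0 : ℝ) 1, ∀ p ∉ K, H t p = 0) →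
    ∀ t ∈ Icc (0 : ℝ) 1, ∀ c ∈ atlas (EE (2 * n)) M, ∀ x ∈ c.target, c.symm x ∉ K →
      gg (2 * n) H Φ t c x = 0

/-- BLOCK VMU (uses nothing): the difference of the two pullbacks.
PROOF.  (cs) `c.symm x ∉ K`: by OFK (2) `PBK (Φ t) f c x = f c x = PBK (Φ' t) f c x`; second components: if `k = l + 1`, `g = cF (XX Ω H t) f` is a
form (FO3, XHS, FO2), `PBK (Φ t) g c x = g c x` (OFK (2)) `= ctr 0 _ = 0` (OFK (3)); if `k = 0` then `g = 0` on targets (DEG (3)), `PBK g = 0`.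
(v0) PBO (2) for both.  (v1) `Φ 1 = Φ' 1`. -/
def Stmt_VMU : Prop := ∀ (n : ℕ) (M : Type) [TopologicalSpace M] [T2Space M]
  [ChartedSpace (EE (2 * n)) M] [IsManifold 𝓘(ℝ, EE (2 * n)) ∞ M] (Ω : Fam (2 * n) M)
  (H H' : ℝ → M → ℝ) (Φ Φ' : ℝ → M → M) (K : Set M), TwoH n Ω H H' Φ Φ' K →
  ∀ (k : ℕ) (f : Fam (2 * n) M), IsForm k f → Vn K (GS Ω H Φ f - GS Ω H' Φ' f)

/-- BLOCK GDF (uses DFA, DDA, GGD): the form `(H'_t ∘ Φ'_t - H_t ∘ Φ_t) dt`.
PROOF.  GGD for both, DFA (1), DDA (1): `(cst Ω - GS') - (cst Ω - GS) = GS - GS'`.  `Vn`: first components are `0`.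
(4), (5): on the region `y = GS Ω - GS' Ω` has `y.1 = Ω - Ω = 0` (OMI); `(0, b) (0, d) = (0, b 0 + inv 0 d) = 0`. -/
def Stmt_GDF : Prop := ∀ (n : ℕ) (M : Type) [TopologicalSpace M] [T2Space M]
  [ChartedSpace (EE (2 * n)) M] [IsManifold 𝓘(ℝ, EE (2 * n)) ∞ M] (Ω : Fam (2 * n) M)
  (H H' : ℝ → M → ℝ) (Φ Φ' : ℝ → M → M) (K : Set M), TwoH n Ω H H' Φ Φ' K →
  DFm 1 (gg (2 * n) H' Φ' - gg (2 * n) H Φ) ∧ Vn K (gg (2 * n) H' Φ' - gg (2 * n) H Φ) ∧
  DD (gg (2 * n) H' Φ' - gg (2 * n) H Φ) (GS Ω H Φ Ω - GS Ω H' Φ' Ω) ∧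
  EqP ((gg (2 * n) H' Φ' - gg (2 * n) H Φ) * (GS Ω H Φ Ω - GS Ω H' Φ' Ω)) 0 ∧
  EqP ((GS Ω H Φ Ω - GS Ω H' Φ' Ω) * (GS Ω H Φ Ω - GS Ω H' Φ' Ω)) 0

/-! ## C. Primitives -/

/-- BLOCK PSM (uses nothing): primitives with respect to `t` are smooth.
PROOF.  `P (t, x) = ∫ s in 0..t, f (s, x)`, `f' (t, x) = fderiv ℝ (fun y => f (t, y)) x` is smooth on `Icc 0 1 ×ˢ U` (`HDC.q_PDL` with
`univ ×ˢ U`).
(2) and the derivative in `x` of `P`: on `[0, 1] × (closed ball around x0)` (compact, `E` finite dimensional) `f'` is uniformly continuous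
and bounded: `f (s, x) - f (s, x0) - f' (s, x0) (x - x0)` is `≤ ε ‖x - x0‖` (mean value inequality), integrate.  (3) FTC
(`intervalIntegral.integral_hasDerivAt_right`, or `HasDerivWithinAt` version).
(1) Claim for all `k` and all such `f` (same `E`, `U`; `F` varies): `P` is `C^k` on `S = Icc 0 1 ×ˢ U`.  `k = 0`: continuity
(`‖P (t, x) - P (t0, x0)‖ ≤ sup ‖f (s, x) - f (s, x0)‖ + |t - t0| sup ‖f‖`).  Step: at `(t0, x0)` in `S`
`HasFDerivWithinAt P ((fst).smulRight (f (t0, x0)) + (P' (t0, x0)).comp snd) S`, `P' (t, x) = ∫ s in 0..t, f' (s, x)` (with values in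
`E →L[ℝ] F`): `P (t, x) - P (t0, x0) = ∫ t0..t (f (s, x) - f (t0, x0)) + (t - t0) f (t0, x0) + ∫ 0..t0 (f (s, x) - f (s, x0))`.  By induction
`P'` is `C^k`, `f` is smooth: `contDiffOn_succ_iff_hasFDerivWithinAt` (or `contDiffOn_succ_iff_fderivWithin`, unique differentials:
`uniqueDiffOn_Icc`, `UniqueDiffOn.prod`, `IsOpen.uniqueDiffOn`). -/
def Stmt_PSM : Prop := ∀ (E F : Type) [NormedAddCommGroup E] [NormedSpace ℝ E]
  [FiniteDimensional ℝ E] [NormedAddCommGroup F] [NormedSpace ℝ F] [FiniteDimensional ℝ F]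
  (f : ℝ × E → F) (U : Set E), IsOpen U → ContDiffOn ℝ ∞ f (Icc 0 1 ×ˢ U) →
  ContDiffOn ℝ ∞ (fun q : ℝ × E => ∫ s in (0 : ℝ)..q.1, f (s, q.2)) (Icc 0 1 ×ˢ U) ∧
  (∀ t ∈ Icc (0 : ℝ) 1, ∀ x ∈ U, HasFDerivAt (fun y => ∫ s in (0 : ℝ)..t, f (s, y))
    (∫ s in (0 : ℝ)..t, fderiv ℝ (fun y => f (s, y)) x) x) ∧
  ∀ t ∈ Ioo (0 : ℝ) 1, ∀ x ∈ U, HasDerivAt (fun s => ∫ u in (0 : ℝ)..s, f (u, x)) (f (t, x)) t

/-- BLOCK PRM (uses PSM): the primitive of a time dependent form.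
PROOF.  Smooth: PSM (1) for `E = EE N`, `F = Lam N`, `U = c.target`.  For `t` fixed: the slice, and
`pb T (∫ ..) = ∫ pb T (..)` (`ContinuousLinearMap.intervalIntegral_comp_comm`, `pb T` is linear on a finite dimensional space);
degree: compose with a linear projection onto `⋀^k` (or the integral lies in a closed submodule).
(2) `D` is `∑ dx i * fderiv .. (ee i)`: PSM (2) and the linear maps commute with the integral.  (3) PSM (3). -/
def Stmt_PRM : Prop := ∀ (N : ℕ) (M : Type) [TopologicalSpace M] [ChartedSpace (EE N) M]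
  [IsManifold 𝓘(ℝ, EE N) ∞ M] (k : ℕ) (F : ℝ → Fam N M), TForm k F →
  TForm k (fun t c x => ∫ s in (0 : ℝ)..t, F s c x) ∧
  (∀ t ∈ Icc (0 : ℝ) 1, ∀ c ∈ atlas (EE N) M, ∀ x ∈ c.target,
    D (fun y => ∫ s in (0 : ℝ)..t, F s c y) x = ∫ s in (0 : ℝ)..t, D (F s c) x) ∧
  ∀ t ∈ Ioo (0 : ℝ) 1, ∀ c ∈ atlas (EE N) M, ∀ x ∈ c.target,
    HasDerivAt (fun s => ∫ u in (0 : ℝ)..s, F u c x) (F t c x) t

/-- BLOCK CLP (uses PRM): closed forms of degree `1` which vanish at `t = 0` are exact.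
PROOF.  `e t c x = (∫ s in 0..t, (F s c x).2, 0)` (`(F ..).2` is a `TForm 0`).  `DFm 0`: PRM (1).  `DD e F`: `d1` is PRM (3) (`D 0 = 0`).
`d0`: `D (e.1) = ∫ s in 0..t, D ((F s c ·).2) x` (PRM (2)), and by `DD F 0` (`d1`) `s ↦ (F s c x).1` is continuous on `[0, 1]` (`DFm.f0`) with
derivative `D ((F s c ·).2) x` on `(0, 1)`, value `0` at `0`: `intervalIntegral.integral_eq_sub_of_hasDerivAt_of_le` (the derivative is
continuous on `[0, 1]`: FO1 for the `TForm 0`).  Support: the integrand is `0`.  `t = 0`: `integral_same`. -/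
def Stmt_CLP : Prop := ∀ (N : ℕ) (M : Type) [TopologicalSpace M] [ChartedSpace (EE N) M]
  [IsManifold 𝓘(ℝ, EE N) ∞ M] (F : PFam N M) (K : Set M), DFm 1 F → DD F 0 →
  (∀ c ∈ atlas (EE N) M, ∀ x ∈ c.target, (F 0 c x).1 = 0) →
  (∀ t ∈ Icc (0 : ℝ) 1, ∀ c ∈ atlas (EE N) M, ∀ x ∈ c.target, c.symm x ∉ K → F t c x = 0) →
  ∃ e : PFam N M, DFm 0 e ∧ DD e F ∧
    (∀ t ∈ Icc (0 : ℝ) 1, ∀ c ∈ atlas (EE N) M, ∀ x ∈ c.target, c.symm x ∉ K → e t c x = 0) ∧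
    ∀ c ∈ atlas (EE N) M, ∀ x ∈ c.target, (e 0 c x).1 = 0

/-- BLOCK NCC (uses nothing): closed functions of compact support vanish.
PROOF.  `f c x` is a scalar (`IsForm.deg`, `Submodule.mem_one`): `f c x = algebraMap (v c x)`, `v` = composition with a linear left inverse of
`algebraMap` (`ExteriorAlgebra.algebraMapInv`).  `pb T` fixes scalars, so by `compat` `v c x = u (c.symm x)` with
`u p = v (chartAt p) (chartAt p p)`.  By DDZ (2) `io (fderiv (v c) x) = 0`, so `fderiv (v c) x = 0` on the open `c.target` (`ι` is injective) and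
`u` is locally constant: `IsLocallyConstant u` (in a chart, on a ball inside `c.target`: `Convex.is_const_of_fderivWithin_eq_zero` or
`IsOpen.is_const_of_fderiv_eq_zero` on a ball).  If `u p ≠ 0`: `u = u p` on `connectedComponent p`
(`IsLocallyConstant.apply_eq_of_isPreconnected`), so it is a subset of `K` (if `q ∉ K`, `u q = 0` by `CS`), closed
(`isClosed_connectedComponent`), so compact: contradiction to `NoC M`. -/
def Stmt_NCC : Prop := ∀ (N : ℕ) (M : Type) [TopologicalSpace M] [ChartedSpace (EE N) M]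
  [IsManifold 𝓘(ℝ, EE N) ∞ M], NoC M → ∀ (K : Set M) (f : Fam N M), IsCompact K → IsForm 0 f →
  EqF (dF f) 0 → CS K f → EqF f 0

/-- BLOCK CLV (uses DFA, CLP, NCC): closed forms of degree `1` in `Vn K` have a primitive in `Vn K`.
PROOF.  `e` from CLP.  `f c x = (e 1 c x).1` is a form of degree `0` (`DFm.f0`, `TForm.form`), `CS K f`, and
`D (f c) x = (F 1 c x).1 = 0` (`DD.d0` at `t = 1`, `Vn.v1`): NCC gives `Vn.v1` for `e`. -/
def Stmt_CLV : Prop := ∀ (N : ℕ) (M : Type) [TopologicalSpace M] [ChartedSpace (EE N) M]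
  [IsManifold 𝓘(ℝ, EE N) ∞ M], NoC M → ∀ (K : Set M) (F : PFam N M), IsCompact K → DFm 1 F →
  DD F 0 → Vn K F → ∃ e : PFam N M, DFm 0 e ∧ Vn K e ∧ DD e F

/-! ## D. Stokes -/

/-- BLOCK STD (uses DFA): Stokes on `[0, 1] × M`.
PROOF.  Support of `G`: `c.symm x ∉ K`, `K` closed: `E t c = 0` near `x`, so `(G t c x).1 = D (..) x = 0`; for `t` interior the function
`s ↦ (E s c x).1` is `0` near `t`, so `(G t c x).2 + 0 = 0`; for `t = 0, 1` by continuity of `t ↦ (G t c x).2` on `[0, 1]` (`DFm.f1`,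
`TForm.smooth`).
Integral: `L t c x = (G t c x).2 + D (fun y => (E t c y).2) x` is a `TForm (2 n)` (`DFm.f1` for `G`; FO1 for `E.2`, degree `2 n - 1`; FO2 (2)),
zero off `K`.  For `p : M`, `c = chartAt p`, `x = c p`: `u s = top ((E s c x).1) / top (Ω c x ^ n)` is continuous on `[0, 1]` with derivative
`dn n Ω (L t) p` on `(0, 1)` and `u 0 = u 1 = 0`: `∫ t in 0..1, dn n Ω (L t) p = 0`
(`intervalIntegral.integral_eq_sub_of_hasDerivAt_of_le`).  Integrate over `M` and exchange (`(t, p) ↦ dn n Ω (L t) p` is continuous on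
`Icc 0 1 ×ˢ univ` (DNC (3)) and zero off `K`; copy the argument of `MP_c3bd4f_hd/B_TRL.lean`): `∫ t in 0..1, ∫ p, dn n Ω (L t) p = 0`.
For each `t ∈ [0, 1]`: `∫ p, dn n Ω (dF (E.2)) p = 0` (STM), and `dn` is additive (INT for the integrability):
`∫ p, dn n Ω (G t).2 p = ∫ p, dn n Ω (L t) p`. -/
def Stmt_STD : Prop := ∀ (n : ℕ) (M : Type) [TopologicalSpace M] [T2Space M]
  [SecondCountableTopology M] [ChartedSpace (EE (2 * n)) M] [IsManifold 𝓘(ℝ, EE (2 * n)) ∞ M]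
  [MeasurableSpace M] [BorelSpace M] (Ω : Fam (2 * n) M) (vol : Measure M) (K : Set M), 1 ≤ n →
  Sg n Ω vol K → ∀ E G : PFam (2 * n) M, DFm (2 * n) E → DFm (2 * n + 1) G → Vn K E →
  DD E G → Nl n Ω vol K G

/-- BLOCK NLA (uses DFA): the integral is linear.
PROOF.  `dn` is linear in the form at each point; INT for each `t` (the second components are forms of degree `2 n`, `CS K`), and
`t ↦ ∫ p, dn n Ω (F t).2 p` is continuous on `[0, 1]` (`continuousOn_integral_of_compact_support`-type argument: `(t, p) ↦ dn n Ω (F t).2 p` is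
continuous on `Icc 0 1 ×ˢ univ` by DNC (3), zero off the compact `K`; or interval integrable by
`MeasureTheory.Integrable.integral_prod_left` as in `B_TRL.lean`).  (3) CNG: `dn` only sees the values on the targets;
`intervalIntegral.integral_congr`.  (4) from (1) to (3). -/
def Stmt_NLA : Prop := ∀ (n : ℕ) (M : Type) [TopologicalSpace M] [T2Space M]
  [SecondCountableTopology M] [ChartedSpace (EE (2 * n)) M] [IsManifold 𝓘(ℝ, EE (2 * n)) ∞ M]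
  [MeasurableSpace M] [BorelSpace M] (Ω : Fam (2 * n) M) (vol : Measure M) (K : Set M),
  Sg n Ω vol K →
  (∀ F G : PFam (2 * n) M, DFm (2 * n + 1) F → DFm (2 * n + 1) G →
    (∀ t ∈ Icc (0 : ℝ) 1, ∀ c ∈ atlas (EE (2 * n)) M, ∀ x ∈ c.target, c.symm x ∉ K →
      F t c x = 0) →
    (∀ t ∈ Icc (0 : ℝ) 1, ∀ c ∈ atlas (EE (2 * n)) M, ∀ x ∈ c.target, c.symm x ∉ K →
      G t c x = 0) → JJ n Ω vol (F + G) = JJ n Ω vol F + JJ n Ω vol G) ∧
  (∀ (F : PFam (2 * n) M) (r : ℝ), JJ n Ω vol (r • F) = r * JJ n Ω vol F) ∧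
  (∀ F G : PFam (2 * n) M, EqP F G → JJ n Ω vol F = JJ n Ω vol G) ∧
  (∀ (F G : PFam (2 * n) M) (r : ℝ), Nl n Ω vol K F → Nl n Ω vol K G →
    Nl n Ω vol K (F + G) ∧ Nl n Ω vol K (F - G) ∧ Nl n Ω vol K (r • F)) ∧
  (∀ F G : PFam (2 * n) M, EqP F G → Nl n Ω vol K F → Nl n Ω vol K G) ∧
  Nl n Ω vol K (0 : PFam (2 * n) M)

/-! ## E. The steps -/

/-- BLOCK ESL (uses PLA, ALS, DFA, DDA, LBP, HPC, STD, NLA): the elementary step.
PROOF.  `et = wt - wf`, `nu' = nu - j • (c B et^(j-1))`, `Xi = j • HP (n - j) r (bc (n+1)) wf et`.  All values at a point of the region satisfy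
the hypotheses of ALS (PLA: `c` of degree `0`, `wf`, `et`, `A B`, `C B` of degree `2` are central, `B B = 0`, `A B = - B A`, ..; DFA (6)).
Degrees: `0 + 1 + 2 (j-1) = 2 j - 1`; HPC for `et ^ (j-1)`, `Xi` (`i < r` gives `i ≤ n - j`).
`DD (c B et^(j-1)) (C B et^(j-1))`: LBP (`B`, `et^(j-1)` closed), so `DD nu' ((et - A B)^j - j • (C B et^(j-1)))`, rewrite with ALS (1) (DDA (3)).
`Vn K (nu' - nu)`: the factor `c` (`(x y).1 = x.1 y.1`).
`E = nu (c B Xi)` has degree `(2 j - 1) + 0 + 1 + 2 (n - j) = 2 n` and `Vn K E`, `DD E ((et - A B)^j (c B Xi) - nu (C B Xi))` by LBP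
(`(-1)^(2 j - 1) = -1`).  STD for `-E`; ALS (2) says that its derivative is the difference in the claim (congruence: HP_apply; `Nl` only
depends on the values on the region: repeat with DFA (5), DDA (3) before applying STD). -/
def Stmt_ESL : Prop := ∀ (n : ℕ) (M : Type) [TopologicalSpace M] [T2Space M]
  [SecondCountableTopology M] [ChartedSpace (EE (2 * n)) M] [IsManifold 𝓘(ℝ, EE (2 * n)) ∞ M]
  [MeasurableSpace M] [BorelSpace M] (Ω : Fam (2 * n) M) (vol : Measure M) (K : Set M), 1 ≤ n →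
  Sg n Ω vol K → ∀ r j : ℕ, 1 ≤ r → 1 ≤ j → r + j ≤ n + 1 →
  ∀ A B C c wf wt nu : PFam (2 * n) M, DFm 1 A → DFm 1 B → DFm 1 C → DFm 0 c → DFm 2 wf →
  DFm 2 wt → DFm (2 * j - 1) nu → DD A 0 → DD B 0 → DD C 0 → DD c C → DD wf 0 → DD wt 0 →
  DD nu ((wt - wf - A * B) ^ j) → Vn K c → EqP (wf ^ r) 0 →
  ∃ nu' : PFam (2 * n) M, DFm (2 * j - 1) nu' ∧ DD nu' ((wt - wf - (A + C) * B) ^ j) ∧
    Vn K (nu' - nu) ∧
    Nl n Ω vol K (nu' * UU n r j (wf + (A + C) * B) (wt - wf - (A + C) * B) -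
      nu * UU n r j (wf + A * B) (wt - wf - A * B))

/-- BLOCK S0L (uses PLA, AL0, DFA, DDA, LBP, HPC, STD, NLA): step 0.
PROOF.  `nu' = nu - j • (g Y^(j-1))`, `dU = HP (n - j) (r + 1) (..) X Y` (HPC: if `i ≤ r` and the coefficient is not `0` then `i ≤ n - j`, because
`r ≤ n + 1 - j` and for `i = n + 1 - j` the factor is `0`).  `DD nu' (Y^j - j • (dg Y^(j-1))) = DD nu' ((Y - dg)^j)` (AL0 (1)).
`E = nu (g dU)` has degree `2 n`, `Vn K E`, `DD E (Y^j (g dU) - nu (dg dU))`.  STD for `E` and AL0 (2) at the points of the region. -/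
def Stmt_S0L : Prop := ∀ (n : ℕ) (M : Type) [TopologicalSpace M] [T2Space M]
  [SecondCountableTopology M] [ChartedSpace (EE (2 * n)) M] [IsManifold 𝓘(ℝ, EE (2 * n)) ∞ M]
  [MeasurableSpace M] [BorelSpace M] (Ω : Fam (2 * n) M) (vol : Measure M) (K : Set M), 1 ≤ n →
  Sg n Ω vol K → ∀ r j : ℕ, 1 ≤ j → j ≤ n → r + j ≤ n + 1 →
  ∀ X Y g dg nu : PFam (2 * n) M, DFm 2 X → DFm 2 Y → DFm 1 g → DFm 2 dg →
  DFm (2 * j - 1) nu → DD X 0 → DD Y 0 → DD g dg → DD dg 0 → DD nu (Y ^ j) → Vn K g →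
  EqP (g * dg) 0 → EqP (dg * dg) 0 → EqP (X ^ (r + 1)) 0 →
  ∃ nu' : PFam (2 * n) M, DFm (2 * j - 1) nu' ∧ DD nu' ((Y - dg) ^ j) ∧ Vn K (nu' - nu) ∧
    Nl n Ω vol K (nu' * UU n r j X (Y - dg) - nu * UU n r j X Y +
      ((n : ℝ) + 1) • (g * (X + Y) ^ n))

/-- BLOCK CHN (uses PLA, ALP, DFA, DDA, LBP, NLA, ESL): replace all the `1`-forms.
PROOF.  For a finite set `s` of indices let `As i = if i ∈ s then A' i else A i`, `Bs` the same, `w s = ∑ i, As i * Bs i`.  Claim for all `s`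
(`Finset.induction_on`): there is `nu'` with `DFm`, `DD nu' ((wt - w s)^j)`, `Vn K (nu' - nu)` and
`Nl (nu' UU (w s) (wt - w s) - nu UU (w ∅) (wt - w ∅))`.  Step `s ∪ {a}`, `a ∉ s`: `wf = ∑ (i ≠ a) As i Bs i` is closed of degree `2` (LBP, DDA) and
`wf ^ r = 0` on the region (ALP with `card = r - 1`: the products of two elements of degree `1` are central of square `0`: PLA; `1 ≤ r`
because of `a`).  `w s = wf + A a * B a`.  ESL with `A = A a`, `B = B a`, `C = A' a - A a`, `c = ca a`: new product `A' a * B a`.  Then ESL with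
`A = B a`, `B = - A' a`, `C = B' a - B a`, `c = cb a`: `B a * (- A' a) = A' a * B a` and `B' a * (- A' a) = A' a * B' a` on the region
(PLA (4)); EqP congruences by DFA (5), DDA (3), NLA (5).  Add the two `Nl` (NLA (4)). -/
def Stmt_CHN : Prop := ∀ (n : ℕ) (M : Type) [TopologicalSpace M] [T2Space M]
  [SecondCountableTopology M] [ChartedSpace (EE (2 * n)) M] [IsManifold 𝓘(ℝ, EE (2 * n)) ∞ M]
  [MeasurableSpace M] [BorelSpace M] (Ω : Fam (2 * n) M) (vol : Measure M) (K : Set M), 1 ≤ n →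
  Sg n Ω vol K → ∀ r j : ℕ, 1 ≤ j → r + j ≤ n + 1 →
  ∀ (A A' B B' ca cb : Fin r → PFam (2 * n) M) (wt nu : PFam (2 * n) M),
  (∀ i, DFm 1 (A i) ∧ DFm 1 (A' i) ∧ DFm 1 (B i) ∧ DFm 1 (B' i) ∧ DFm 0 (ca i) ∧ DFm 0 (cb i)) →
  (∀ i, DD (A i) 0 ∧ DD (A' i) 0 ∧ DD (B i) 0 ∧ DD (B' i) 0 ∧ DD (ca i) (A' i - A i) ∧
    DD (cb i) (B' i - B i) ∧ Vn K (ca i) ∧ Vn K (cb i)) →
  DFm 2 wt → DD wt 0 → DFm (2 * j - 1) nu → DD nu ((wt - ∑ i, A i * B i) ^ j) →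
  ∃ nu' : PFam (2 * n) M, DFm (2 * j - 1) nu' ∧ DD nu' ((wt - ∑ i, A' i * B' i) ^ j) ∧
    Vn K (nu' - nu) ∧
    Nl n Ω vol K (nu' * UU n r j (∑ i, A' i * B' i) (wt - ∑ i, A' i * B' i) -
      nu * UU n r j (∑ i, A i * B i) (wt - ∑ i, A i * B i))

/-- BLOCK EVL (uses GSM): `S` is `0` at the start.
PROOF.  With the algebra homomorphism `h` of GSM (1) the left side is `h f`, `f = μ * UU n r j (∑ α i * β i) (Ω - ∑ α i * β i)` (`map_mul`,
`map_sum`, `map_pow`, `map_sub`, `map_smul`; unfold `UU`, `HP`).  `EqF f 0`: the values of `f` on targets have degree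
`(2 j - 1) + 2 (n + 1 - j) = 2 n + 1 > 2 n` (`SetLike.mul_mem_graded`, `i ≤ r ≤ n + 1 - j`), DEG (5).  GSM (2). -/
def Stmt_EVL : Prop := ∀ (n : ℕ) (M : Type) [TopologicalSpace M] [ChartedSpace (EE (2 * n)) M]
  [IsManifold 𝓘(ℝ, EE (2 * n)) ∞ M] (Ω μ : Fam (2 * n) M) (H : ℝ → M → ℝ) (Φ : ℝ → M → M)
  (r j : ℕ) (α β : Fin r → Fam (2 * n) M), 1 ≤ j → r + j ≤ n + 1 → IsForm 2 Ω →
  IsForm (2 * j - 1) μ → (∀ i, IsForm 1 (α i) ∧ IsForm 1 (β i)) →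
  EqP (GS Ω H Φ μ * UU n r j (∑ i, GS Ω H Φ (α i) * GS Ω H Φ (β i))
    (GS Ω H Φ Ω - ∑ i, GS Ω H Φ (α i) * GS Ω H Φ (β i))) 0

/-- BLOCK ENA (uses PLA, DFA, DDA, LBP, HPC, STD, NLA): the end in the case `r + 2 j ≤ n + 1`.
PROOF.  `T = HP (n + 1 - 2 j) (r + 1) (bc (n + 1)) X Y` is closed of degree `2 (n + 1 - 2 j)` (HPC) and `UU n r j X Y = Y^j * T` on the region
(`X`, `Y` commute; `n + 1 - j - i = j + (n + 1 - 2 j - i)` for `i ≤ r`).  `E = ka (m T)` has degree `2 n`, `Vn K E`, and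
`DD E (0 * (m T) - ka (Y^j T))` (LBP twice; the degrees `2 j - 1` are odd).  STD for `-E`. -/
def Stmt_ENA : Prop := ∀ (n : ℕ) (M : Type) [TopologicalSpace M] [T2Space M]
  [SecondCountableTopology M] [ChartedSpace (EE (2 * n)) M] [IsManifold 𝓘(ℝ, EE (2 * n)) ∞ M]
  [MeasurableSpace M] [BorelSpace M] (Ω : Fam (2 * n) M) (vol : Measure M) (K : Set M), 1 ≤ n →
  Sg n Ω vol K → ∀ r j : ℕ, 1 ≤ j → r + 2 * j ≤ n + 1 →
  ∀ X Y ka m : PFam (2 * n) M, DFm 2 X → DFm 2 Y → DD X 0 → DD Y 0 → DFm (2 * j - 1) ka →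
  DFm (2 * j - 1) m → DD ka 0 → DD m (Y ^ j) → Vn K ka → Nl n Ω vol K (ka * UU n r j X Y)

/-- BLOCK ENB (uses DFA, DDA, LBP, HPC, CLV, STD): the end in the case `j = 1`.
PROOF.  `e` with `DD e ka` from CLV; `E = e * UU n r 1 X Y` has degree `0 + 2 n`, `Vn K E`, `DD E (ka * UU + e * 0)` (LBP, HPC).  STD. -/
def Stmt_ENB : Prop := ∀ (n : ℕ) (M : Type) [TopologicalSpace M] [T2Space M]
  [SecondCountableTopology M] [ChartedSpace (EE (2 * n)) M] [IsManifold 𝓘(ℝ, EE (2 * n)) ∞ M]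
  [MeasurableSpace M] [BorelSpace M] (Ω : Fam (2 * n) M) (vol : Measure M) (K : Set M), 1 ≤ n →
  Sg n Ω vol K → NoC M → ∀ r : ℕ, r ≤ n → ∀ X Y ka : PFam (2 * n) M, DFm 2 X → DFm 2 Y →
  DD X 0 → DD Y 0 → DFm 1 ka → DD ka 0 → Vn K ka → Nl n Ω vol K (ka * UU n r 1 X Y)

/-- BLOCK GVL (uses NLA, GGD): the value of the integral.
PROOF.  On the region `(GS Ω).1 = Ω` (OMI), so the second component of `gg (2 * n) H Φ * (GS Ω)^n` is `PBK (Φ t) (hF (H t)) * Ω^n` (`(x y).2 = x.2 y.1` if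
`x.1 = 0`; `(y ^ n).1 = y.1 ^ n`) `= PBK (Φ t) (hF (H t) * Ω^n)` on targets (OMI, `pb` is a homomorphism); INV (HDC) for the form
`hF (H t) * Ω^n` of degree `2 n`: its integral is that of `dn n Ω (hF (H t) * Ω^n) = H t` (DNC (1)).  For `gg (2 * n) H' Φ' * (GS Ω H Φ Ω)^n`: the second
component is `PBK (Φ' t) (hF (H' t)) * Ω^n` too, and `Ω^n = PBK (Φ' t) (Ω^n)`.  Additivity: NLA (1) (or `integral_sub` with
INT): both `gg .. * (GS Ω)^n` are `DFm (2 n + 1)`, zero off `K` (GGD). -/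
def Stmt_GVL : Prop := ∀ (n : ℕ) (M : Type) [TopologicalSpace M] [T2Space M]
  [SecondCountableTopology M] [ChartedSpace (EE (2 * n)) M] [IsManifold 𝓘(ℝ, EE (2 * n)) ∞ M]
  [MeasurableSpace M] [BorelSpace M] (Ω : Fam (2 * n) M) (vol : Measure M) (K : Set M), 1 ≤ n →
  Sg n Ω vol K → ∀ (H H' : ℝ → M → ℝ) (Φ Φ' : ℝ → M → M), TwoH n Ω H H' Φ Φ' K →
  JJ n Ω vol ((gg (2 * n) H' Φ' - gg (2 * n) H Φ) * (GS Ω H Φ Ω) ^ n) = Cal vol H' - Cal vol H

/-- BLOCK MAI (uses PLA, ALP, DFA, DDA, LBP, GSM, GSD, VMU, GDF, CLV, NLA, S0L, CHN, EVL, ENA, ENB, GVL): the Calabi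
invariant.
PROOF.  `A i = GS (α i)`, `B i = GS (β i)` for `Φ`, `A'`, `B'` for `Φ'`, `w0 = GS Ω`, `w1 = GS' Ω`, `X0 = ∑ A i B i`, `X1 = ∑ A' i B' i`.  All closed
(GSD, `GS 0 = 0` by GSM (1); GSM (2) for `dF α = 0` etc.).  `Φ' α - Φ α` is closed in `Vn K` up to sign (VMU), so CLV gives `ca i`, `cb i`.
`nu0 = GS μ`: `DD nu0 ((w0 - X0)^j)` (GSD, GSM).  `X0^(r+1) = 0` on the region (ALP, PLA).
S0L for `X0`, `Y = w0 - X0`, `g = gg' - gg`, `dg = w0 - w1` (GDF; `DD dg 0`): `nu1`, `Y - dg = w1 - X0`, `X0 + Y = w0`.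
CHN for `wt = w1`, `nu1`: `nu2`.  `ka = nu2 - GS' μ` is closed, `Vn K ka` (sum of `nu2 - nu1`, `nu1 - nu0`, `GS μ - GS' μ`).
EVL: `nu0 UU X0 Y = 0` and `GS' μ UU X1 (w1 - X1) = 0` on the region, so `nu2 UU X1 (w1 - X1) = ka UU X1 (w1 - X1)` there, which is `Nl` by ENA
(`m = GS' μ`) or ENB.  Adding up with NLA: `(n + 1) • (g * w0^n)` is `Nl`, so `(n + 1) (Cal H' - Cal H) = 0` by GVL, NLA (2). -/
def Stmt_MAI : Prop := ∀ (n : ℕ) (M : Type) [TopologicalSpace M] [T2Space M]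
  [SecondCountableTopology M] [ChartedSpace (EE (2 * n)) M] [IsManifold 𝓘(ℝ, EE (2 * n)) ∞ M]
  [MeasurableSpace M] [BorelSpace M] (Ω μ : Fam (2 * n) M) (vol : Measure M) (K : Set M), 1 ≤ n →
  Sg n Ω vol K → NoC M → ∀ (r j : ℕ) (α β : Fin r → Fam (2 * n) M), 1 ≤ j →
  (r + 2 * j ≤ n + 1 ∨ (j = 1 ∧ r ≤ n)) →
  (∀ i, IsForm 1 (α i) ∧ EqF (dF (α i)) 0 ∧ IsForm 1 (β i) ∧ EqF (dF (β i)) 0) →
  IsForm (2 * j - 1) μ → EqF (dF μ) ((Ω - ∑ i, α i * β i) ^ j) →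
  ∀ (H H' : ℝ → M → ℝ) (Φ Φ' : ℝ → M → M), TwoH n Ω H H' Φ Φ' K → Cal vol H = Cal vol H'

/-- BLOCK NCA (uses PLA, ALP, DFA, DDA, LBP, HPC, CSD): no compact component if `r + 2 j ≤ n + 1`.
PROOF.  Let `C = connectedComponent p` be compact; it is open (`ChartedSpace.locallyConnectedSpace`, `isOpen_connectedComponent`) and closed.
`w = ∑ α i β i`, `ρ = Ω - w`, `θ = HP (n - j) (r + 1) (bc n) w ρ * μ` (an algebra expression in `Fam`), a form of degree `2 n - 1`, and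
`D (θ c) x = HP (..) * ρ^j = ∑ (i ≤ r) C(n,i) w^i ρ^(n-i) = (w + ρ)^n = Ω^n` on targets (`w^(r+1) = 0`: ALP; `i ≤ r ≤ n - j`).  To get this from the
blocks: `HP (..) (cst w) (cst ρ) * cst μ` and its `DD` (HPC, LBP, CSD), first components at `t = 0`.
`f c x = (1 if c.symm x ∈ C else 0) • θ c x` is a form (FO2 (7): the indicator is locally constant), `CS C f`, `dF f = indicator • Ω^n` on targets (near
`x` the indicator is constant).  STM: `0 = ∫ dn (dF f) = ∫ indicator = (vol C).toReal`, but `vol C > 0` (VOL (1)) and finite. -/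
def Stmt_NCA : Prop := ∀ (n : ℕ) (M : Type) [TopologicalSpace M] [T2Space M]
  [SecondCountableTopology M] [ChartedSpace (EE (2 * n)) M] [IsManifold 𝓘(ℝ, EE (2 * n)) ∞ M]
  [MeasurableSpace M] [BorelSpace M] (Ω μ : Fam (2 * n) M) (vol : Measure M),
  IsSymplectic n Ω → IsVol n Ω vol → vol univ < ⊤ → ∀ (r j : ℕ) (α β : Fin r → Fam (2 * n) M),
  1 ≤ j → r + 2 * j ≤ n + 1 →
  (∀ i, IsForm 1 (α i) ∧ EqF (dF (α i)) 0 ∧ IsForm 1 (β i) ∧ EqF (dF (β i)) 0) →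
  IsForm (2 * j - 1) μ → EqF (dF μ) ((Ω - ∑ i, α i * β i) ^ j) → NoC M

/-- BLOCK FNE (uses MAI, NCA): the theorem.
PROOF.  `NoC M`: NCA or the hypothesis.  (1) `K` = union of the compact supports of `H` and `H'`; MAI (`TwoH`, `HS` from `IsSymplectic`, `IsHam`,
`IsIso`).  (2), (3): as `p_FIN` in `MP_c3bd4f_hd/B_FIN.lean` with (1) in place of CAL: `HDC.q_HOF` needs a point `p ∉ K`: a compact `K = univ` would
make `connectedComponent p` (closed) compact; `HDC.q_EXH`. -/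
def Stmt_FNE : Prop := ∀ (n r j : ℕ) (M : Type) [TopologicalSpace M] [T2Space M]
  [SecondCountableTopology M]
  [ChartedSpace (EE (2 * n)) M] [IsManifold 𝓘(ℝ, EE (2 * n)) ∞ M] [MeasurableSpace M]
  [BorelSpace M] [Nonempty M] (Ω μ : Fam (2 * n) M) (α β : Fin r → Fam (2 * n) M)
  (vol : Measure M), 1 ≤ n → 1 ≤ j →
  (r + 2 * j ≤ n + 1 ∨ (j = 1 ∧ r ≤ n ∧ NoC M)) → IsSymplectic n Ω → IsVol n Ω vol →
  vol univ < ⊤ →
  (∀ i, IsForm 1 (α i) ∧ EqF (dF (α i)) 0 ∧ IsForm 1 (β i) ∧ EqF (dF (β i)) 0) →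
  IsForm (2 * j - 1) μ → EqF (dF μ) ((Ω - ∑ i, α i * β i) ^ j) →
  (∀ (H H' : ℝ → M → ℝ) (φ : M → M), IsHam (2 * n) H → IsHam (2 * n) H' → Generates Ω H φ →
    Generates Ω H' φ → Cal vol H = Cal vol H') ∧
  (∀ (H : ℝ → M → ℝ) (φ : M → M), IsHam (2 * n) H → Generates Ω H φ →
    |Cal vol H| ≤ (vol univ).toReal * hofer Ω φ) ∧
  ∀ C : ℝ, ∃ φ ∈ Ham Ω, C ≤ hofer Ω φ

end HDE
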